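import Pool.Agent.Lib.BCC.Defs

/-!
# Module BCC.CatReg: regularity of the words `x b^j w` (MP_f1c4ef_lc)

PROOF: let `M` be a DFA of `A`, `M'` a DFA of `B`. DFA with states `Option (σ ⊕ (Unit ⊕ σ'))` or a proof with Myhill-Nerode (`Language.isRegular_iff_finite_range_leftQuotient`): the left quotient of a word `t` depends only on: `t` over `Δ` and the state of `M`; or `t = x b^j w` with `j ≥ 1` or `w ≠ []` (unique decomposition,
`b ∉ Δ`, `b ∉ Γ`, `Δ`, `Γ` disjoint): whether `x ∈ A`, and whether `w` is empty, and the state of `M'` on `w`; or `t` not of this form (empty left quotient). `cat2` (two blocks over disjoint alphabets with a marker between them, language of the concatenations regular) : `{x c w} = ⋃ q, {x over Δ | M.eval x = q} c {w over Γ | M.evalFrom q w ∈ accept}`.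
-/

set_option autoImplicit false

namespace Pool.Agent.Lib.BCC

open Pool.Agent.Lib.F1c4

namespace CatRegAux

theorem mul_reg {L1 L2 : Language ℕ} (h1 : L1.IsRegular) (h2 : L2.IsRegular) :
    (L1 * L2).IsRegular := by
  rw [Language.isRegular_iff_finite_range_leftQuotient] at h1 h2 ⊢
  set F : Language ℕ × Set (Language ℕ) → Language ℕ :=
    fun p => {y | y ∈ p.1 * L2 ∨ ∃ Q ∈ p.2, y ∈ Q} with hF
  have h3 : ((Set.range L1.leftQuotient) ×ˢ (𝒫 (Set.range L2.leftQuotient))).Finite :=
    h1.prod h2.finite_subsets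
  refine (h3.image F).subset ?_
  rintro _ ⟨t, rfl⟩
  refine ⟨(L1.leftQuotient t, {Q | ∃ u v, t = u ++ v ∧ u ∈ L1 ∧ Q = L2.leftQuotient v}),
    ⟨⟨t, rfl⟩, ?_⟩, ?_⟩
  · rintro Q ⟨u, v, _, _, rfl⟩
    exact ⟨v, rfl⟩
  · ext y
    constructor
    · rintro (h | ⟨Q, ⟨u, v, h4, h5, rfl⟩, hy⟩)
      · rw [Language.mem_mul] at h
        obtain ⟨a, ha, c, hc, rfl⟩ := h
        change t ++ (a ++ c) ∈ L1 * L2
        rw [Language.mem_mul]
        exact ⟨t ++ a, ha, c, hc, List.append_assoc _ _ _⟩
      · change t ++ y ∈ L1 * L2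
        rw [Language.mem_mul]
        refine ⟨u, h5, v ++ y, hy, ?_⟩
        rw [h4, List.append_assoc]
    · intro h
      change t ++ y ∈ L1 * L2 at h
      rw [Language.mem_mul] at h
      obtain ⟨a, ha, c, hc, h4⟩ := h
      rw [List.append_eq_append_iff] at h4
      rcases h4 with ⟨w, h5, h6⟩ | ⟨w, h5, h6⟩
      · right
        refine ⟨L2.leftQuotient w, ⟨a, w, h5, ha, rfl⟩, ?_⟩
        change w ++ y ∈ L2
        rw [← h6]
        exact hc
      · left
        rw [Language.mem_mul]
        refine ⟨w, ?_, c, hc, h6.symm⟩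
        change t ++ w ∈ L1
        rw [← h5]
        exact ha

/-- the words `b ^ j` -/
def PowL (b : ℕ) : Language ℕ := {t : List ℕ | ∃ j : ℕ, t = List.replicate j b}

/-- the word `c` -/
def SinL (c : ℕ) : Language ℕ := {t : List ℕ | t = [c]}

/-- union over a finite set -/
def UnL {σ : Type} (s : Finset σ) (L : σ → Language ℕ) : Language ℕ :=
  {t : List ℕ | ∃ q ∈ s, t ∈ L q}

/-- the words over `Δ` -/
def OvL (Δ : Finset ℕ) : Language ℕ := {t : List ℕ | Ov Δ t}

theorem fin_reg {L : Language ℕ} (S : Set (Language ℕ)) (hS : S.Finite)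
    (h : ∀ t, L.leftQuotient t ∈ S) : L.IsRegular := by
  rw [Language.isRegular_iff_finite_range_leftQuotient]
  refine hS.subset ?_
  rintro _ ⟨t, rfl⟩
  exact h t

theorem eq_zero_of {L : Language ℕ} (h : ∀ y, y ∉ L) : L = 0 :=
  Language.ext fun y => ⟨fun hy => absurd hy (h y), fun hy => absurd hy (Language.notMem_zero y)⟩

theorem pow_reg (b : ℕ) : (PowL b).IsRegular := by
  refine fin_reg {0, PowL b} (Set.toFinite _) fun t => ?_
  by_cases h : ∃ j : ℕ, t = List.replicate j b
  · right
    obtain ⟨j, rfl⟩ := h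
    refine Language.ext fun y => ?_
    constructor
    · rintro ⟨k, hk⟩
      rw [List.append_eq_replicate_iff] at hk
      exact ⟨y.length, hk.2.2⟩
    · rintro ⟨k, rfl⟩
      exact ⟨j + k, by rw [List.replicate_add]⟩
  · left
    refine eq_zero_of ?_
    rintro y ⟨k, hk⟩
    rw [List.append_eq_replicate_iff] at hk
    exact h ⟨_, hk.2.1⟩

theorem single_reg (c : ℕ) : (SinL c).IsRegular := by
  refine fin_reg {0, SinL c, 1} (Set.toFinite _) fun t => ?_
  by_cases h : t = []
  · right
    left
    subst h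
    exact Language.ext fun y => Iff.rfl
  · by_cases h2 : t = [c]
    · right
      right
      subst h2
      refine Language.ext fun y => ?_
      rw [Language.mem_one]
      constructor
      · intro hy
        have hy' : [c] ++ y = [c] := hy
        simpa using hy'
      · intro hy
        subst hy
        rfl
    · left
      refine eq_zero_of ?_
      intro y hy
      have hy' : t ++ y = [c] := hy
      rw [List.append_eq_singleton_iff] at hy'
      rcases hy' with h3 | h3
      · exact h h3.1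
      · exact h2 h3.1

theorem ov_reg (Δ : Finset ℕ) : (OvL Δ).IsRegular := by
  refine fin_reg {0, OvL Δ} (Set.toFinite _) fun t => ?_
  by_cases h : Ov Δ t
  · right
    refine Language.ext fun y => ?_
    constructor
    · intro hy a ha
      exact hy a (List.mem_append_right _ ha)
    · intro hy a ha
      rcases List.mem_append.1 ha with h1 | h1
      · exact h a h1
      · exact hy a h1
  · left
    refine eq_zero_of ?_
    intro y hy
    exact h fun a ha => hy a (List.mem_append_left _ ha)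

theorem union_reg {σ : Type} (s : Finset σ) (L : σ → Language ℕ) (h : ∀ q ∈ s, (L q).IsRegular) :
    (UnL s L).IsRegular := by
  classical
  induction s using Finset.induction_on with
  | empty =>
    refine fin_reg {0} (Set.toFinite _) fun t => ?_
    refine eq_zero_of ?_
    rintro y ⟨q, hq, _⟩
    exact absurd hq (Finset.notMem_empty q)
  | insert a s ha ih =>
    have h1 := (h a (Finset.mem_insert_self a s)).add
      (ih fun q hq => h q (Finset.mem_insert_of_mem hq))
    have h2 : UnL (insert a s) L = L a + UnL s L := by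
      refine Language.ext fun t => ?_
      rw [Language.mem_add]
      constructor
      · rintro ⟨q, hq, ht⟩
        rcases Finset.mem_insert.1 hq with rfl | hq
        · exact Or.inl ht
        · exact Or.inr ⟨q, hq, ht⟩
      · rintro (ht | ⟨q, hq, ht⟩)
        · exact ⟨a, Finset.mem_insert_self a s, ht⟩
        · exact ⟨q, Finset.mem_insert_of_mem hq, ht⟩
    rw [h2]
    exact h1

end CatRegAux

open CatRegAux

theorem cat_pow_reg {Δ Γ : Finset ℕ} {b : ℕ} (hD : b ∉ Δ) (hG : b ∉ Γ) (hDG : Disjoint Δ Γ)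
    {A B : Language ℕ} (hA : A.IsRegular) (hB : B.IsRegular) (hAD : ∀ x ∈ A, Ov Δ x)
    (hBG : ∀ w ∈ B, Ov Γ w) :
    Language.IsRegular ({t : List ℕ | ∃ x ∈ A, ∃ (j : ℕ), ∃ w ∈ B,
      t = x ++ List.replicate j b ++ w} : Language ℕ) := by
  have h := mul_reg (mul_reg hA (pow_reg b)) hB
  have h2 : ({t : List ℕ | ∃ x ∈ A, ∃ (j : ℕ), ∃ w ∈ B,
      t = x ++ List.replicate j b ++ w} : Language ℕ) = A * PowL b * B := by
    refine Language.ext fun t => ?_
    rw [Language.mem_mul]
    constructor
    · rintro ⟨x, hx, j, w, hw, rfl⟩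
      refine ⟨x ++ List.replicate j b, ?_, w, hw, rfl⟩
      rw [Language.mem_mul]
      exact ⟨x, hx, List.replicate j b, ⟨j, rfl⟩, rfl⟩
    · rintro ⟨y, hy, w, hw, rfl⟩
      rw [Language.mem_mul] at hy
      obtain ⟨x, hx, z, ⟨j, rfl⟩, rfl⟩ := hy
      exact ⟨x, hx, j, w, hw, rfl⟩
  rw [h2]
  exact h

theorem cat_mark_reg {Δ Γ : Finset ℕ} {c : ℕ} (hD : c ∉ Δ) (hDG : Disjoint Δ Γ)
    {L : Language ℕ} (hL : L.IsRegular) :
    Language.IsRegular ({t : List ℕ | ∃ x w : List ℕ, Ov Δ x ∧ Ov Γ w ∧ x ++ w ∈ L ∧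
      t = x ++ [c] ++ w} : Language ℕ) := by
  classical
  obtain ⟨σ, hσ, M, rfl⟩ := hL
  let A : σ → Language ℕ := fun q => {x : List ℕ | M.eval x = q ∧ Ov Δ x}
  let B : σ → Language ℕ := fun q => {w : List ℕ | M.evalFrom q w ∈ M.accept ∧ Ov Γ w}
  have hA : ∀ q, (A q).IsRegular := by
    intro q
    have h1 : Language.IsRegular (({x : List ℕ | M.eval x = q} : Language ℕ)) :=
      ⟨σ, hσ, ⟨M.step, M.start, {q}⟩, by
        ext x
        exact Iff.rfl⟩
    have h2 := h1.inf (ov_reg Δ)
    exact h2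
  have hB : ∀ q, (B q).IsRegular := by
    intro q
    have h1 : Language.IsRegular (({w : List ℕ | M.evalFrom q w ∈ M.accept} : Language ℕ)) :=
      ⟨σ, hσ, ⟨M.step, q, M.accept⟩, by
        ext x
        exact Iff.rfl⟩
    have h2 := h1.inf (ov_reg Γ)
    exact h2
  have h := union_reg (Finset.univ : Finset σ)
    (fun q => A q * SinL c * B q)
    fun q _ => mul_reg (mul_reg (hA q) (single_reg c)) (hB q)
  have h2 : ({t : List ℕ | ∃ x w : List ℕ, Ov Δ x ∧ Ov Γ w ∧ x ++ w ∈ M.accepts ∧
      t = x ++ [c] ++ w} : Language ℕ) =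
      UnL (Finset.univ : Finset σ) (fun q => A q * SinL c * B q) := by
    refine Language.ext fun t => ?_
    constructor
    · rintro ⟨x, w, hx, hw, hxw, rfl⟩
      refine ⟨M.eval x, Finset.mem_univ _, ?_⟩
      change x ++ [c] ++ w ∈ A (M.eval x) * SinL c * B (M.eval x)
      rw [Language.mem_mul]
      refine ⟨x ++ [c], ?_, w, ⟨?_, hw⟩, rfl⟩
      · rw [Language.mem_mul]
        exact ⟨x, ⟨rfl, hx⟩, [c], rfl, rfl⟩
      · have h3 : M.evalFrom M.start (x ++ w) ∈ M.accept := hxw
        rw [DFA.evalFrom_of_append] at h3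
        exact h3
    · rintro ⟨q, _, hq⟩
      change t ∈ A q * SinL c * B q at hq
      rw [Language.mem_mul] at hq
      obtain ⟨y, hy, w, ⟨hw, hw2⟩, rfl⟩ := hq
      rw [Language.mem_mul] at hy
      obtain ⟨x, ⟨hx, hx2⟩, z, hz, rfl⟩ := hy
      have hz' : z = [c] := hz
      subst hz'
      refine ⟨x, w, hx2, hw2, ?_, rfl⟩
      change M.evalFrom M.start (x ++ w) ∈ M.accept
      rw [DFA.evalFrom_of_append]
      have h4 : M.evalFrom M.start x = q := hx
      rw [h4]
      exact hw
  rw [h2]
  exact h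

end Pool.Agent.Lib.BCC
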