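import Pool.Agent.Lib.BCC.Code

/-!
# Module BCC.OfReg: regular languages come from recognizable sets (MP_f1c4ef_lc)

PROOF: let `M` be a DFA of `LS S` with a finite set `σ` of states, `N = Nat.card σ`, `p = N !` (or any `N`, `p > 0` with `f^[n + p] = f^[n]` for all `n ≥ N` and all `f : σ → σ`; such `N`, `p` exist since `σ → σ` is a finite monoid: e.g. pigeonhole on `n ↦ (f ↦ f^[n])`). Write `n = update n i (n i)` and use
`code_upd` (with `u`, `v` the parts of `n` below and above `i`): reading the block `i^(n i)` or `i^(n i + p)` leads to the same state.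
-/

set_option autoImplicit false

namespace Pool.Agent.Lib.BCC

open Pool.Agent.Lib.F1c4

namespace OfRegAux

/-- a common threshold and a common period for all the self-maps of a finite type -/
theorem exists_period (σ : Type) [Finite σ] :
    ∃ N p : ℕ, 0 < p ∧ ∀ (f : σ → σ) (n : ℕ), N ≤ n → ∀ s, f^[n + p] s = f^[n] s := by
  obtain ⟨a, b, hab, h⟩ :=
    Finite.exists_ne_map_eq_of_infinite (fun (n : ℕ) (f : σ → σ) => f^[n])
  have key : ∀ a b : ℕ, a < b → ((fun f : σ → σ => f^[a]) = fun f : σ → σ => f^[b]) →
      ∃ N p : ℕ, 0 < p ∧ ∀ (f : σ → σ) (n : ℕ), N ≤ n → ∀ s, f^[n + p] s = f^[n] s := by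
    intro a b hlt he
    refine ⟨a, b - a, by omega, fun f n hn s => ?_⟩
    have hf : f^[a] = f^[b] := congrFun he f
    have e1 : n + (b - a) = (n - a) + b := by omega
    have e2 : f^[n] s = f^[(n - a) + a] s := by
      rw [Nat.sub_add_cancel hn]
    rw [e1, e2, Function.iterate_add_apply, Function.iterate_add_apply, hf]
  rcases Nat.lt_or_gt_of_ne hab with hlt | hlt
  · exact key a b hlt h
  · exact key b a hlt h.symm

theorem evalFrom_replicate {σ : Type} (M : DFA ℕ σ) (a m : ℕ) (s : σ) :
    M.evalFrom s (List.replicate m a) = (fun t => M.step t a)^[m] s := by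
  induction m generalizing s with
  | zero => simp [DFA.evalFrom]
  | succ m ih =>
    rw [List.replicate_succ, Function.iterate_succ_apply, ← ih]
    rfl

/-- the part of a vector below `i` -/
def lo {k : ℕ} (n : Fin k → ℕ) (i : Fin k) : Fin k → ℕ := fun l => if l < i then n l else 0

/-- the part of a vector above `i` -/
def hi {k : ℕ} (n : Fin k → ℕ) (i : Fin k) : Fin k → ℕ := fun l => if i < l then n l else 0

theorem upd_lo_hi {k : ℕ} (n : Fin k → ℕ) (i : Fin k) (m : ℕ) :
    Function.update (lo n i + hi n i) i m = Function.update n i m := by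
  funext l
  by_cases hl : l = i
  · subst hl
    rw [Function.update_self, Function.update_self]
  · rw [Function.update_of_ne hl, Function.update_of_ne hl]
    rcases lt_or_gt_of_ne hl with h | h
    · simp [lo, hi, h, not_lt.2 (le_of_lt h)]
    · simp [lo, hi, h, not_lt.2 (le_of_lt h)]

theorem code_split {k : ℕ} (n : Fin k → ℕ) (i : Fin k) (m : ℕ) :
    code (Function.update n i m) =
      code (lo n i) ++ List.replicate m (i : ℕ) ++ code (hi n i) := by
  rw [← upd_lo_hi]
  exact code_upd (fun l hl => if_neg (not_lt.2 hl)) (fun l hl => if_neg (not_lt.2 hl)) m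

theorem eval_split {k : ℕ} {σ : Type} (M : DFA ℕ σ) (n : Fin k → ℕ) (i : Fin k) (m : ℕ) :
    M.eval (code (Function.update n i m)) =
      M.evalFrom ((fun t => M.step t (i : ℕ))^[m] (M.eval (code (lo n i)))) (code (hi n i)) := by
  rw [code_split, DFA.eval, DFA.evalFrom_of_append, DFA.evalFrom_of_append, evalFrom_replicate]

end OfRegAux

open OfRegAux in
theorem reg_rec {k : ℕ} {S : Set (Fin k → ℕ)} (h : (LS S).IsRegular) : Rec S := by
  obtain ⟨σ, hσ, M, hM⟩ := h
  obtain ⟨N, p, hp, hper⟩ := exists_period σ
  refine ⟨N, p, hp, fun n i hn => ?_⟩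
  have hmem : ∀ n : Fin k → ℕ, n ∈ S ↔ M.eval (code n) ∈ M.accept := by
    intro n
    rw [← mem_LS (S := S), ← hM]
    exact DFA.mem_accepts M
  have e : M.eval (code (Function.update n i (n i + p))) = M.eval (code n) := by
    conv_rhs => rw [← Function.update_eq_self i n]
    rw [eval_split, eval_split, hper _ _ hn]
  rw [hmem n, hmem (Function.update n i (n i + p)), e]

end Pool.Agent.Lib.BCC
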