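import Pool.Agent.Lib.BCC.Code

/-!
# Module BCC.RegOf: recognizable sets have regular languages (MP_f1c4ef_lc)

PROOF: `Language.isRegular_iff_finite_range_leftQuotient` (Mathlib.Computability.MyhillNerode). A word `w` that is not sorted or has a letter `≥ k` has the empty left quotient. Otherwise `w = code n` (`eq_code`), and `v` is in the left quotient iff `w ++ v` is sorted with letters `< k` and
`n + (counts of v) ∈ S`. Sortedness of `w ++ v` depends on `v` and on the last letter of `w` (`w.getLast?`), and `n + c ∈ S` depends only on the classes of the `n i` modulo the congruence (equal, or both `≥ N` and congruent mod `p`) of `Rec S`. So the left quotient is a function of an element of a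
finite type (last letter in `Option (Fin k)`, class in `Fin k → Fin (N + p)`).
-/

set_option autoImplicit false

namespace Pool.Agent.Lib.BCC

open Pool.Agent.Lib.F1c4

namespace RegOfAux

/-- the class of `m` -/
def red (N p m : ℕ) : ℕ := if m < N then m else N + (m - N) % p

theorem red_lt {N p : ℕ} (hp : 0 < p) (m : ℕ) : red N p m < N + p := by
  unfold red
  split_ifs with h
  · omega
  · have := Nat.mod_lt (m - N) hp
    omega

theorem red_cases {N p a b : ℕ} (h : red N p a = red N p b) :
    a = b ∨ (N ≤ a ∧ N ≤ b ∧ (a - N) % p = (b - N) % p) := by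
  unfold red at h
  split_ifs at h with h1 h2 h2
  · left; exact h
  · omega
  · omega
  · right
    refine ⟨by omega, by omega, by omega⟩

theorem red_add {N p a b : ℕ} (c : ℕ) (h : red N p a = red N p b) :
    red N p (a + c) = red N p (b + c) := by
  rcases red_cases h with h | ⟨h1, h2, h3⟩
  · rw [h]
  · unfold red
    rw [if_neg (by omega), if_neg (by omega)]
    have e1 : a + c - N = (a - N) + c := by omega
    have e2 : b + c - N = (b - N) + c := by omega
    rw [e1, e2, Nat.add_mod, h3, ← Nat.add_mod]

theorem per {k : ℕ} {S : Set (Fin k → ℕ)} {N p : ℕ}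
    (H : ∀ (n : Fin k → ℕ) (i : Fin k), N ≤ n i →
      (n ∈ S ↔ Function.update n i (n i + p) ∈ S)) (n : Fin k → ℕ) (i : Fin k) (h : N ≤ n i)
    (t : ℕ) : n ∈ S ↔ Function.update n i (n i + p * t) ∈ S := by
  induction t with
  | zero => simp
  | succ t ih =>
    rw [ih, H (Function.update n i (n i + p * t)) i (by rw [Function.update_self]; omega),
      Function.update_idem, Function.update_self, Nat.mul_succ, Nat.add_assoc]

theorem one_le {k : ℕ} {S : Set (Fin k → ℕ)} {N p : ℕ}
    (H : ∀ (n : Fin k → ℕ) (i : Fin k), N ≤ n i →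
      (n ∈ S ↔ Function.update n i (n i + p) ∈ S)) (n : Fin k → ℕ) (i : Fin k) {a b : ℕ}
    (ha : N ≤ a) (hab : a ≤ b) (hm : (a - N) % p = (b - N) % p) :
    Function.update n i a ∈ S ↔ Function.update n i b ∈ S := by
  have h1 : p ∣ (b - N) - (a - N) := (Nat.modEq_iff_dvd' (by omega)).1 hm
  obtain ⟨t, ht⟩ := h1
  have h2 : b = a + p * t := by omega
  rw [per H (Function.update n i a) i (by rw [Function.update_self]; exact ha) t,
    Function.update_idem, Function.update_self, h2]

theorem one {k : ℕ} {S : Set (Fin k → ℕ)} {N p : ℕ}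
    (H : ∀ (n : Fin k → ℕ) (i : Fin k), N ≤ n i →
      (n ∈ S ↔ Function.update n i (n i + p) ∈ S)) (n : Fin k → ℕ) (i : Fin k) {a b : ℕ}
    (h : red N p a = red N p b) :
    Function.update n i a ∈ S ↔ Function.update n i b ∈ S := by
  rcases red_cases h with h | ⟨h1, h2, h3⟩
  · rw [h]
  · rcases le_total a b with hab | hab
    · exact one_le H n i h1 hab h3
    · exact (one_le H n i h2 hab h3.symm).symm

theorem all {k : ℕ} {S : Set (Fin k → ℕ)} {N p : ℕ}
    (H : ∀ (n : Fin k → ℕ) (i : Fin k), N ≤ n i →
      (n ∈ S ↔ Function.update n i (n i + p) ∈ S)) (n m : Fin k → ℕ)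
    (h : ∀ i, red N p (n i) = red N p (m i)) : n ∈ S ↔ m ∈ S := by
  have key : ∀ s : Finset (Fin k), (n ∈ S ↔ (fun i => if i ∈ s then m i else n i) ∈ S) := by
    intro s
    induction s using Finset.induction_on with
    | empty => simp
    | insert a s ha ih =>
      rw [ih]
      have e1 : (fun i => if i ∈ s then m i else n i) =
          Function.update (fun i => if i ∈ s then m i else n i) a (n a) := by
        funext i
        by_cases hi : i = a
        · subst hi
          rw [Function.update_self, if_neg ha]
        · rw [Function.update_of_ne hi]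
      have e2 : (fun i => if i ∈ insert a s then m i else n i) =
          Function.update (fun i => if i ∈ s then m i else n i) a (m a) := by
        funext i
        by_cases hi : i = a
        · subst hi
          rw [Function.update_self, if_pos (Finset.mem_insert_self _ _)]
        · rw [Function.update_of_ne hi]
          simp [Finset.mem_insert, hi]
      rw [e2, e1, Function.update_idem]
      exact one H _ a (h a)
  rw [key Finset.univ]
  simp

end RegOfAux

open RegOfAux in
theorem rec_rat {k : ℕ} {S : Set (Fin k → ℕ)} (h : Rec S) : Rat (LS S) := by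
  obtain ⟨N, p, hp, H⟩ := h
  refine ⟨?_, ?_⟩
  · rw [Language.isRegular_iff_finite_range_leftQuotient]
    let key : List ℕ → Prop × Set (Fin k) × (Fin k → Fin (N + p)) := fun w =>
      (w.Pairwise (· ≤ ·) ∧ (∀ a ∈ w, a < k), {b : Fin k | ∀ a ∈ w, a ≤ (b : ℕ)},
        fun i => ⟨red N p (w.count (i : ℕ)), red_lt hp _⟩)
    have hfac : ∀ w w' : List ℕ, key w = key w' →
        (LS S).leftQuotient w = (LS S).leftQuotient w' := by
      intro w w' hw
      simp only [key, Prod.mk.injEq] at hw
      obtain ⟨h1, h2, h3⟩ := hw
      have h3' : ∀ i : Fin k, red N p (w.count (i : ℕ)) = red N p (w'.count (i : ℕ)) := by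
        intro i
        have := congrFun h3 i
        exact congrArg Fin.val this
      ext v
      rw [Language.mem_leftQuotient, Language.mem_leftQuotient, mem_LS_iff, mem_LS_iff,
        List.pairwise_append, List.pairwise_append]
      have h4 : ((fun i : Fin k => (w ++ v).count (i : ℕ)) ∈ S ↔
          (fun i : Fin k => (w' ++ v).count (i : ℕ)) ∈ S) := by
        apply all H
        intro i
        rw [List.count_append, List.count_append]
        exact red_add _ (h3' i)
      have h5 : (∀ b ∈ v, b < k) → ((∀ a ∈ w, ∀ b ∈ v, a ≤ b) ↔ (∀ a ∈ w', ∀ b ∈ v, a ≤ b)) := by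
        intro hv
        constructor
        · intro hh a ha b hb
          have : (⟨b, hv b hb⟩ : Fin k) ∈ {b : Fin k | ∀ a ∈ w, a ≤ (b : ℕ)} :=
            fun a ha => hh a ha b hb
          rw [h2] at this
          exact this a ha
        · intro hh a ha b hb
          have : (⟨b, hv b hb⟩ : Fin k) ∈ {b : Fin k | ∀ a ∈ w', a ≤ (b : ℕ)} :=
            fun a ha => hh a ha b hb
          rw [← h2] at this
          exact this a ha
      have h1' := iff_of_eq h1
      simp only [List.mem_append]
      constructor
      · rintro ⟨⟨a1, a2, a3⟩, a4, a5⟩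
        have b1 := h1'.1 ⟨a1, fun a ha => a4 a (Or.inl ha)⟩
        refine ⟨⟨b1.1, a2, (h5 fun b hb => a4 b (Or.inr hb)).1 a3⟩, ?_, h4.1 a5⟩
        intro a ha
        rcases ha with ha | ha
        · exact b1.2 a ha
        · exact a4 a (Or.inr ha)
      · rintro ⟨⟨a1, a2, a3⟩, a4, a5⟩
        have b1 := h1'.2 ⟨a1, fun a ha => a4 a (Or.inl ha)⟩
        refine ⟨⟨b1.1, a2, (h5 fun b hb => a4 b (Or.inr hb)).2 a3⟩, ?_, h4.2 a5⟩
        intro a ha
        rcases ha with ha | ha
        · exact b1.2 a ha
        · exact a4 a (Or.inr ha)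
    have hf : Function.FactorsThrough (LS S).leftQuotient key := fun w w' h => hfac w w' h
    rw [Function.factorsThrough_iff] at hf
    obtain ⟨e, he⟩ := hf
    rw [he]
    exact (Set.finite_range e).subset (Set.range_comp_subset_range key e)
  · refine ⟨Finset.range k, ?_⟩
    intro w hw a ha
    rw [Finset.mem_range]
    exact (mem_LS_iff.1 hw).2.1 a ha

end Pool.Agent.Lib.BCC
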