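import Pool.Agent.Lib.BCC.Defs

/-!
# Module BCC.Uni2: unions with rational languages (MP_f1c4ef_lc)

PROOF. If `A` is empty, the union is `K`, in `F` by `rat_mem` (F1c4.Mem). Otherwise choose `w0 ∈ A`; `nivat` with
`K'` = all `[v]_0` (`v` over the alphabet `S` of `A`) and all `[3] ++ [v]_1`, `v ∈ K`; `φ` sends `3` to `w0`,
keeps index 0 and deletes index 1, `h` deletes `3` and keeps index 0 and 1.
-/

set_option autoImplicit false

namespace Pool.Agent.Lib.BCC

open Pool.Agent.Lib.F1c4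

namespace Uni2Aux

/-- the codes of the words of `K`, with index 1 -/
def Kc (S : Finset ℕ) (K : Language ℕ) : Language ℕ :=
  {w : List ℕ | Ov (S.image (fun a => 4 * a + 1)) w ∧ w.map (fun a => a / 4) ∈ K}

theorem Kc_reg (S : Finset ℕ) {K : Language ℕ} (hK : K.IsRegular) : (Kc S K).IsRegular := by
  obtain ⟨σ, hσ, M, hM⟩ := hK
  have h1 : Language.IsRegular (List.map (fun a => a / 4) ⁻¹' K : Language ℕ) :=
    ⟨σ, hσ, M.comap (fun a => a / 4), by rw [DFA.accepts_comap, hM]⟩
  exact (star_reg (S.image (fun a => 4 * a + 1))).inf h1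

theorem map_dec (i : ℕ) (hi : i < 4) (v : List ℕ) :
    (v.map (fun a => 4 * a + i)).map (fun a => a / 4) = v := by
  rw [List.map_map]
  have h : ((fun a => a / 4) ∘ fun a => 4 * a + i) = (id : ℕ → ℕ) := by
    funext a
    simp only [Function.comp, id]
    omega
  rw [h, List.map_id]

/-- the letter code -/
def ph (w0 : List ℕ) (n : ℕ) : List ℕ :=
  if n = 3 then w0 else if n % 4 = 0 then [n / 4] else []

/-- the decoding -/
def hh (n : ℕ) : List ℕ := if n = 3 then [] else [n / 4]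

theorem ph0 (w0 v : List ℕ) : (v.map (fun a => 4 * a + 0)).flatMap (ph w0) = v := by
  rw [MemAux.flat_single (ph w0) (fun a => [a]) (fun a => 4 * a + 0) v ?_, MemAux.flat_id]
  intro a _
  have e1 : 4 * a + 0 ≠ 3 := by omega
  have e3 : (4 * a + 0) % 4 = 0 := by omega
  have e4 : (4 * a + 0) / 4 = a := by omega
  unfold ph
  rw [if_neg e1, if_pos e3, e4]

theorem hh_one (i : ℕ) (hi : i < 3) (v : List ℕ) : (v.map (fun a => 4 * a + i)).flatMap hh = v := by
  rw [MemAux.flat_single hh (fun a => [a]) (fun a => 4 * a + i) v ?_, MemAux.flat_id]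
  intro a _
  have e1 : 4 * a + i ≠ 3 := by omega
  have e4 : (4 * a + i) / 4 = a := by omega
  unfold hh
  rw [if_neg e1, e4]

theorem ph1 (w0 v : List ℕ) : ([3] ++ v.map (fun a => 4 * a + 1)).flatMap (ph w0) = w0 := by
  rw [List.flatMap_append,
    MemAux.flat_single (ph w0) (fun _ => []) (fun a => 4 * a + 1) v ?_, MemAux.flat_nil]
  · simp [ph]
  · intro a _
    have e1 : 4 * a + 1 ≠ 3 := by omega
    have e3 : ¬ (4 * a + 1) % 4 = 0 := by omega
    unfold ph
    rw [if_neg e1, if_neg e3]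

theorem hh1 (v : List ℕ) : ([3] ++ v.map (fun a => 4 * a + 1)).flatMap hh = v := by
  rw [List.flatMap_append, hh_one 1 (by omega)]
  simp [hh]

end Uni2Aux

theorem union_mem {F : Set (Language ℕ)} (hF : IsCone F) {A K : Language ℕ} (hA : A ∈ F)
    (hK : Rat K) : ({w : List ℕ | w ∈ A ∨ w ∈ K} : Language ℕ) ∈ F := by
  by_cases h0 : ∃ w0, w0 ∈ A
  · obtain ⟨w0, hw0⟩ := h0
    obtain ⟨S, hS⟩ := hF.alph A hA
    obtain ⟨hKr, S', hS'⟩ := hK
    have hr : Rat (MemAux.Cd S 0 + MemAux.KA (Uni2Aux.Kc S' K)) := by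
      refine ⟨(MemAux.Cd_reg S 0).add (MemAux.KA_reg (Uni2Aux.Kc_reg S' hKr)),
        S.image (fun a => 4 * a + 0) ∪ insert 3 (S'.image (fun a => 4 * a + 1)), ?_⟩
      intro w hw a ha
      rcases (Language.mem_add _ _ _).1 hw with h1 | h1
      · exact Finset.mem_union_left _ (MemAux.Cd_al S 0 w h1 a ha)
      · exact Finset.mem_union_right _
          (MemAux.KA_al (S := S'.image (fun a => 4 * a + 1)) (fun w hw => hw.1) w h1 a ha)
    have h1 := nivat hF hA hr (Uni2Aux.ph w0) Uni2Aux.hh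
    have h2 : ({w : List ℕ | w ∈ A ∨ w ∈ K} : Language ℕ) =
        ({w : List ℕ | ∃ t ∈ MemAux.Cd S 0 + MemAux.KA (Uni2Aux.Kc S' K),
          t.flatMap (Uni2Aux.ph w0) ∈ A ∧ w = t.flatMap Uni2Aux.hh} : Language ℕ) := by
      ext w
      constructor
      · rintro (hw | hw)
        · refine ⟨w.map (fun a => 4 * a + 0), (Language.mem_add _ _ _).2 (Or.inl ?_), ?_, ?_⟩
          · exact MemAux.enc 0 (hS w hw)
          · rw [Uni2Aux.ph0]
            exact hw
          · rw [Uni2Aux.hh_one 0 (by omega)]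
        · refine ⟨[3] ++ w.map (fun a => 4 * a + 1), (Language.mem_add _ _ _).2
            (Or.inr (MemAux.mem_KA.2 ⟨_, ⟨MemAux.enc 1 (hS' w hw), ?_⟩, rfl⟩)), ?_, ?_⟩
          · rw [Uni2Aux.map_dec 1 (by omega)]
            exact hw
          · rw [Uni2Aux.ph1]
            exact hw0
          · rw [Uni2Aux.hh1]
      · rintro ⟨t, ht, h3, rfl⟩
        rcases (Language.mem_add _ _ _).1 ht with h4 | h4
        · obtain ⟨v, -, rfl⟩ := MemAux.dec (by omega) h4
          rw [Uni2Aux.ph0] at h3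
          rw [Uni2Aux.hh_one 0 (by omega)]
          exact Or.inl h3
        · obtain ⟨v', ⟨hv1, hv2⟩, rfl⟩ := MemAux.mem_KA.1 h4
          obtain ⟨v, -, rfl⟩ := MemAux.dec (by omega) hv1
          rw [Uni2Aux.map_dec 1 (by omega)] at hv2
          rw [Uni2Aux.hh1]
          exact Or.inr hv2
    rw [h2]
    exact h1
  · have h2 : ({w : List ℕ | w ∈ A ∨ w ∈ K} : Language ℕ) = K := by
      ext w
      constructor
      · rintro (hw | hw)
        · exact absurd ⟨w, hw⟩ h0
        · exact hw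
      · intro hw
        exact Or.inr hw
    rw [h2]
    exact rat_mem hF hK

end Pool.Agent.Lib.BCC
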