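import Pool.Agent.Lib.BCC.Code
import Pool.Agent.Lib.BCC.RegOf
import Pool.Agent.Lib.BCC.OfReg
import Pool.Agent.Lib.BCC.RecOps
import Pool.Agent.Lib.BCC.Uni2
import Pool.Agent.Lib.BCC.CatReg

/-!
# Module BCC.FamLast: the one-sided principle (MP_f1c4ef_lc)

PROOF. Let `Γ` = the letters `< i` (`Finset.range i`), `K` = the words `w i^j` with `w` over `Γ`, `w ∉ LS U` (rational: `LS U` is regular by `rec_rat`, `cat_pow_reg` with `Γ = ∅` for the last factor and `B = {[]}`). `A = {w | w ∈ LS S ∨ w ∈ K} ∈ F` by `union_mem`. Apply `FinalAux.uniform` (F1c4.Final; `word false [] [i] w j = w ++ [i]^j ++ []`) with `r = false`, `x = []`, `y = [i]`, `Γ`: for `w` over `Γ`: if `w ∉ LS U`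
then `w i^j ∈ A` for all `j`. If `w = code u`, `u ∈ U`, then `w i^j = code (update u i j)` (`code_upd` with `v = 0`) is in `A` iff `update u i j ∈ S` (it is not in `K`; `i ∉ Γ`, the decomposition is unique). The set of the `w` with `w i^j ∉ A` is `LS (U ∩ {u | update u i j ∉ S})` = `LS` of the difference of two `Rec` sets, so regular.
The conclusion of `uniform` (frequently) gives one `j`.
-/

set_option autoImplicit false

namespace Pool.Agent.Lib.BCC

open Pool.Agent.Lib.F1c4

namespace FamLastAux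

theorem code_zero {k : ℕ} : code (0 : Fin k → ℕ) = [] := by
  rw [List.eq_nil_iff_forall_not_mem]
  intro a ha
  obtain ⟨l, _, h⟩ := mem_code.1 ha
  exact h rfl

theorem code_low {k : ℕ} {n : Fin k → ℕ} {i : Fin k} (hn : ∀ l, i ≤ l → n l = 0) (j : ℕ) :
    code (Function.update n i j) = code n ++ List.replicate j (i : ℕ) := by
  have h := code_upd (u := n) (v := 0) (i := i) hn (fun _ _ => rfl) j
  rw [add_zero, code_zero, List.append_nil] at h
  exact h

theorem word_eq (i : ℕ) (w : List ℕ) (j : ℕ) :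
    word false [] [i] w j = w ++ List.replicate j i := by
  change w ++ (List.replicate j [i]).flatten ++ [] = w ++ List.replicate j i
  rw [MemAux.rep_one, List.append_nil]

theorem code_ov {k : ℕ} {n : Fin k → ℕ} {i : Fin k} (hn : ∀ l, i ≤ l → n l = 0) :
    Ov (Finset.range (i : ℕ)) (code n) := by
  intro a ha
  obtain ⟨l, hl, h⟩ := mem_code.1 ha
  rw [Finset.mem_range, ← hl]
  by_contra hc
  exact h (hn l (Fin.le_def.2 (not_lt.1 hc)))

theorem cancel {i : ℕ} {u x : List ℕ} (hu : i ∉ u) (hx : i ∉ x) {j m : ℕ}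
    (h : u ++ List.replicate j i = x ++ List.replicate m i) : u = x := by
  have h1 := congrArg (List.count i) h
  rw [List.count_append, List.count_append, List.count_replicate_self, List.count_replicate_self,
    List.count_eq_zero_of_not_mem hu, List.count_eq_zero_of_not_mem hx, Nat.zero_add,
    Nat.zero_add] at h1
  subst h1
  exact List.append_cancel_right h

/-- the words `w i^j`, `w` over the letters `< i`, not in `LS U` -/
def KK {k : ℕ} (i : ℕ) (U : Set (Fin k → ℕ)) : Language ℕ :=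
  {t : List ℕ | ∃ x ∈ ({w : List ℕ | Ov (Finset.range i) w ∧ w ∉ LS U} : Language ℕ), ∃ (j : ℕ),
    ∃ w ∈ ({w : List ℕ | w = []} : Language ℕ), t = x ++ List.replicate j i ++ w}

theorem mem_KK {k : ℕ} {i : ℕ} {U : Set (Fin k → ℕ)} {t : List ℕ} :
    t ∈ KK i U ↔ ∃ x, Ov (Finset.range i) x ∧ x ∉ LS U ∧ ∃ j, t = x ++ List.replicate j i := by
  constructor
  · rintro ⟨x, ⟨h1, h2⟩, j, w, hw, e⟩
    have hw' : w = [] := hw
    rw [hw', List.append_nil] at e
    exact ⟨x, h1, h2, j, e⟩
  · rintro ⟨x, h1, h2, j, e⟩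
    refine ⟨x, ⟨h1, h2⟩, j, [], rfl, ?_⟩
    rw [List.append_nil]
    exact e

theorem nil_reg : Language.IsRegular ({w : List ℕ | w = []} : Language ℕ) := by
  have e : ({w : List ℕ | w = []} : Language ℕ) = ({w : List ℕ | Ov ∅ w} : Language ℕ) := by
    ext w
    constructor
    · intro h
      have h' : w = [] := h
      subst h'
      exact fun a ha => absurd ha List.not_mem_nil
    · intro h
      exact MemAux.ov_empty h
  rw [e]
  exact star_reg ∅

theorem kk_rat {k : ℕ} {i : ℕ} {U : Set (Fin k → ℕ)} (hU : Rec U) : Rat (KK i U) := by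
  refine ⟨?_, insert i (Finset.range i), ?_⟩
  · refine cat_pow_reg (Δ := Finset.range i) (Γ := ∅) (b := i) ?_ ?_ ?_ ?_ nil_reg ?_ ?_
    · exact Finset.notMem_range_self
    · exact Finset.notMem_empty i
    · exact Finset.disjoint_empty_right _
    · have h1 := (rec_rat hU).1
      exact (star_reg (Finset.range i)).inf h1.compl
    · intro x hx
      exact hx.1
    · intro w hw
      have hw' : w = [] := hw
      subst hw'
      exact fun a ha => absurd ha List.not_mem_nil
  · intro t ht a ha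
    obtain ⟨x, h1, _, j, rfl⟩ := mem_KK.1 ht
    rcases List.mem_append.1 ha with h | h
    · exact Finset.mem_insert_of_mem (h1 a h)
    · rw [List.eq_of_mem_replicate h]
      exact Finset.mem_insert_self _ _

theorem not_KK {k : ℕ} {i : Fin k} {U : Set (Fin k → ℕ)} (hl : Low i U) {n : Fin k → ℕ}
    (hn : n ∈ U) (j : ℕ) : code n ++ List.replicate j (i : ℕ) ∉ KK (i : ℕ) U := by
  intro h
  obtain ⟨x, h1, h2, m, e⟩ := mem_KK.1 h
  have hi : ∀ {y : List ℕ}, Ov (Finset.range (i : ℕ)) y → (i : ℕ) ∉ y := fun hy hm =>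
    Finset.notMem_range_self (hy _ hm)
  have e' := cancel (hi (code_ov (hl n hn))) (hi h1) e
  exact h2 ⟨n, hn, e'.symm⟩

end FamLastAux

open FamLastAux in
theorem fam_last {k : ℕ} {F : Set (Language ℕ)} (hF : IsMinimal F) {S : Set (Fin k → ℕ)}
    (hS : LS S ∈ F) (i : Fin k) (U : Set (Fin k → ℕ)) (hU : Rec U) (hl : Low i U)
    (hr : ∀ m : ℕ, Rec {n | n ∈ U ∧ Function.update n i m ∈ S})
    (h : ∀ u ∈ U, ∃ M, ∀ m, M ≤ m → Function.update u i m ∈ S) :
    ∃ m, ∀ u ∈ U, Function.update u i m ∈ S := by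
  have hA : ({w : List ℕ | w ∈ LS S ∨ w ∈ KK (i : ℕ) U} : Language ℕ) ∈ F :=
    union_mem hF.1 hS (kk_rat hU)
  have key : ∀ n ∈ U, ∀ j, (word false [] [(i : ℕ)] (code n) j ∈
      ({w : List ℕ | w ∈ LS S ∨ w ∈ KK (i : ℕ) U} : Language ℕ) ↔ Function.update n i j ∈ S) := by
    intro n hn j
    rw [word_eq]
    constructor
    · rintro (h1 | h1)
      · rw [← code_low (hl n hn) j] at h1
        exact mem_LS.1 h1
      · exact absurd h1 (not_KK hl hn j)
    · intro h1
      left
      rw [← code_low (hl n hn) j]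
      exact mem_LS.2 h1
  have out : ∀ w, Ov (Finset.range (i : ℕ)) w → w ∉ LS U → ∀ j, word false [] [(i : ℕ)] w j ∈
      ({w : List ℕ | w ∈ LS S ∨ w ∈ KK (i : ℕ) U} : Language ℕ) := by
    intro w hw hw' j
    rw [word_eq]
    right
    exact mem_KK.2 ⟨w, hw, hw', j, rfl⟩
  obtain ⟨m, hm⟩ := (FinalAux.uniform hF hA false [] [(i : ℕ)] (Finset.range (i : ℕ)) (by
    refine Filter.Eventually.of_forall fun j => ?_
    have h1 : Rec (U ∩ {n | n ∈ U ∧ Function.update n i j ∈ S}ᶜ) := rec_inter hU (rec_compl (hr j))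
    have h2 := (rec_rat h1).1
    have e : ({u : List ℕ | (∀ a ∈ u, a ∈ Finset.range (i : ℕ)) ∧ word false [] [(i : ℕ)] u j ∉
        ({w : List ℕ | w ∈ LS S ∨ w ∈ KK (i : ℕ) U} : Language ℕ)} : Language ℕ) =
        LS (U ∩ {n | n ∈ U ∧ Function.update n i j ∈ S}ᶜ) := by
      ext w
      constructor
      · rintro ⟨h3, h4⟩
        by_cases h5 : w ∈ LS U
        · obtain ⟨n, hn, rfl⟩ := h5
          refine ⟨n, ⟨hn, fun h6 => h4 ((key n hn j).2 h6.2)⟩, rfl⟩
        · exact absurd (out w h3 h5 j) h4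
      · rintro ⟨n, ⟨hn, hn'⟩, rfl⟩
        exact ⟨code_ov (hl n hn), fun h6 => hn' ⟨hn, (key n hn j).1 h6⟩⟩
    rw [← e] at h2
    exact h2) (by
    intro w hw
    by_cases h5 : w ∈ LS U
    · obtain ⟨n, hn, rfl⟩ := h5
      obtain ⟨M, hM⟩ := h n hn
      exact Filter.eventually_atTop.2 ⟨M, fun m hm => (key n hn m).2 (hM m hm)⟩
    · exact Filter.Eventually.of_forall fun j => out w hw h5 j)).exists
  exact ⟨m, fun u hu => (key u hu m).1 (hm (code u) (code_ov (hl u hu)))⟩

end Pool.Agent.Lib.BCC
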