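import Pool.Agent.Lib.BCC.Defs

/-!
# Module BCC.Mem2: BR2 is a transduction of LR2 (MP_f1c4ef_lc)

PROOF of `br2_mem` (as `br_mem` in F1c4.Mem, encoding `4 * a + i`): `nivat` with `K` = all words `[x]_0 C [p]_1 D [u]_2 B [s]_3`, `x` over `Δ`, `p` over `insert b Γ`, empty or ending with `b`, `u` over `Γ`, `s` over `insert b Γ` (`[.]_i` = encoded with index `i`, and `C = 4 * c`, `D = 4 * c + 2`,
`B = 4 * c + 1`; regular by `cat_reg`, `star_reg`, `last_reg`). `φ` keeps the letters of index 0 and 2, sends `[b]_1` to `b`, the other letters of index 1, `C`, `D`, `B` and the letters of index 3 to the empty word; `h` decodes (`C ↦ c`, `D ↦ []`, `B ↦ b`). The image of the word is in `LR2`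
iff `x ++ b^(p.count b) ++ u ∈ LR2` iff `x ∈ X` and `u ∉ R x (p.count b)` (`H` : the decomposition `x b^j u` of a word is unique, since `b` is neither in `Δ` nor in `Γ` and these are disjoint, `H.dis`).
-/

set_option autoImplicit false

namespace Pool.Agent.Lib.BCC

open Pool.Agent.Lib.F1c4

namespace Mem2Aux

/-- the letter code of `br2_mem` -/
def ph (b c n : ℕ) : List ℕ :=
  if n / 4 = c then [] else if n % 4 = 0 then [n / 4] else if n % 4 = 2 then [n / 4]
    else if n = 4 * b + 1 then [b] else []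

/-- the decoding -/
def hh (b c n : ℕ) : List ℕ :=
  if n = 4 * c + 1 then [b] else if n = 4 * c + 2 then [] else [n / 4]

theorem not_img {S : Finset ℕ} {i c : ℕ} (_hi : i < 4) (h : c ∉ S) :
    4 * c + i ∉ S.image (fun a => 4 * a + i) := by
  intro hc
  obtain ⟨a, ha, hac⟩ := Finset.mem_image.1 hc
  have : a = c := by omega
  exact h (this ▸ ha)

/-- the codes of the words over `Γ` which are empty or end with `b` -/
def Cl1 (Γ : Finset ℕ) (b : ℕ) : Language ℕ :=
  {w : List ℕ | w ∈ MemAux.Cd Γ 1 ∧ (w = [] ∨ ∃ w', w = w' ++ [4 * b + 1])}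

theorem Cl1_al (Γ : Finset ℕ) (b : ℕ) : MemAux.Al (Γ.image (fun a => 4 * a + 1)) (Cl1 Γ b) :=
  fun _ hw => hw.1

theorem Cl1_reg (Γ : Finset ℕ) (b : ℕ) : (Cl1 Γ b).IsRegular :=
  (MemAux.Cd_reg Γ 1).inf (last_reg (4 * b + 1))

theorem cnt {b c : ℕ} (p : List ℕ) (hp : ∀ a ∈ p, a ≠ c) :
    (p.map (fun a => 4 * a + 1)).flatMap (ph b c) = List.replicate (p.count b) b := by
  induction p with
  | nil => rfl
  | cons a p ih =>
    rw [List.map_cons, List.flatMap_cons, ih (fun d hd => hp d (List.mem_cons_of_mem _ hd))]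
    have hac : a ≠ c := hp a List.mem_cons_self
    have e1 : ¬ (4 * a + 1) / 4 = c := by omega
    have e2 : ¬ (4 * a + 1) % 4 = 0 := by omega
    have e3 : ¬ (4 * a + 1) % 4 = 2 := by omega
    by_cases hab : a = b
    · subst hab
      rw [List.count_cons_self, List.replicate_succ]
      unfold ph
      rw [if_neg e1, if_neg e2, if_neg e3, if_pos rfl]
      rfl
    · rw [List.count_cons_of_ne hab]
      have e4 : ¬ 4 * a + 1 = 4 * b + 1 := by omega
      unfold ph
      rw [if_neg e1, if_neg e2, if_neg e3, if_neg e4]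
      rfl

theorem ph0 {b c : ℕ} (x : List ℕ) (hx : ∀ a ∈ x, a ≠ c) :
    (x.map (fun a => 4 * a + 0)).flatMap (ph b c) = x := by
  rw [MemAux.flat_single (ph b c) (fun a => [a]) (fun a => 4 * a + 0) x ?_, MemAux.flat_id]
  intro a ha
  have hac : a ≠ c := hx a ha
  have e1 : ¬ (4 * a + 0) / 4 = c := by omega
  have e2 : (4 * a + 0) % 4 = 0 := by omega
  have e3 : (4 * a + 0) / 4 = a := by omega
  unfold ph
  rw [if_neg e1, if_pos e2, e3]

theorem ph2 {b c : ℕ} (x : List ℕ) (hx : ∀ a ∈ x, a ≠ c) :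
    (x.map (fun a => 4 * a + 2)).flatMap (ph b c) = x := by
  rw [MemAux.flat_single (ph b c) (fun a => [a]) (fun a => 4 * a + 2) x ?_, MemAux.flat_id]
  intro a ha
  have hac : a ≠ c := hx a ha
  have e1 : ¬ (4 * a + 2) / 4 = c := by omega
  have e2 : ¬ (4 * a + 2) % 4 = 0 := by omega
  have e4 : (4 * a + 2) % 4 = 2 := by omega
  have e3 : (4 * a + 2) / 4 = a := by omega
  unfold ph
  rw [if_neg e1, if_neg e2, if_pos e4, e3]

theorem ph3 {b c : ℕ} (x : List ℕ) :
    (x.map (fun a => 4 * a + 3)).flatMap (ph b c) = [] := by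
  rw [MemAux.flat_single (ph b c) (fun _ => []) (fun a => 4 * a + 3) x ?_, MemAux.flat_nil]
  intro a _
  have e2 : ¬ (4 * a + 3) % 4 = 0 := by omega
  have e4 : ¬ (4 * a + 3) % 4 = 2 := by omega
  have e5 : ¬ 4 * a + 3 = 4 * b + 1 := by omega
  unfold ph
  by_cases e1 : (4 * a + 3) / 4 = c
  · rw [if_pos e1]
  · rw [if_neg e1, if_neg e2, if_neg e4, if_neg e5]

theorem ph_c {b c i : ℕ} (hi : i < 4) : ph b c (4 * c + i) = [] := by
  have e1 : (4 * c + i) / 4 = c := by omega
  unfold ph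
  rw [if_pos e1]

theorem hh_one {b c i : ℕ} (hi : i < 4) (x : List ℕ) (hx : ∀ a ∈ x, a ≠ c) :
    (x.map (fun a => 4 * a + i)).flatMap (hh b c) = x := by
  rw [MemAux.flat_single (hh b c) (fun a => [a]) (fun a => 4 * a + i) x ?_, MemAux.flat_id]
  intro a ha
  have hac : a ≠ c := hx a ha
  have e1 : ¬ 4 * a + i = 4 * c + 1 := by omega
  have e2 : ¬ 4 * a + i = 4 * c + 2 := by omega
  have e3 : (4 * a + i) / 4 = a := by omega
  unfold hh
  rw [if_neg e1, if_neg e2, e3]

/-- the coded word -/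
def cw (c : ℕ) (x p u s : List ℕ) : List ℕ :=
  x.map (fun a => 4 * a + 0) ++ [4 * c + 0] ++ p.map (fun a => 4 * a + 1) ++ [4 * c + 2] ++
    u.map (fun a => 4 * a + 2) ++ [4 * c + 1] ++ s.map (fun a => 4 * a + 3)

theorem cw_ph {b c : ℕ} (x p u s : List ℕ) (hx : ∀ a ∈ x, a ≠ c) (hp : ∀ a ∈ p, a ≠ c)
    (hu : ∀ a ∈ u, a ≠ c) :
    (cw c x p u s).flatMap (ph b c) = x ++ List.replicate (p.count b) b ++ u := by
  unfold cw
  rw [List.flatMap_append, List.flatMap_append, List.flatMap_append, List.flatMap_append,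
    List.flatMap_append, List.flatMap_append, ph0 x hx, cnt p hp, ph2 u hu, ph3 s,
    List.flatMap_singleton, List.flatMap_singleton, List.flatMap_singleton,
    ph_c (by omega), ph_c (by omega), ph_c (by omega)]
  simp

theorem cw_hh {b c : ℕ} (x p u s : List ℕ) (hx : ∀ a ∈ x, a ≠ c) (hp : ∀ a ∈ p, a ≠ c)
    (hu : ∀ a ∈ u, a ≠ c) (hs : ∀ a ∈ s, a ≠ c) :
    (cw c x p u s).flatMap (hh b c) = x ++ [c] ++ p ++ u ++ [b] ++ s := by
  unfold cw
  rw [List.flatMap_append, List.flatMap_append, List.flatMap_append, List.flatMap_append,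
    List.flatMap_append, List.flatMap_append, hh_one (by omega) x hx, hh_one (by omega) p hp,
    hh_one (by omega) u hu, hh_one (by omega) s hs,
    List.flatMap_singleton, List.flatMap_singleton, List.flatMap_singleton]
  have e1 : hh b c (4 * c + 0) = [c] := by
    unfold hh
    rw [if_neg (by omega), if_neg (by omega)]
    have : (4 * c + 0) / 4 = c := by omega
    rw [this]
  have e2 : hh b c (4 * c + 1) = [b] := by
    unfold hh
    rw [if_pos rfl]
  have e3 : hh b c (4 * c + 2) = [] := by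
    unfold hh
    rw [if_neg (by omega), if_pos rfl]
  rw [e1, e2, e3]
  simp

theorem split {Δ : Finset ℕ} {x x' y y' : List ℕ} (hx : Ov Δ x) (hx' : Ov Δ x')
    (hy : ∀ a ∈ y, a ∉ Δ) (hy' : ∀ a ∈ y', a ∉ Δ) (h : x ++ y = x' ++ y') :
    x = x' ∧ y = y' := by
  induction x generalizing x' with
  | nil =>
    cases x' with
    | nil => exact ⟨rfl, h⟩
    | cons a x' =>
      rw [List.nil_append] at h
      exact absurd (hx' a List.mem_cons_self) (hy a (by rw [h]; simp))
  | cons a x ih =>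
    cases x' with
    | nil =>
      rw [List.nil_append] at h
      exact absurd (hx a List.mem_cons_self) (hy' a (by rw [← h]; simp))
    | cons a' x' =>
      rw [List.cons_append, List.cons_append, List.cons.injEq] at h
      obtain ⟨h1, h2⟩ := ih (fun d hd => hx d (List.mem_cons_of_mem _ hd))
        (fun d hd => hx' d (List.mem_cons_of_mem _ hd)) h.2
      exact ⟨by rw [h.1, h1], h2⟩

theorem cnt_zero {S : Finset ℕ} {b : ℕ} (hb : b ∉ S) {x : List ℕ} (hx : Ov S x) :
    x.count b = 0 :=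
  List.count_eq_zero.2 (fun h => hb (hx b h))

end Mem2Aux

theorem br2_mem {F : Set (Language ℕ)} (hF : IsCone F) {Δ Γ : Finset ℕ} {b c : ℕ} {X : Language ℕ}
    {R : List ℕ → ℕ → Language ℕ} (H : Hyp2 Δ Γ b c X R) (h : LR2 Γ b X R ∈ F) :
    BR2 Γ b c X R ∈ F := by
  have cI : c ∉ insert b Γ := by
    rw [Finset.mem_insert]
    rintro (h1 | h1)
    · exact H.cb h1
    · exact H.cG h1
  have neI : ∀ p : List ℕ, Ov (insert b Γ) p → ∀ a ∈ p, a ≠ c := by
    intro p hp a ha hac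
    exact cI (hac ▸ hp a ha)
  have neG : ∀ p : List ℕ, Ov Γ p → ∀ a ∈ p, a ≠ c := by
    intro p hp a ha hac
    exact H.cG (hac ▸ hp a ha)
  have neD : ∀ p : List ℕ, Ov Δ p → ∀ a ∈ p, a ≠ c := by
    intro p hp a ha hac
    exact H.cD (hac ▸ hp a ha)
  have a0 := MemAux.Cd_al Δ 0
  have r1 : (MemAux.KB (4 * c + 0) (MemAux.Cd Δ 0) (Mem2Aux.Cl1 (insert b Γ) b)).IsRegular :=
    MemAux.KB_reg (MemAux.Cd_reg Δ 0) (Mem2Aux.Cl1_reg (insert b Γ) b) a0
      (Mem2Aux.not_img (by omega) H.cD)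
  have a1 := MemAux.KB_al (c := 4 * c + 0) a0 (Mem2Aux.Cl1_al (insert b Γ) b)
  have n2 : 4 * c + 2 ∉ insert (4 * c + 0) (Δ.image (fun a => 4 * a + 0) ∪
      (insert b Γ).image (fun a => 4 * a + 1)) := by
    rw [Finset.mem_insert, Finset.mem_union]
    rintro (h1 | h1 | h1)
    · omega
    · exact MemAux.image_not (by omega) h1
    · exact MemAux.image_not (by omega) h1
  have r2 := MemAux.KB_reg r1 (MemAux.Cd_reg Γ 2) a1 n2
  have a2 := MemAux.KB_al (c := 4 * c + 2) a1 (MemAux.Cd_al Γ 2)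
  have n3 : 4 * c + 1 ∉ insert (4 * c + 2) (insert (4 * c + 0) (Δ.image (fun a => 4 * a + 0) ∪
      (insert b Γ).image (fun a => 4 * a + 1)) ∪ Γ.image (fun a => 4 * a + 2)) := by
    rw [Finset.mem_insert, Finset.mem_union, Finset.mem_insert, Finset.mem_union]
    rintro (h1 | (h1 | h1 | h1) | h1)
    · omega
    · omega
    · exact MemAux.image_not (by omega) h1
    · exact Mem2Aux.not_img (by omega) cI h1
    · exact MemAux.image_not (by omega) h1
  have r3 := MemAux.KB_reg r2 (MemAux.Cd_reg (insert b Γ) 3) a2 n3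
  have a3 := MemAux.KB_al (c := 4 * c + 1) a2 (MemAux.Cd_al (insert b Γ) 3)
  have h1 := nivat hF h ⟨r3, _, a3⟩ (Mem2Aux.ph b c) (Mem2Aux.hh b c)
  have h2 : BR2 Γ b c X R = ({w : List ℕ | ∃ t ∈ MemAux.KB (4 * c + 1) (MemAux.KB (4 * c + 2)
        (MemAux.KB (4 * c + 0) (MemAux.Cd Δ 0) (Mem2Aux.Cl1 (insert b Γ) b)) (MemAux.Cd Γ 2))
        (MemAux.Cd (insert b Γ) 3),
        t.flatMap (Mem2Aux.ph b c) ∈ LR2 Γ b X R ∧ w = t.flatMap (Mem2Aux.hh b c)} :
          Language ℕ) := by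
    ext w
    constructor
    · rintro ⟨x, hx, p, u, s, hp, hpo, hu, hs, huR, rfl⟩
      have hxo : Ov Δ x := H.ovX x hx
      refine ⟨Mem2Aux.cw c x p u s, ⟨_, ⟨_, ⟨x.map (fun a => 4 * a + 0), MemAux.enc 0 hxo,
        p.map (fun a => 4 * a + 1), ?_, rfl⟩, u.map (fun a => 4 * a + 2), MemAux.enc 2 hu, rfl⟩,
        s.map (fun a => 4 * a + 3), MemAux.enc 3 hs, ?_⟩, ?_,
        (Mem2Aux.cw_hh x p u s (neD x hxo) (neI p hpo) (neG u hu) (neI s hs)).symm⟩
      · refine ⟨MemAux.enc 1 hpo, ?_⟩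
        rcases hp with rfl | ⟨p', rfl⟩
        · exact Or.inl rfl
        · refine Or.inr ⟨p'.map (fun a => 4 * a + 1), ?_⟩
          rw [List.map_append]
          rfl
      · unfold Mem2Aux.cw
        simp only [List.append_assoc]
      · rw [Mem2Aux.cw_ph x p u s (neD x hxo) (neI p hpo) (neG u hu)]
        exact ⟨x, hx, p.count b, u, hu, huR, rfl⟩
    · rintro ⟨t, ⟨t1, ⟨t2, ⟨t3, ht3, t4, ⟨ht4, hve⟩, rfl⟩, t5, ht5, rfl⟩, t6, ht6, rfl⟩, h3, rfl⟩
      obtain ⟨x, hx, rfl⟩ := MemAux.dec (by omega) ht3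
      obtain ⟨p, hp, rfl⟩ := MemAux.dec (by omega) ht4
      obtain ⟨u, hu, rfl⟩ := MemAux.dec (by omega) ht5
      obtain ⟨s, hs, rfl⟩ := MemAux.dec (by omega) ht6
      have e : x.map (fun a => 4 * a + 0) ++ [4 * c + 0] ++ p.map (fun a => 4 * a + 1) ++
          [4 * c + 2] ++ u.map (fun a => 4 * a + 2) ++ [4 * c + 1] ++ s.map (fun a => 4 * a + 3) =
          Mem2Aux.cw c x p u s := rfl
      rw [e] at h3 ⊢
      rw [Mem2Aux.cw_ph x p u s (neD x hx) (neI p hp) (neG u hu)] at h3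
      rw [Mem2Aux.cw_hh x p u s (neD x hx) (neI p hp) (neG u hu) (neI s hs)]
      obtain ⟨x', hx', j, u', hu', huR', h5⟩ := h3
      have hxo' : Ov Δ x' := H.ovX x' hx'
      have h6 := congrArg (fun w => List.count b w) h5
      simp only [List.count_append, List.count_replicate_self] at h6
      rw [Mem2Aux.cnt_zero H.bD hx, Mem2Aux.cnt_zero H.bG hu, Mem2Aux.cnt_zero H.bD hxo',
        Mem2Aux.cnt_zero H.bG hu'] at h6
      have h7 : p.count b = j := by omega
      have hnd : ∀ v : List ℕ, Ov Γ v → ∀ a ∈ List.replicate j b ++ v, a ∉ Δ := by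
        intro v hv a ha haD
        rcases List.mem_append.1 ha with h8 | h8
        · rw [(List.mem_replicate.1 h8).2] at haD
          exact H.bD haD
        · exact Finset.disjoint_left.1 H.dis haD (hv a h8)
      rw [h7, List.append_assoc, List.append_assoc] at h5
      obtain ⟨h9, h10⟩ := Mem2Aux.split hx hxo' (hnd u hu) (hnd u' hu') h5
      have h11 : u = u' := List.append_cancel_left h10
      subst h9
      subst h11
      refine ⟨x, hx', p, u, s, ?_, hp, hu, hs, ?_, rfl⟩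
      · rcases hve with h4 | ⟨w', h4⟩
        · exact Or.inl (List.map_eq_nil_iff.1 h4)
        · obtain ⟨p1, p2, h5, h6, h7⟩ := List.map_eq_append_iff.1 h4
          obtain ⟨d, h8, h9⟩ := List.map_eq_singleton_iff.1 h7
          refine Or.inr ⟨p1, ?_⟩
          have h10 : d = b := by omega
          rw [h5, h8, h10]
      · rw [h7]
        exact huR'
  rw [h2]
  exact h1

end Pool.Agent.Lib.BCC
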