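import Pool.Agent.Lib.BCC.Defs

/-!
# Module BCC.NonReg2: BR2 is not regular (MP_f1c4ef_lc)

PROOF (as F1c4.NonReg; `NonRegAux.P`, `P_end`, `P_count`, `key` can be reused). Let `M` be an automaton of `BR2` with a finite set of states, `m` = number of states + 2, and `x ∈ X`, `u l ∈ R x l` for all `l < m` (`H.ne m`; for `l ≥ m` put `u l = []`). Let
`P t = u 0 b u 1 b ... u (t-1) b` and `W t = x ++ [c] ++ P t`. For `t ≤ m` the word `W t` is not in `BR2`: the decomposition `x' c p u' b s` of `W t` has `x' = x` (`c` is not in `x, x'`) and `u' = u (p.count b)`, `p.count b < t`. By the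
pigeonhole principle `M.eval (W i) = M.eval (W i')` for some `i < i' < m`. With `Q = u i b ... u (i'-1) b` the words `W i ++ Q^n ++ u i' ++ [b]` lead for all `n` to the state of `W (i' + 1)`, so they are not in `BR2`. With `p = P i ++ Q^n`
(empty or ending with `b`, `i + n (i' - i)` letters `b`) this means `u i' ∈ R x (i + n (i' - i))` for all `n`, against `H.fin (u i')`.
-/

set_option autoImplicit false

namespace Pool.Agent.Lib.BCC

open Pool.Agent.Lib.F1c4

namespace NonReg2Aux

open Pool.Agent.Lib.F1c4.NonRegAux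

theorem cancel {c : ℕ} {x x' r r' : List ℕ} (hx : c ∉ x) (hx' : c ∉ x')
    (h : x ++ ([c] ++ r) = x' ++ ([c] ++ r')) : x = x' ∧ r = r' := by
  rcases List.append_eq_append_iff.mp h with ⟨a, h1, h2⟩ | ⟨a, h1, h2⟩
  · cases a with
    | nil =>
      rw [List.append_nil] at h1
      refine ⟨h1.symm, ?_⟩
      simpa using h2
    | cons d a =>
      exfalso
      have h3 : c = d := by
        have := congrArg List.head? h2
        simpa using this
      subst h3
      exact hx' (by rw [h1]; simp)
  · cases a with
    | nil =>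
      rw [List.append_nil] at h1
      refine ⟨h1, ?_⟩
      have : r' = r := by simpa using h2
      exact this.symm
    | cons d a =>
      exfalso
      have h3 : c = d := by
        have := congrArg List.head? h2
        simpa using this
      subst h3
      exact hx (by rw [h1]; simp)

end NonReg2Aux

open NonReg2Aux Pool.Agent.Lib.F1c4.NonRegAux in
theorem br2_nonreg {Δ Γ : Finset ℕ} {b c : ℕ} {X : Language ℕ} {R : List ℕ → ℕ → Language ℕ}
    (H : Hyp2 Δ Γ b c X R) : ¬ (BR2 Γ b c X R).IsRegular := by
  rintro ⟨σ, _, M, hM⟩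
  obtain ⟨x, hx, u0, hu0⟩ := H.ne (Fintype.card σ + 2)
  set m : ℕ := Fintype.card σ + 2 with hm
  set u : ℕ → List ℕ := fun l => if l < m then u0 l else [] with hudef
  have hu : ∀ l, l < m → u l ∈ R x l := by
    intro l hl
    simp only [hudef, if_pos hl]
    exact hu0 l hl
  have hov : ∀ j, Ov Γ (u j) := by
    intro j
    by_cases hj : j < m
    · exact H.ovR x j _ (hu j hj)
    · intro a ha
      simp only [hudef, if_neg hj] at ha
      simp at ha
  have hub : ∀ j, b ∉ u j := fun j hj => H.bG (hov j b hj)
  have hcx : ∀ x' ∈ X, c ∉ x' := fun x' hx' hc => H.cD (H.ovX x' hx' c hc)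
  have nonmem : ∀ t, t ≤ m → x ++ [c] ++ P u b t ∉ BR2 Γ b c X R := by
    rintro t ht ⟨x', hx', p, v, s, hp, _, hv, _, hnot, hw⟩
    have hw' : x ++ ([c] ++ P u b t) = x' ++ ([c] ++ (p ++ v ++ [b] ++ s)) := by
      simpa [List.append_assoc] using hw
    obtain ⟨hxx, hP⟩ := cancel (hcx x hx) (hcx x' hx') hw'
    subst hxx
    have hk := key (R := fun j => ({w : List ℕ | j < m → w ∈ R x j} : Language ℕ)) H.bG hov
      (fun j hj => hu j hj) t p v s hP hp hv
    have hc : p.count b < m := by
      have h1 := P_count hub t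
      rw [hP, List.count_append, List.count_append, List.count_append,
        List.count_singleton_self] at h1
      omega
    exact hnot (hk hc)
  have hpig : ∃ i j : Fin (Fintype.card σ + 1), i ≠ j ∧
      M.eval (x ++ [c] ++ P u b i) = M.eval (x ++ [c] ++ P u b j) := by
    by_contra hcon
    push Not at hcon
    have hinj : Function.Injective
        (fun i : Fin (Fintype.card σ + 1) => M.eval (x ++ [c] ++ P u b i)) := by
      intro i j hij
      by_contra hne
      exact hcon i j hne hij
    have := Fintype.card_le_of_injective _ hinj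
    rw [Fintype.card_fin] at this
    omega
  have hex : ∃ i d : ℕ, 0 < d ∧ i + d + 1 ≤ m ∧
      M.eval (x ++ [c] ++ P u b i) = M.eval (x ++ [c] ++ P u b (i + d)) := by
    obtain ⟨i0, j0, hne, heq⟩ := hpig
    have hi := i0.2
    have hj := j0.2
    have hne' : (i0 : ℕ) ≠ j0 := fun h => hne (Fin.ext h)
    rcases lt_or_gt_of_ne hne' with h | h
    · exact ⟨i0, j0 - i0, by omega, by omega,
        by rw [show (i0 : ℕ) + (j0 - i0) = j0 by omega]; exact heq⟩
    · exact ⟨j0, i0 - j0, by omega, by omega,
        by rw [show (j0 : ℕ) + (i0 - j0) = i0 by omega]; exact heq.symm⟩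
  obtain ⟨i, d, hd, him, he⟩ := hex
  obtain ⟨Q, hQ⟩ := split (u := u) (b := b) i d
  have hQc : Q.count b = d := by
    have h1 := P_count hub (i + d)
    rw [hQ, List.count_append, P_count hub i] at h1
    omega
  have hQne : Q ≠ [] := by
    intro h0
    rw [h0] at hQc
    simp at hQc
    omega
  have hQend : ∃ Q', Q = Q' ++ [b] := by
    rcases P_end u b (i + d) with h8 | ⟨p', h8⟩
    · rw [h8] at hQ
      exact absurd (List.append_eq_nil_iff.mp hQ.symm).2 hQne
    · exact suf_end (x := P u b i) (c := Q) (y := p') (b := b) (hQ.symm.trans h8) hQne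
  obtain ⟨Q', hQ'⟩ := hQend
  have hQov : Ov (insert b Γ) Q := by
    intro a ha
    refine P_ov (b := b) hov (i + d) a ?_
    rw [hQ]
    exact List.mem_append_right _ ha
  have hloop : M.evalFrom (M.eval (x ++ [c] ++ P u b i)) Q = M.eval (x ++ [c] ++ P u b i) := by
    have h1 : M.evalFrom (M.eval (x ++ [c] ++ P u b i)) Q = M.eval (x ++ [c] ++ P u b (i + d)) := by
      rw [hQ, ← List.append_assoc]
      exact (M.evalFrom_of_append M.start (x ++ [c] ++ P u b i) Q).symm
    rw [h1, ← he]
  have hall : ∀ n : ℕ, u (i + d) ∈ R x (i + n * d) := by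
    intro n
    by_contra hnot
    set p : List ℕ := P u b i ++ (List.replicate n Q).flatten with hp
    have hmem : x ++ [c] ++ p ++ u (i + d) ++ [b] ++ [] ∈ BR2 Γ b c X R := by
      refine ⟨x, hx, p, u (i + d), [], ?_, ?_, hov _, ?_, ?_, rfl⟩
      · rcases rep_end b Q Q' hQ' n with h1 | ⟨q, h1⟩
        · rw [hp, h1, List.append_nil]
          exact P_end u b i
        · right
          exact ⟨P u b i ++ q, by rw [hp, h1, List.append_assoc]⟩
      · intro a ha
        rw [hp] at ha
        rcases List.mem_append.mp ha with h1 | h1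
        · exact P_ov hov i a h1
        · exact rep_ov _ Q hQov n a h1
      · intro a ha; simp at ha
      · rw [hp, List.count_append, P_count hub, count_rep, hQc]
        exact hnot
    apply nonmem (i + d + 1) him
    rw [← hM] at hmem ⊢
    rw [DFA.mem_accepts] at hmem ⊢
    have e1 : M.eval (x ++ [c] ++ p ++ u (i + d) ++ [b] ++ []) =
        M.eval (x ++ [c] ++ P u b (i + d + 1)) := by
      have l1 : x ++ [c] ++ p ++ u (i + d) ++ [b] ++ [] =
          (x ++ [c] ++ P u b i) ++ ((List.replicate n Q).flatten ++ (u (i + d) ++ [b])) := by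
        simp [hp, List.append_assoc]
      have l2 : x ++ [c] ++ P u b (i + d + 1) =
          (x ++ [c] ++ P u b (i + d)) ++ (u (i + d) ++ [b]) := by
        show x ++ [c] ++ (P u b (i + d) ++ (u (i + d) ++ [b])) = _
        simp [List.append_assoc]
      rw [l1, l2]
      unfold DFA.eval at he hloop ⊢
      rw [M.evalFrom_of_append M.start (x ++ [c] ++ P u b i), M.evalFrom_of_append,
        eval_rep M _ Q hloop n, M.evalFrom_of_append M.start (x ++ [c] ++ P u b (i + d)), he]
    rw [← e1]
    exact hmem
  obtain ⟨B, hB⟩ := H.fin (u (i + d))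
  exact hB x hx (i + B * d) (by nlinarith) (hall B)

end Pool.Agent.Lib.BCC
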