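import Pool.Agent.Lib.BCC.Main2
import Pool.Agent.Lib.BCC.NonReg2
import Pool.Agent.Lib.BCC.Mem2

/-!
# Module BCC.Final2: no minimal cone contains LR2 (MP_f1c4ef_lc)

PROOF: as `FinalAux.no_both` in F1c4.Final with `BR2` in place of `BR` (`br2_mem`, `br2_nonreg`, `not_mem2`). `BR2` is over a finite alphabet (`Δ`, `Γ`, `b`, `c`) and not empty (it is not regular).
-/

set_option autoImplicit false

namespace Pool.Agent.Lib.BCC

open Pool.Agent.Lib.F1c4

namespace Final2Aux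

theorem br2_ne {Δ Γ : Finset ℕ} {b c : ℕ} {X : Language ℕ} {R : List ℕ → ℕ → Language ℕ}
    (H : Hyp2 Δ Γ b c X R) : ∃ w, w ∈ BR2 Γ b c X R := by
  obtain ⟨x, hx, -⟩ := H.ne 0
  obtain ⟨M, hM⟩ := H.fin []
  refine ⟨x ++ [c] ++ List.replicate M b ++ [] ++ [b] ++ [], x, hx, List.replicate M b, [], [],
    ?_, ?_, ?_, ?_, ?_, rfl⟩
  · cases M with
    | zero => exact Or.inl rfl
    | succ M => exact Or.inr ⟨List.replicate M b, List.replicate_succ'⟩
  · intro a ha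
    rw [List.eq_of_mem_replicate ha]
    exact Finset.mem_insert_self _ _
  · exact fun a ha => absurd ha List.not_mem_nil
  · exact fun a ha => absurd ha List.not_mem_nil
  · rw [List.count_replicate_self]
    exact hM x hx M (le_refl _)

theorem br2_alph {Δ Γ : Finset ℕ} {b c : ℕ} {X : Language ℕ} {R : List ℕ → ℕ → Language ℕ}
    (H : Hyp2 Δ Γ b c X R) : ∃ S : Finset ℕ, ∀ w ∈ BR2 Γ b c X R, ∀ a ∈ w, a ∈ S := by
  refine ⟨Δ ∪ insert c (insert b Γ), ?_⟩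
  rintro w ⟨x, hx, p, u, s, -, hp, hu, hs, -, rfl⟩ a ha
  simp only [List.mem_append, List.mem_singleton] at ha
  rw [Finset.mem_union, Finset.mem_insert]
  rcases ha with ((((ha | ha) | ha) | ha) | ha) | ha
  · exact Or.inl (H.ovX x hx a ha)
  · exact Or.inr (Or.inl ha)
  · exact Or.inr (Or.inr (hp a ha))
  · exact Or.inr (Or.inr (Finset.mem_insert_of_mem (hu a ha)))
  · exact Or.inr (Or.inr (ha ▸ Finset.mem_insert_self _ _))
  · exact Or.inr (Or.inr (hs a ha))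

end Final2Aux

theorem no_lr2 {F : Set (Language ℕ)} (hF : IsMinimal F) {Δ Γ : Finset ℕ} {b c : ℕ}
    {X : Language ℕ} {R : List ℕ → ℕ → Language ℕ} (H : Hyp2 Δ Γ b c X R)
    (h : LR2 Γ b X R ∈ F) : False := by
  have h2 : BR2 Γ b c X R ∈ F := br2_mem hF.1 H h
  have hne : ∃ w, w ∈ BR2 Γ b c X R := Final2Aux.br2_ne H
  have hal : ∃ S : Finset ℕ, ∀ w ∈ BR2 Γ b c X R, ∀ a ∈ w, a ∈ S := Final2Aux.br2_alph H
  have hc : IsCone (FinalAux.LC (BR2 Γ b c X R)) := FinalAux.lc_cone hF.1 h2 hne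
  have hBM : BR2 Γ b c X R ∈ FinalAux.LC (BR2 Γ b c X R) := fun _ _ h => h
  have hr : {L | Rat L} ⊂ FinalAux.LC (BR2 Γ b c X R) := by
    refine ⟨fun K hK => rat_mem hc hK, fun hsub => ?_⟩
    exact br2_nonreg H (hsub hBM).1
  have hMF : FinalAux.LC (BR2 Γ b c X R) ⊆ F := fun A hA => hA F hF.1 h2
  have hFM : F ⊆ FinalAux.LC (BR2 Γ b c X R) := by
    by_contra hn
    exact hF.2.2 _ hc hr ⟨hMF, hn⟩
  exact not_mem2 H (hFM h _ (FinalAux.tc_cone hal hne) (tc_self hal))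

end Pool.Agent.Lib.BCC
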