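import Pool.Agent.Lib.BCC.Code
import Pool.Agent.Lib.BCC.RegOf
import Pool.Agent.Lib.BCC.OfReg
import Pool.Agent.Lib.BCC.RecOps
import Pool.Agent.Lib.BCC.Final2
import Pool.Agent.Lib.BCC.CatReg
import Pool.Agent.Lib.BCC.Uni2

/-!
# Module BCC.FamTwo: the two-sided principle for sets of vectors (MP_f1c4ef_lc)

PROOF. Suppose that for every `m` there are `u ∈ U`, `v ∈ V` with `update (u + v) i m ∉ S`. Let `Δ = Finset.range i`, `Γ = Finset.Ioo i k` (letters `> i`, `< k`), `b = i`, `c = k` (`H.dis`: letters `< i` and `> i`), `X = LS U`, and for `x`, `j`: `R x j` = all `code v`, `v ∈ V`, such that `x = code u` for some `u ∈ U` with `update (u + v) i j ∉ S`. Check `Hyp2`: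
`reg j`: the language in question consists of the words `code u ++ [k] ++ code v` with `u ∈ U`, `v ∈ V`, `update (u + v) i j ∉ S`; the set of the vectors `u + v` (uniquely determined `u`, `v`) is `Rec` (`rec_add`, complement of `hr`), so `L0 = LS` of it is regular by `rec_rat`, and `cat_mark_reg` applies (`code u ++ code v = code (u + v)`, `code_add`). `mono`: `x' = code u'` a sublist of `x = code u` gives `u' ≤ u` (`List.Sublist.count_le`); use `hmono`. `ne m`: for `l < m` choose `u_l`, `v_l` bad for `l`, `u = sup` of the `u_l`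
(`Ideal`), `x = code u`, and `mono`. `fin w`: if `w = code v`, `v ∈ V`, take `M` from `hM`; otherwise `w` is in no `R x j`.
`LR2 Γ b X R ∈ F`: it is the union of the language `LS (S ∩ {n | update n i 0 ∈ U + V})` (in `F` by intersection with `rec_rat`, `rec_rect`) and of the words `x i^j w` with `x ∈ LS U`, `w` over `Γ`, `w ∉ LS V`, which is rational (`union_mem`). Then `no_lr2` gives the contradiction.
Rationality of the words `x i^j w`: `cat_pow_reg` (CatReg). For `reg j` use `cat_mark_reg` (CatReg).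
-/

set_option autoImplicit false

namespace Pool.Agent.Lib.BCC.FamTwoAux

open Pool.Agent.Lib.F1c4

theorem filter_ov {Δ : Finset ℕ} {x : List ℕ} (h : Ov Δ x) :
    x.filter (fun a => decide (a ∈ Δ)) = x := by
  rw [List.filter_eq_self]
  intro a ha
  simpa using h a ha

theorem filter_dis {Δ Γ : Finset ℕ} (hd : Disjoint Δ Γ) {x : List ℕ} (h : Ov Γ x) :
    x.filter (fun a => decide (a ∈ Δ)) = [] := by
  rw [List.filter_eq_nil_iff]
  intro a ha h1
  have h2 : a ∈ Δ := by simpa using h1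
  exact Finset.disjoint_left.1 hd h2 (h a ha)

theorem split_uniq {Δ Γ : Finset ℕ} (hd : Disjoint Δ Γ) {x x' w w' : List ℕ} (hx : Ov Δ x)
    (hx' : Ov Δ x') (hw : Ov Γ w) (hw' : Ov Γ w') (h : x ++ w = x' ++ w') : x = x' ∧ w = w' := by
  have h1 : (x ++ w).filter (fun a => decide (a ∈ Δ)) =
      (x' ++ w').filter (fun a => decide (a ∈ Δ)) := by rw [h]
  rw [List.filter_append, List.filter_append, filter_ov hx, filter_ov hx', filter_dis hd hw,
    filter_dis hd hw', List.append_nil, List.append_nil] at h1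
  subst h1
  exact ⟨rfl, List.append_cancel_left h⟩

/-- the letters below `i` -/
def Dl {k : ℕ} (i : Fin k) : Finset ℕ := Finset.range (i : ℕ)

/-- the letters above `i` -/
def Gm {k : ℕ} (i : Fin k) : Finset ℕ := Finset.Ioo (i : ℕ) k

/-- the sets `R x j` -/
def RR {k : ℕ} (S : Set (Fin k → ℕ)) (i : Fin k) (U V : Set (Fin k → ℕ)) (x : List ℕ) (j : ℕ) :
    Language ℕ :=
  {w : List ℕ | ∃ v ∈ V, ∃ u ∈ U, w = code v ∧ x = code u ∧ Function.update (u + v) i j ∉ S}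

theorem ov_low {k : ℕ} {i : Fin k} {U : Set (Fin k → ℕ)} (hl : Low i U) {u : Fin k → ℕ}
    (hu : u ∈ U) : Ov (Dl i) (code u) := by
  intro a ha
  obtain ⟨l, hl1, hl2⟩ := mem_code.1 ha
  have h1 : ¬ i ≤ l := fun h => hl2 (hl u hu l h)
  have h2 : (l : ℕ) < (i : ℕ) := Fin.lt_def.1 (not_le.1 h1)
  rw [← hl1]
  exact Finset.mem_range.2 h2

theorem ov_high {k : ℕ} {i : Fin k} {V : Set (Fin k → ℕ)} (hh : High i V) {v : Fin k → ℕ}
    (hv : v ∈ V) : Ov (Gm i) (code v) := by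
  intro a ha
  obtain ⟨l, hl1, hl2⟩ := mem_code.1 ha
  have h1 : ¬ l ≤ i := fun h => hl2 (hh v hv l h)
  have h2 : (i : ℕ) < (l : ℕ) := Fin.lt_def.1 (not_le.1 h1)
  rw [← hl1]
  exact Finset.mem_Ioo.2 ⟨h2, l.2⟩

theorem dis {k : ℕ} (i : Fin k) : Disjoint (Dl i) (Gm i) := by
  rw [Finset.disjoint_left]
  intro a h1 h2
  have h3 := Finset.mem_range.1 h1
  have h4 := (Finset.mem_Ioo.1 h2).1
  omega

theorem i_Dl {k : ℕ} (i : Fin k) : (i : ℕ) ∉ Dl i := fun h => lt_irrefl _ (Finset.mem_range.1 h)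

theorem i_Gm {k : ℕ} (i : Fin k) : (i : ℕ) ∉ Gm i := fun h => lt_irrefl _ (Finset.mem_Ioo.1 h).1

theorem k_Dl {k : ℕ} (i : Fin k) : k ∉ Dl i := fun h =>
  lt_irrefl _ ((Finset.mem_range.1 h).trans i.2)

theorem k_Gm {k : ℕ} (i : Fin k) : k ∉ Gm i := fun h => lt_irrefl _ (Finset.mem_Ioo.1 h).2

theorem code_uv {k : ℕ} {i : Fin k} {U V : Set (Fin k → ℕ)} (hl : Low i U) (hh : High i V)
    {u v : Fin k → ℕ} (hu : u ∈ U) (hv : v ∈ V) : code (u + v) = code u ++ code v := by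
  refine code_add ?_
  intro a b ha hb
  have h1 : ¬ i ≤ a := fun h => ha (hl u hu a h)
  have h2 : ¬ b ≤ i := fun h => hb (hh v hv b h)
  exact ((not_le.1 h1).trans (not_le.1 h2)).le

theorem zero_i {k : ℕ} {i : Fin k} {U V : Set (Fin k → ℕ)} (hl : Low i U) (hh : High i V)
    {u v : Fin k → ℕ} (hu : u ∈ U) (hv : v ∈ V) : (u + v) i = 0 := by
  have h1 := hl u hu i le_rfl
  have h2 := hh v hv i le_rfl
  simp [h1, h2]

theorem sup_exists {k : ℕ} {U : Set (Fin k → ℕ)} (hI : Ideal U) (f : ℕ → Fin k → ℕ)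
    (hf : ∀ l, f l ∈ U) (m : ℕ) : ∃ u ∈ U, ∀ l < m, f l ≤ u := by
  induction m with
  | zero => exact ⟨f 0, hf 0, fun l hl => absurd hl (Nat.not_lt_zero l)⟩
  | succ m ih =>
    obtain ⟨u, hu, h⟩ := ih
    refine ⟨u ⊔ f m, hI.2 u hu (f m) (hf m), ?_⟩
    intro l hl
    rcases Nat.lt_succ_iff_lt_or_eq.1 hl with h1 | h1
    · exact (h l h1).trans le_sup_left
    · rw [h1]
      exact le_sup_right

theorem hyp {k : ℕ} {S : Set (Fin k → ℕ)} (i : Fin k) (U V : Set (Fin k → ℕ)) (hU : Rec U)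
    (hV : Rec V) (hl : Low i U) (hh : High i V) (hI : Ideal U)
    (hmono : ∀ u ∈ U, ∀ u', u' ≤ u → ∀ v ∈ V, ∀ m, Function.update (u + v) i m ∈ S →
      Function.update (u' + v) i m ∈ S)
    (hr : ∀ m : ℕ, Rec {n | ∃ u ∈ U, ∃ v ∈ V, n = u + v ∧ Function.update n i m ∈ S})
    (hM : ∀ v ∈ V, ∃ M, ∀ u ∈ U, ∀ m, M ≤ m → Function.update (u + v) i m ∈ S)
    (H : ∀ m, ∃ u ∈ U, ∃ v ∈ V, Function.update (u + v) i m ∉ S) :
    Hyp2 (Dl i) (Gm i) (i : ℕ) k (LS U) (RR S i U V) where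
  bD := i_Dl i
  bG := i_Gm i
  cD := k_Dl i
  cG := k_Gm i
  cb := i.2.ne'
  dis := dis i
  ovX := by
    rintro x ⟨u, hu, rfl⟩
    exact ov_low hl hu
  ovR := by
    rintro x j w ⟨v, hv, u, hu, rfl, -, -⟩
    exact ov_high hh hv
  regX := (rec_rat hU).1
  reg := by
    intro j
    have h1 : Rec ({n : Fin k → ℕ | ∃ u ∈ U, ∃ v ∈ V, n = u + v} ∩
        {n | ∃ u ∈ U, ∃ v ∈ V, n = u + v ∧ Function.update n i j ∈ S}ᶜ) :=
      rec_inter (rec_add i hU hV hl hh) (rec_compl (hr j))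
    have h2 := cat_mark_reg (Δ := Dl i) (Γ := Gm i) (c := k) (k_Dl i) (dis i) (rec_rat h1).1
    convert h2 using 1
    apply Set.ext
    intro w
    constructor
    · rintro ⟨x, -, w', ⟨v, hv, u, hu, rfl, rfl, hn⟩, rfl⟩
      refine ⟨code u, code v, ov_low hl hu, ov_high hh hv, ?_, rfl⟩
      rw [← code_uv hl hh hu hv]
      refine mem_LS.2 ⟨⟨u, hu, v, hv, rfl⟩, ?_⟩
      rintro ⟨u', -, v', -, -, h3⟩
      exact hn h3
    · rintro ⟨x, w', hx, hw', ⟨n, ⟨⟨u, hu, v, hv, rfl⟩, h3⟩, h4⟩, rfl⟩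
      rw [code_uv hl hh hu hv] at h4
      obtain ⟨rfl, rfl⟩ := split_uniq (dis i) hx (ov_low hl hu) hw' (ov_high hh hv) h4
      refine ⟨code u, ⟨u, hu, rfl⟩, code v, ⟨v, hv, u, hu, rfl, rfl, ?_⟩, rfl⟩
      intro h5
      exact h3 ⟨u, hu, v, hv, rfl, h5⟩
  mono := by
    rintro x ⟨a, ha, rfl⟩ x' ⟨a', ha', rfl⟩ hs j w ⟨v, hv, u, hu, hw, hx, hn⟩
    have h1 : a' = u := code_inj hx
    subst h1
    refine ⟨v, hv, a, ha, hw, rfl, ?_⟩
    intro h2
    refine hn (hmono a ha a' ?_ v hv j h2)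
    intro l
    have h3 := hs.count_le (l : ℕ)
    rwa [count_code, count_code] at h3
  ne := by
    intro m
    choose f hf g hg hn using H
    obtain ⟨u, hu, h⟩ := sup_exists hI f hf m
    refine ⟨code u, ⟨u, hu, rfl⟩, fun l => code (g l), ?_⟩
    intro l hlm
    refine ⟨g l, hg l, u, hu, rfl, rfl, ?_⟩
    intro h1
    exact hn l (hmono u hu (f l) (h l hlm) (g l) (hg l) l h1)
  fin := by
    intro w
    by_cases h : ∃ v ∈ V, w = code v
    · obtain ⟨v, hv, rfl⟩ := h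
      obtain ⟨M, h1⟩ := hM v hv
      refine ⟨M, ?_⟩
      rintro x - j hj ⟨v', -, u, hu, h2, -, h3⟩
      have h4 : v = v' := code_inj h2
      subst h4
      exact h3 (h1 u hu j hj)
    · refine ⟨0, ?_⟩
      rintro x - j - ⟨v', hv', u, -, h2, -, -⟩
      exact h ⟨v', hv', h2⟩

/-- the words over the letters above `i` which are not in `LS V` -/
def Bq {k : ℕ} (i : Fin k) (V : Set (Fin k → ℕ)) : Language ℕ :=
  {w : List ℕ | Ov (Gm i) w ∧ w ∉ LS V}

theorem Bq_reg {k : ℕ} {i : Fin k} {V : Set (Fin k → ℕ)} (hV : Rec V) : (Bq i V).IsRegular :=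
  (star_reg (Gm i)).inf ((rec_rat hV).1.compl)

/-- the words `x i^j w` -/
def Kq {k : ℕ} (i : Fin k) (U V : Set (Fin k → ℕ)) : Language ℕ :=
  {t : List ℕ | ∃ x ∈ LS U, ∃ (j : ℕ), ∃ w ∈ Bq i V, t = x ++ List.replicate j (i : ℕ) ++ w}

theorem Kq_rat {k : ℕ} {i : Fin k} {U V : Set (Fin k → ℕ)} (hU : Rec U) (hV : Rec V)
    (hl : Low i U) : Rat (Kq i U V) := by
  have hD : ∀ x ∈ LS U, Ov (Dl i) x := by
    rintro x ⟨u, hu, rfl⟩
    exact ov_low hl hu
  refine ⟨cat_pow_reg (i_Dl i) (i_Gm i) (dis i) (rec_rat hU).1 (Bq_reg hV) hD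
    (fun w hw => hw.1), Finset.range k, ?_⟩
  rintro t ⟨x, hx, j, w, hw, rfl⟩ a ha
  rw [List.mem_append, List.mem_append] at ha
  rw [Finset.mem_range]
  rcases ha with (ha | ha) | ha
  · exact (Finset.mem_range.1 (hD x hx a ha)).trans i.2
  · rw [List.eq_of_mem_replicate ha]
    exact i.2
  · exact (Finset.mem_Ioo.1 (hw.1 a ha)).2

theorem lr_mem {k : ℕ} {F : Set (Language ℕ)} (hF : IsCone F) {S : Set (Fin k → ℕ)}
    (hS : LS S ∈ F) (i : Fin k) (U V : Set (Fin k → ℕ)) (hU : Rec U) (hV : Rec V)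
    (hl : Low i U) (hh : High i V) : LR2 (Gm i) (i : ℕ) (LS U) (RR S i U V) ∈ F := by
  have h1 := hF.inter _ hS _ (rec_rat (rec_rect i hU hV hl hh))
  have h2 := union_mem hF h1 (Kq_rat (i := i) hU hV hl)
  refine (congrArg (fun L : Language ℕ => L ∈ F) ?_).mpr h2
  apply Set.ext
  intro w
  constructor
  · rintro ⟨x, ⟨u, hu, rfl⟩, j, w', hw', hn, rfl⟩
    by_cases h3 : w' ∈ LS V
    · left
      obtain ⟨v, hv, rfl⟩ := h3
      have h4 : Function.update (u + v) i j ∈ S := by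
        by_contra h5
        exact hn ⟨v, hv, u, hu, rfl, rfl, h5⟩
      have h6 : code u ++ List.replicate j (i : ℕ) ++ code v =
          code (Function.update (u + v) i j) := (code_upd (hl u hu) (hh v hv) j).symm
      rw [h6]
      refine ⟨mem_LS.2 h4, mem_LS.2 ⟨u, hu, v, hv, ?_⟩⟩
      rw [Function.update_idem, ← zero_i hl hh hu hv, Function.update_eq_self]
    · right
      exact ⟨code u, ⟨u, hu, rfl⟩, j, w', ⟨hw', h3⟩, rfl⟩
  · rintro (⟨⟨n, hn, rfl⟩, h4⟩ | ⟨x, hx, j, w', hw', rfl⟩)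
    · obtain ⟨u, hu, v, hv, h5⟩ := mem_LS.1 h4
      have h6 : n = Function.update (u + v) i (n i) := by
        rw [← h5, Function.update_idem, Function.update_eq_self]
      refine ⟨code u, ⟨u, hu, rfl⟩, n i, code v, ov_high hh hv, ?_, ?_⟩
      · rintro ⟨v', hv', u', hu', h7, h8, h9⟩
        have h10 := code_inj h7
        have h11 := code_inj h8
        subst h10
        subst h11
        rw [← h6] at h9
        exact h9 hn
      · rw [← code_upd (hl u hu) (hh v hv), ← h6]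
    · refine ⟨x, hx, j, w', hw'.1, ?_, rfl⟩
      rintro ⟨v, hv, u, hu, h5, -, -⟩
      exact hw'.2 ⟨v, hv, h5⟩

end Pool.Agent.Lib.BCC.FamTwoAux

namespace Pool.Agent.Lib.BCC

open Pool.Agent.Lib.F1c4

theorem fam_two {k : ℕ} {F : Set (Language ℕ)} (hF : IsMinimal F) {S : Set (Fin k → ℕ)}
    (hS : LS S ∈ F) (i : Fin k) (U V : Set (Fin k → ℕ)) (hU : Rec U) (hV : Rec V) (hl : Low i U)
    (hh : High i V) (hI : Ideal U)
    (hmono : ∀ u ∈ U, ∀ u', u' ≤ u → ∀ v ∈ V, ∀ m, Function.update (u + v) i m ∈ S →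
      Function.update (u' + v) i m ∈ S)
    (hr : ∀ m : ℕ, Rec {n | ∃ u ∈ U, ∃ v ∈ V, n = u + v ∧ Function.update n i m ∈ S})
    (hM : ∀ v ∈ V, ∃ M, ∀ u ∈ U, ∀ m, M ≤ m → Function.update (u + v) i m ∈ S) :
    ∃ m, ∀ u ∈ U, ∀ v ∈ V, Function.update (u + v) i m ∈ S := by
  by_contra hc
  push Not at hc
  exact no_lr2 hF (FamTwoAux.hyp i U V hU hV hl hh hI hmono hr hM hc)
    (FamTwoAux.lr_mem hF.1 hS i U V hU hV hl hh)

end Pool.Agent.Lib.BCC
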