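import Pool.Agent.Lib.BCC.FamOps
import Pool.Agent.Lib.BCC.FamLast
import Pool.Agent.Lib.BCC.FamTwo

/-!
# Module BCC.FamAll: the family of a minimal cone (MP_f1c4ef_lc)
-/

set_option autoImplicit false

namespace Pool.Agent.Lib.BCC

open Pool.Agent.Lib.F1c4

theorem fam_all {F : Set (Language ℕ)} (hF : IsMinimal F) (k : ℕ) :
    Fam {S : Set (Fin k → ℕ) | LS S ∈ F} where
  inter := fun _ hS _ hK => fam_inter hF.1 hS hK
  down := fun _ hS i => fam_down hF.1 hS i
  aff := fun _ hS i a q hq => fam_aff hF.1 hS i a q hq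
  sec := fun _ hS i a => fam_sec hF.1 hS i a
  last := fun _ hS i U hU hl hr h => fam_last hF hS i U hU hl hr h
  two := fun _ hS i U V hU hV hl hh hI hmono hr hM => fam_two hF hS i U V hU hV hl hh hI hmono hr hM

end Pool.Agent.Lib.BCC
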