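import Pool.Agent.Lib.BCC.Defs

/-!
# Module BCC.HomReg: images of rational languages under morphisms are regular (MP_f1c4ef_lc)

PROOF. Let `M` be a DFA for `L` with the finite set `σ` of states, `S` the finite alphabet of `L`. Use `Language.isRegular_iff_finite_range_leftQuotient` (or an `εNFA`). For a word `w` let `Q w` be the set of the pairs `(q, l)` such that some `v` over `S` has `v.flatMap h = w ++ l`, `q = M.eval v`, and (`l = []` or `l` is a suffix of `h a`
where `a` is the last letter of `v`): it is a subset of the finite set `σ × (suffixes of the words h a, a ∈ S, and [])`. CLAIM: `w ++ v'` is in the image iff there are `(q, l) ∈ Q w` and a word `r` over `S` with `v' = l ++ r.flatMap h` and `M.evalFrom q r ∈ M.accept`. (If `w ++ v' = u.flatMap h`, `u ∈ L`, let `v` be the shortest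
prefix of `u` with `|w| ≤ |v.flatMap h|`.) So the left quotient by `w` depends only on `Q w`, which is an element of a finite set.
-/

set_option autoImplicit false

namespace Pool.Agent.Lib.BCC

open Pool.Agent.Lib.F1c4

namespace HomRegAux

/-- suffixes of the words `h a`, `a ∈ S`, and the empty word -/
def Suf (h : ℕ → List ℕ) (S : Finset ℕ) : Set (List ℕ) := {l | l = [] ∨ ∃ a ∈ S, l <:+ h a}

theorem suf_finite (h : ℕ → List ℕ) (S : Finset ℕ) : (Suf h S).Finite := by
  have h1 : Suf h S ⊆ {[]} ∪ ⋃ a ∈ S, {l | l ∈ (h a).tails} := by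
    intro l hl
    rcases hl with hl | ⟨a, ha, hl⟩
    · exact Or.inl hl
    · right
      simp only [Set.mem_iUnion]
      exact ⟨a, ha, (List.mem_tails _ _).2 hl⟩
  refine Set.Finite.subset ?_ h1
  refine Set.Finite.union (Set.finite_singleton _) ?_
  exact Set.Finite.biUnion S.finite_toSet fun a _ => List.finite_toSet _

theorem split (h : ℕ → List ℕ) (S : Finset ℕ) (u : List ℕ) : ∀ (w v' : List ℕ), (∀ a ∈ u, a ∈ S) →
    u.flatMap h = w ++ v' → ∃ v r l : List ℕ, u = v ++ r ∧ v.flatMap h = w ++ l ∧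
      v' = l ++ r.flatMap h ∧ l ∈ Suf h S := by
  induction u with
  | nil =>
    intro w v' _ h1
    rw [List.flatMap_nil] at h1
    have h2 := List.append_eq_nil_iff.1 h1.symm
    exact ⟨[], [], [], rfl, by simp [h2.1], by simp [h2.2], Or.inl rfl⟩
  | cons a u ih =>
    intro w v' hS h1
    rw [List.flatMap_cons, List.append_eq_append_iff] at h1
    rcases h1 with ⟨w', h2, h3⟩ | ⟨c, h2, h3⟩
    · obtain ⟨v, r, l, e1, e2, e3, e4⟩ := ih w' v' (fun b hb => hS b (List.mem_cons_of_mem _ hb)) h3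
      refine ⟨a :: v, r, l, by rw [e1, List.cons_append], ?_, e3, e4⟩
      rw [List.flatMap_cons, e2, h2, List.append_assoc]
    · refine ⟨[a], u, c, rfl, by simp [h2], h3, Or.inr ⟨a, hS a (List.mem_cons_self ..), ?_⟩⟩
      exact ⟨w, h2.symm⟩

end HomRegAux

open HomRegAux in
theorem hom_reg {L : Language ℕ} (hL : Rat L) (h : ℕ → List ℕ) :
    Language.IsRegular ({w : List ℕ | ∃ v ∈ L, w = v.flatMap h} : Language ℕ) := by
  obtain ⟨⟨σ, hσ, M, hM⟩, S, hS⟩ := hL
  rw [Language.isRegular_iff_finite_range_leftQuotient]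
  set K : Set (σ × List ℕ) → Language ℕ := fun A =>
    ({v' : List ℕ | ∃ p ∈ A, ∃ r : List ℕ, v' = p.2 ++ r.flatMap h ∧ M.evalFrom p.1 r ∈ M.accept} :
      Set (List ℕ)) with hK
  have hfin : (K '' (𝒫 (Set.univ ×ˢ Suf h S))).Finite :=
    Set.Finite.image _ (Set.Finite.finite_subsets (Set.Finite.prod Set.finite_univ (suf_finite h S)))
  refine hfin.subset ?_
  rintro _ ⟨w, rfl⟩
  refine ⟨{p | p.2 ∈ Suf h S ∧ ∃ v : List ℕ, v.flatMap h = w ++ p.2 ∧ p.1 = M.eval v}, ?_, ?_⟩
  · intro p hp
    exact ⟨Set.mem_univ _, hp.1⟩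
  · ext v'
    rw [Language.mem_leftQuotient]
    constructor
    · rintro ⟨p, ⟨_, v, e1, e2⟩, r, e3, e4⟩
      refine ⟨v ++ r, ?_, ?_⟩
      · rw [← hM, DFA.mem_accepts]
        unfold DFA.eval
        rw [DFA.evalFrom_of_append]
        rw [e2] at e4
        exact e4
      · rw [List.flatMap_append, e1, e3, List.append_assoc]
    · rintro ⟨u, hu, e⟩
      obtain ⟨v, r, l, e1, e2, e3, e4⟩ := split h S u w v' (hS u hu) e.symm
      refine ⟨(M.eval v, l), ⟨e4, v, e2, rfl⟩, r, e3, ?_⟩
      rw [← hM, DFA.mem_accepts, e1] at hu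
      unfold DFA.eval at hu
      rw [DFA.evalFrom_of_append] at hu
      exact hu

end Pool.Agent.Lib.BCC
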