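import Pool.Agent.Lib.BCC.Defs

/-!
# Module BCC.DownRec: downward closed sets are recognizable (MP_f1c4ef_lc)

PROOF. The complement `C` of `S` is upward closed (if `n ∈ C`, `n ≤ n'`, then `n' ∈ C`: decrease the coordinates of `n'` to those of `n` one after the other, `DownAt`). The set of the minimal elements of `C` is finite (Dickson; `Fin k → ℕ` is well quasi-ordered, e.g. `Set.PartiallyWellOrderedOn`,
`Set.IsPWO.finite_of_isAntichain` or similar; `wellFounded` gives below every element of `C` a minimal one). Let `N` bound all coordinates of all minimal elements, `p = 1`: if `N ≤ n i` then a minimal element `a` is `≤ n` iff it is `≤ Function.update n i (n i + 1)`.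
-/

set_option autoImplicit false

namespace Pool.Agent.Lib.BCC

private lemma down_le {k : ℕ} {S : Set (Fin k → ℕ)} (h : ∀ i, DownAt i S)
    {n m : Fin k → ℕ} (hn : n ∈ S) (hm : m ≤ n) : m ∈ S := by
  classical
  have key : ∀ s : Finset (Fin k), (fun i => if i ∈ s then m i else n i) ∈ S := by
    intro s
    induction s using Finset.induction_on with
    | empty => simpa using hn
    | insert a s ha ih =>
      have h1 := h a _ ih (m a) (by simpa [ha] using hm a)
      convert h1 using 1
      funext i
      by_cases hia : i = a
      · subst hia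
        simp
      · simp [Finset.mem_insert, hia]
  simpa using key Finset.univ

theorem down_rec {k : ℕ} {S : Set (Fin k → ℕ)} (h : ∀ i, DownAt i S) : Rec S := by
  classical
  have hpwo : (Sᶜ : Set (Fin k → ℕ)).IsPWO := Set.isPWO_of_wellQuasiOrderedLE _
  have hfin : {a : Fin k → ℕ | Minimal (· ∈ Sᶜ) a}.Finite :=
    WellQuasiOrderedLE.finite_of_isAntichain (setOfPred_minimal_antichain _)
  refine ⟨hfin.toFinset.sup fun a => Finset.univ.sup a, 1, one_pos, fun n i hi => ?_⟩
  have hle : n ≤ Function.update n i (n i + 1) := by
    intro j
    by_cases hj : j = i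
    · subst hj
      simp
    · simp [Function.update_of_ne hj]
  refine ⟨fun hn => ?_, fun hn => down_le h hn hle⟩
  by_contra hc
  obtain ⟨a, hale, hamin⟩ := hpwo.exists_le_minimal (a := Function.update n i (n i + 1)) hc
  apply hamin.1
  refine down_le h hn fun j => ?_
  by_cases hj : j = i
  · subst hj
    refine le_trans ?_ hi
    have h1 : a j ≤ Finset.univ.sup a := Finset.le_sup (f := a) (Finset.mem_univ j)
    have h2 : Finset.univ.sup a ≤ hfin.toFinset.sup fun a => Finset.univ.sup a :=
      Finset.le_sup (f := fun a : Fin k → ℕ => Finset.univ.sup a) (hfin.mem_toFinset.2 hamin)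
    exact h1.trans h2
  · have := hale j
    rwa [Function.update_of_ne hj] at this

end Pool.Agent.Lib.BCC
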