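import Pool.Agent.Lib.BCC.Defs

/-!
# Module BCC.Period: a uniform period for a semilinear set (MP_f1c4ef_lc)

PROOF. It is enough to treat a linear set `a +ᵥ closure t`, `t` finite (for a finite union take the product of the periods; if `p` works then every positive multiple of `p` works). If `t` contains some `q e_i` with `q > 0` (i.e. `Pi.single i q`), take `p = q`: if `update n i j` is in the set then so is
`update n i (j + q)`; so for every residue class mod `q` the set of the `j` is eventually constant along the class; `N` exists since there are finitely many residue classes (or: `S_n + q ⊆ S_n` implies that `S_n` is ultimately `q`-periodic: `Nat.isSemilinearSet_iff_ultimately_periodic`-type argument, or choose for each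
residue the least element). If `t` contains no such vector, then for fixed `n` the set of the `j` with `update n i j` in the linear set is finite (`p = 1`): an element is `a + Σ c_t • t` and for every `t ≠ 0` some coordinate `l ≠ i` of `t` is positive, so `c_t ≤ n l`; the coordinate `i` is bounded by
`a i + Σ_t (Σ_l n l) * t i`.
-/

set_option autoImplicit false

namespace Pool.Agent.Lib.BCC

namespace PeriodAux

open Pointwise

/-- `p` is an eventual period of `S` in the coordinate `i` -/
def Per {k : ℕ} (i : Fin k) (p : ℕ) (S : Set (Fin k → ℕ)) : Prop :=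
  ∀ n : Fin k → ℕ, ∃ N : ℕ, ∀ j, N ≤ j →
    (Function.update n i j ∈ S ↔ Function.update n i (j + p) ∈ S)

theorem Per.mul {k : ℕ} {i : Fin k} {p : ℕ} {S : Set (Fin k → ℕ)} (h : Per i p S) (m : ℕ) :
    Per i (m * p) S := by
  intro n
  obtain ⟨N, hN⟩ := h n
  refine ⟨N, ?_⟩
  induction m with
  | zero => intro j _; simp
  | succ m ih =>
    intro j hj
    rw [ih j hj, hN (j + m * p) (by omega), Nat.succ_mul, Nat.add_assoc]

theorem Per.union {k : ℕ} {i : Fin k} {p q : ℕ} {S T : Set (Fin k → ℕ)} (hS : Per i p S)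
    (hT : Per i q T) : Per i (q * p) (S ∪ T) := by
  intro n
  obtain ⟨N, hN⟩ := hS.mul q n
  have hT' : Per i (q * p) T := by
    rw [Nat.mul_comm]; exact hT.mul p
  obtain ⟨M, hM⟩ := hT' n
  refine ⟨max N M, fun j hj => ?_⟩
  rw [Set.mem_union, Set.mem_union, hN j (le_trans (le_max_left _ _) hj),
    hM j (le_trans (le_max_right _ _) hj)]

theorem per_of_stable {k : ℕ} {i : Fin k} {q : ℕ} (hq : 0 < q) {S : Set (Fin k → ℕ)}
    (h : ∀ n : Fin k → ℕ, ∀ j, Function.update n i j ∈ S → Function.update n i (j + q) ∈ S) :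
    Per i q S := by
  classical
  intro n
  -- for every residue choose an element
  have hmul : ∀ m j, Function.update n i j ∈ S → Function.update n i (j + q * m) ∈ S := by
    intro m
    induction m with
    | zero => intro j hj; simpa using hj
    | succ m ih =>
      intro j hj
      have := h n _ (ih j hj)
      rwa [Nat.add_assoc, ← Nat.mul_succ] at this
  have hch : ∀ r : ℕ, ∃ b : ℕ, (∃ j, j % q = r ∧ Function.update n i j ∈ S) →
      b % q = r ∧ Function.update n i b ∈ S := by
    intro r
    by_cases hr : ∃ j, j % q = r ∧ Function.update n i j ∈ S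
    · obtain ⟨j, hj⟩ := hr
      exact ⟨j, fun _ => hj⟩
    · exact ⟨0, fun h' => absurd h' hr⟩
  choose b hb using hch
  refine ⟨(Finset.range q).sup b, fun j hj => ⟨h n j, fun hjq => ?_⟩⟩
  have hr : j % q < q := Nat.mod_lt _ hq
  obtain ⟨h1, h2⟩ := hb (j % q) ⟨j + q, by simp, hjq⟩
  have hbj : b (j % q) ≤ j :=
    le_trans (Finset.le_sup (f := b) (Finset.mem_range.2 hr)) hj
  have hmod : b (j % q) ≡ j [MOD q] := h1
  obtain ⟨m, hm⟩ := (Nat.modEq_iff_dvd' hbj).1 hmod
  have := hmul m _ h2
  rwa [← hm, Nat.add_sub_cancel' hbj] at this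

theorem per_of_bdd {k : ℕ} {i : Fin k} {S : Set (Fin k → ℕ)}
    (h : ∀ n : Fin k → ℕ, ∃ N, ∀ j, Function.update n i j ∈ S → j < N) :
    Per i 1 S := by
  intro n
  obtain ⟨N, hN⟩ := h n
  refine ⟨N, fun j hj => ⟨fun h1 => ?_, fun h1 => ?_⟩⟩
  · have := hN _ h1
    omega
  · have := hN _ h1
    omega

theorem closure_bound {k : ℕ} {i : Fin k} {t : Finset (Fin k → ℕ)}
    (h : ¬ ∃ q, 0 < q ∧ Pi.single i q ∈ t) (x : Fin k → ℕ)
    (hx : x ∈ AddSubmonoid.closure (t : Set (Fin k → ℕ))) :
    x i ≤ (∑ y ∈ t, y i) * ∑ l ∈ Finset.univ.erase i, x l := by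
  classical
  induction hx using AddSubmonoid.closure_induction with
  | mem y hy =>
    have hyt : y ∈ t := hy
    rcases Nat.eq_zero_or_pos (y i) with h0 | h0
    · rw [h0]; exact Nat.zero_le _
    · have hpos : 0 < ∑ l ∈ Finset.univ.erase i, y l := by
        rcases Nat.eq_zero_or_pos (∑ l ∈ Finset.univ.erase i, y l) with h1 | h1
        · exfalso
          apply h
          refine ⟨y i, h0, ?_⟩
          have : (Pi.single i (y i) : Fin k → ℕ) = y := by
            funext l
            by_cases hl : l = i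
            · subst hl; simp
            · rw [Pi.single_eq_of_ne hl]
              rw [Finset.sum_eq_zero_iff] at h1
              exact (h1 l (Finset.mem_erase.2 ⟨hl, Finset.mem_univ _⟩)).symm
          rw [this]; exact hyt
        · exact h1
      have hle : y i ≤ ∑ y ∈ t, y i :=
        Finset.single_le_sum (f := fun y : Fin k → ℕ => y i) (fun _ _ => Nat.zero_le _) hyt
      calc y i ≤ (∑ y ∈ t, y i) * 1 := by rw [Nat.mul_one]; exact hle
        _ ≤ _ := Nat.mul_le_mul_left _ hpos
  | zero => simp
  | add x y _ _ hx hy =>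
    simp only [Pi.add_apply, Finset.sum_add_distrib, Nat.mul_add]
    exact Nat.add_le_add hx hy

theorem per_linear {k : ℕ} (i : Fin k) (a : Fin k → ℕ) (t : Finset (Fin k → ℕ)) :
    ∃ p, 0 < p ∧ Per i p (a +ᵥ (AddSubmonoid.closure (t : Set (Fin k → ℕ)) : Set (Fin k → ℕ))) := by
  classical
  by_cases h : ∃ q, 0 < q ∧ Pi.single i q ∈ t
  · obtain ⟨q, hq, hqt⟩ := h
    refine ⟨q, hq, per_of_stable hq ?_⟩
    intro n j hj
    rw [Set.mem_vadd_set] at hj ⊢
    obtain ⟨x, hx, hxe⟩ := hj
    refine ⟨x + Pi.single i q, ?_, ?_⟩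
    · exact AddSubmonoid.add_mem _ hx (AddSubmonoid.subset_closure hqt)
    · rw [vadd_eq_add] at hxe ⊢
      rw [← add_assoc, hxe]
      funext l
      by_cases hl : l = i
      · subst hl; simp
      · simp [hl]
  · refine ⟨1, one_pos, per_of_bdd ?_⟩
    intro n
    refine ⟨a i + (∑ y ∈ t, y i) * (∑ l ∈ Finset.univ.erase i, n l) + 1, fun j hj => ?_⟩
    rw [Set.mem_vadd_set] at hj
    obtain ⟨x, hx, hxe⟩ := hj
    rw [vadd_eq_add] at hxe
    have hb := closure_bound h x hx
    have hxi : a i + x i = j := by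
      have := congrFun hxe i
      simpa using this
    have hsum : ∑ l ∈ Finset.univ.erase i, x l ≤ ∑ l ∈ Finset.univ.erase i, n l := by
      apply Finset.sum_le_sum
      intro l hl
      have hl' : l ≠ i := (Finset.mem_erase.1 hl).1
      have := congrFun hxe l
      rw [Function.update_of_ne hl'] at this
      rw [← this]
      simp
    have := Nat.mul_le_mul_left (∑ y ∈ t, y i) hsum
    omega

theorem per_sUnion {k : ℕ} (i : Fin k) (S : Finset (Set (Fin k → ℕ)))
    (h : ∀ s ∈ S, ∃ p, 0 < p ∧ Per i p s) :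
    ∃ p, 0 < p ∧ Per i p (⋃₀ (S : Set (Set (Fin k → ℕ)))) := by
  classical
  induction S using Finset.induction_on with
  | empty =>
    refine ⟨1, one_pos, fun n => ⟨0, fun j _ => ?_⟩⟩
    simp
  | insert s S _ ih =>
    obtain ⟨p, hp, hp'⟩ := h s (Finset.mem_insert_self _ _)
    obtain ⟨q, hq, hq'⟩ := ih fun s' hs' => h s' (Finset.mem_insert_of_mem hs')
    refine ⟨q * p, Nat.mul_pos hq hp, ?_⟩
    rw [Finset.coe_insert, Set.sUnion_insert]
    exact hp'.union hq'

end PeriodAux

theorem period {k : ℕ} {S : Set (Fin k → ℕ)} (hS : IsSemilinearSet S) (i : Fin k) :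
    ∃ p : ℕ, 0 < p ∧ ∀ n : Fin k → ℕ, ∃ N : ℕ, ∀ j, N ≤ j →
      (Function.update n i j ∈ S ↔ Function.update n i (j + p) ∈ S) := by
  obtain ⟨T, hT, rfl⟩ := isSemilinearSet_iff.1 hS
  refine PeriodAux.per_sUnion i T fun s hs => ?_
  obtain ⟨a, t, rfl⟩ := isLinearSet_iff.1 (hT s hs)
  exact PeriodAux.per_linear i a t

end Pool.Agent.Lib.BCC
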