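import Pool.Agent.Lib.BCC.StepC
import Pool.Agent.Lib.BCC.Period
import Pool.Agent.Lib.BCC.DownRec

/-!
# Module BCC.MainB: semilinear sets of a family are recognizable (MP_f1c4ef_lc)

PROOF. `step`: let `p` be as in `period hs i`. For `r < p` let `S_r = {n | update n i (r + p * n i) ∈ S}`: in `G` (`Fam.aff`), semilinear (`semi_aff`), support in `Z`, downward closed in the coordinates `< i`, and `hfc` of `step_c` holds (`r + p * (j + 1) = (r + p * j) + p`, `r + p * j ≥ j`). So `Rec S_r`, and `rec_res` gives
`Rec S`.
`rec_of_fam`: by `Finset.strongInduction` every semilinear `S ∈ G` with `SuppIn Z S` is `Rec`: for given `Z` show by induction on `k - j` (or `Nat.decreasingInduction`), for `j ≤ k`: every semilinear `S ∈ G` with `SuppIn Z S` and `DownAt l S` for all `l : Fin k` with `(l : ℕ) < j` is `Rec`. `j = k`: `down_rec`. From `j + 1` to `j`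
(`j < k`, `i = ⟨j, _⟩`): if `i ∉ Z`, then `DownAt i S` holds trivially (`n i = 0`, `update n i 0 = n`); otherwise `step`. Finally `Z = Finset.univ`, `j = 0`.
-/

set_option autoImplicit false

namespace Pool.Agent.Lib.BCC

variable {k : ℕ}

theorem step {G : Set (Set (Fin k → ℕ))} (hG : Fam G) {Z : Finset (Fin k)}
    (hZ : ∀ Z' : Finset (Fin k), Z' ⊂ Z → ∀ S ∈ G, IsSemilinearSet S → SuppIn Z' S → Rec S)
    {i : Fin k} (hi : i ∈ Z)
    (hQ : ∀ S ∈ G, IsSemilinearSet S → SuppIn Z S → (∀ l, l ≤ i → DownAt l S) → Rec S)
    {S : Set (Fin k → ℕ)} (hS : S ∈ G) (hs : IsSemilinearSet S)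
    (hsup : SuppIn Z S) (hd : ∀ l < i, DownAt l S) : Rec S := by
  obtain ⟨p, hp, hper⟩ := period hs i
  refine rec_res i p hp fun r _ => ?_
  refine step_c hG hZ hi hQ (hG.aff S hS i r p hp) (semi_aff hs i r p) ?_ ?_ ?_
  · intro n hn l hl
    have hli : l ≠ i := fun h => hl (h ▸ hi)
    have := hsup _ hn l hl
    rwa [Function.update_of_ne hli] at this
  · intro l hl n hn m hm
    have hli : l ≠ i := ne_of_lt hl
    change Function.update (Function.update n l m) i (r + p * (Function.update n l m) i) ∈ S
    rw [Function.update_of_ne hli.symm, Function.update_comm hli]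
    apply hd l hl _ hn
    rw [Function.update_of_ne hli]
    exact hm
  · intro n
    obtain ⟨N, hN⟩ := hper n
    refine ⟨N, fun j hj => ?_⟩
    change Function.update (Function.update n i j) i (r + p * (Function.update n i j) i) ∈ S ↔
      Function.update (Function.update n i (j + 1)) i
        (r + p * (Function.update n i (j + 1)) i) ∈ S
    rw [Function.update_self, Function.update_self, Function.update_idem, Function.update_idem]
    have h1 : r + p * (j + 1) = (r + p * j) + p := by ring
    rw [h1]
    refine hN _ ?_
    have h2 : j ≤ p * j := Nat.le_mul_of_pos_left j hp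
    omega

theorem rec_of_fam {G : Set (Set (Fin k → ℕ))} (hG : Fam G) {S : Set (Fin k → ℕ)} (hS : S ∈ G)
    (hs : IsSemilinearSet S) : Rec S := by
  have main : ∀ Z : Finset (Fin k), ∀ S ∈ G, IsSemilinearSet S → SuppIn Z S → Rec S := by
    intro Z
    induction Z using Finset.strongInduction with
    | H Z ih =>
      have inner : ∀ d j : ℕ, j + d = k → ∀ S ∈ G, IsSemilinearSet S → SuppIn Z S →
          (∀ l : Fin k, (l : ℕ) < j → DownAt l S) → Rec S := by
        intro d
        induction d with
        | zero =>
          intro j hj S _ _ _ hd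
          exact down_rec fun l => hd l (by have := l.2; omega)
        | succ d ihd =>
          intro j hj S hS hs hsup hd
          have hjk : j < k := by omega
          by_cases hjZ : (⟨j, hjk⟩ : Fin k) ∈ Z
          · refine step hG ih hjZ ?_ hS hs hsup ?_
            · intro S' hS' hs' hsup' hd'
              refine ihd (j + 1) (by omega) S' hS' hs' hsup' fun l hl => hd' l ?_
              rw [Fin.le_def]
              exact Nat.lt_succ_iff.1 hl
            · intro l hl
              exact hd l (Fin.lt_def.1 hl)
          · refine ihd (j + 1) (by omega) S hS hs hsup fun l hl => ?_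
            rcases Nat.lt_succ_iff_lt_or_eq.1 hl with h | h
            · exact hd l h
            · have hl' : l = ⟨j, hjk⟩ := Fin.ext h
              intro n hn m hm
              have h0 : n l = 0 := hsup n hn l (by rw [hl']; exact hjZ)
              have hm0 : m = n l := by omega
              rw [hm0, Function.update_eq_self]
              exact hn
      intro S hS hs hsup
      exact inner k 0 (by omega) S hS hs hsup fun l hl => absurd hl (Nat.not_lt_zero _)
  exact main Finset.univ S hS hs fun n _ i hi => absurd (Finset.mem_univ i) hi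

end Pool.Agent.Lib.BCC
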