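import Pool.Agent.Lib.BCC.Parikh
import Pool.Agent.Lib.BCC.HomReg
import Pool.Agent.Lib.BCC.MainB
import Pool.Agent.Lib.BCC.FamAll

/-!
# Module BCC.BLang: bounded languages in minimal rational cones (MP_f1c4ef_lc)

PROOF. Let `S = {n | pw w n ∈ A}`. `LS S ∈ F`: it is `{v | (∀ a ∈ v, a ∈ Finset.range k) ∧ v.flatMap h ∈ A}` (`IsCone.inv`, `h i = w i` for `i < k`, `h i = []` else) intersected with `LS Set.univ` (rational: `rec_rat`, `rec_univ`), by `code_flatMap` and `mem_LS_iff`. `sem`: `rec_of_fam (fam_all hF k)` gives `Rec S`, so `LS S` is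
rational (`rec_rat`), and `A` is its image under `h` (`hb`, `code_flatMap`), so regular by `hom_reg`. `cfl`: `LS S` is context-free, so `S` is semilinear by `parikh`; then `sem`.
-/

set_option autoImplicit false

namespace Pool.Agent.Lib.BCC

open Pool.Agent.Lib.F1c4

/-- the word `w_0 ^ (n 0) w_1 ^ (n 1) ... w_(k - 1) ^ (n (k - 1))` -/
def pw {k : ℕ} (w : Fin k → List ℕ) (n : Fin k → ℕ) : List ℕ :=
  (List.ofFn fun i : Fin k => (List.replicate (n i) (w i)).flatten).flatten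

namespace BLangAux

/-- the morphism `i ↦ w i` for `i < k`, `i ↦ []` else -/
def hm {k : ℕ} (w : Fin k → List ℕ) (a : ℕ) : List ℕ := if h : a < k then w ⟨a, h⟩ else []

theorem code_hm {k : ℕ} (w : Fin k → List ℕ) (n : Fin k → ℕ) :
    (code n).flatMap (hm w) = pw w n := by
  rw [code_flatMap]
  unfold pw
  congr 1
  congr 1
  funext i
  have h : hm w (i : ℕ) = w i := by
    unfold hm
    rw [dif_pos i.2]
  rw [h]

end BLangAux

open BLangAux in
theorem ls_mem {F : Set (Language ℕ)} (hF : IsMinimal F) {k : ℕ} (w : Fin k → List ℕ)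
    {A : Language ℕ} (hA : A ∈ F) : LS {n | pw w n ∈ A} ∈ F := by
  have h1 := hF.1.inv A hA (hm w) (Finset.range k)
  have h2 := hF.1.inter _ h1 (LS (Set.univ : Set (Fin k → ℕ))) (rec_rat rec_univ)
  have h3 : (LS {n | pw w n ∈ A} : Language ℕ) = ({v : List ℕ |
      v ∈ ({v : List ℕ | (∀ a ∈ v, a ∈ Finset.range k) ∧ v.flatMap (hm w) ∈ A} : Language ℕ) ∧
      v ∈ (LS (Set.univ : Set (Fin k → ℕ)) : Language ℕ)} : Language ℕ) := by
    ext v
    constructor
    · rintro ⟨n, hn, rfl⟩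
      refine ⟨⟨fun a ha => ?_, ?_⟩, ⟨n, Set.mem_univ _, rfl⟩⟩
      · obtain ⟨i, rfl, _⟩ := mem_code.1 ha
        exact Finset.mem_range.2 i.2
      · rw [code_hm]
        exact hn
    · rintro ⟨⟨_, h4⟩, n, _, rfl⟩
      rw [code_hm] at h4
      exact ⟨n, h4, rfl⟩
  rw [h3]
  exact h2

open BLangAux in
theorem sem {F : Set (Language ℕ)} (hF : IsMinimal F) {k : ℕ} (w : Fin k → List ℕ)
    {A : Language ℕ} (hA : A ∈ F) (hb : ∀ v ∈ A, ∃ n, v = pw w n)
    (hs : IsSemilinearSet {n | pw w n ∈ A}) : A.IsRegular := by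
  have h1 : Rec {n | pw w n ∈ A} := rec_of_fam (fam_all hF k) (ls_mem hF w hA) hs
  have h2 := hom_reg (rec_rat h1) (hm w)
  have h3 : A = ({v : List ℕ | ∃ u ∈ (LS {n | pw w n ∈ A} : Language ℕ), v = u.flatMap (hm w)} :
      Language ℕ) := by
    ext v
    constructor
    · intro hv
      obtain ⟨n, rfl⟩ := hb v hv
      exact ⟨code n, ⟨n, hv, rfl⟩, (code_hm w n).symm⟩
    · rintro ⟨_, ⟨n, hn, rfl⟩, rfl⟩
      rw [code_hm]
      exact hn
  rw [h3]
  exact h2

theorem cfl {F : Set (Language ℕ)} (hF : IsMinimal F) (hcf : ∀ L ∈ F, L.IsContextFree) {k : ℕ}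
    (w : Fin k → List ℕ) {A : Language ℕ} (hA : A ∈ F) (hb : ∀ v ∈ A, ∃ n, v = pw w n) :
    A.IsRegular :=
  sem hF w hA hb (parikh (hcf _ (ls_mem hF w hA)))

end Pool.Agent.Lib.BCC
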