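import Pool.Agent.Lib.BCC.Defs

/-!
# Module BCC.Boxes: decomposition of a recognizable set that is downward closed below `i` (MP_f1c4ef_lc)

PROOF. Let `N`, `p` be as in `Rec G`; we may assume `1 ≤ N`. Index set: pairs `(w, c)` with `w, c : Fin k → ℕ`, `w l ≤ N`, `c l < N + p` for all `l`, `w` vanishing on the coordinates `≥ i`, `c` vanishing on the coordinates `≤ i`, and `w + c ∈ G`.
`U (w, c)` = all `u` with `u l = 0` for `l ≥ i`, and for `l < i`: `u l ≤ w l` if `w l < N` (no condition if `w l = N`). `V (w, c)` = all `v` with `v l = 0` for `l ≤ i` and, for `l > i`, `v l = c l` if `c l < N`, `v l ≥ N` and `v l ≡ c l` mod `p` if `c l ≥ N`. These sets are `Rec` (threshold `N + 1`, resp. `N`, period `p`), `U` is downward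
closed and closed under `⊔`. (1) `u + v ∈ G`: replace `v` by `c` (periods); for `u` first decrease: the element `w' + c` with `w' l = w l` if `w l < N` and `w' l = N + p * t` (`t` large) otherwise is in `G` (period), and `u ≤ w'`; decrease the coordinates `< i` one after the other (`DownAt`).
(2) Let `n ∈ G`, `w l = min (n l) N` for `l < i`, `c` = the representative of the class of `n l`, `l > i`. Then `w + c ∈ G` (`DownAt` and periods; `n i = 0`), and the two parts of `n` are in `U (w, c)`, `V (w, c)`.
-/

set_option autoImplicit false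

namespace Pool.Agent.Lib.BCC

namespace BoxesAux

/-- equality up to the threshold `N` and the period `p` -/
def Eq1 (N p a b : ℕ) : Prop := a = b ∨ (N ≤ a ∧ N ≤ b ∧ a ≡ b [MOD p])

theorem upd_mul {k : ℕ} {G : Set (Fin k → ℕ)} {N p : ℕ}
    (h : ∀ (n : Fin k → ℕ) (i : Fin k), N ≤ n i → (n ∈ G ↔ Function.update n i (n i + p) ∈ G))
    (n : Fin k → ℕ) (l : Fin k) (hn : N ≤ n l) (t : ℕ) :
    n ∈ G ↔ Function.update n l (n l + p * t) ∈ G := by
  induction t with
  | zero => simp
  | succ t ih =>
    rw [ih]
    have h1 := h (Function.update n l (n l + p * t)) l (by simp; omega)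
    rw [h1]
    simp only [Function.update_self, Function.update_idem]
    rw [show n l + p * t + p = n l + p * (t + 1) by ring]

theorem upd_cong {k : ℕ} {G : Set (Fin k → ℕ)} {N p : ℕ}
    (h : ∀ (n : Fin k → ℕ) (i : Fin k), N ≤ n i → (n ∈ G ↔ Function.update n i (n i + p) ∈ G))
    (n : Fin k → ℕ) (l : Fin k) (a : ℕ) (he : Eq1 N p (n l) a) :
    n ∈ G ↔ Function.update n l a ∈ G := by
  rcases he with he | ⟨h1, h2, h3⟩
  · rw [← he]; simp
  · rcases le_total (n l) a with hle | hle
    · obtain ⟨t, ht⟩ := (Nat.modEq_iff_dvd' hle).1 h3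
      have := upd_mul h n l h1 t
      rw [this, show n l + p * t = a by omega]
    · obtain ⟨t, ht⟩ := (Nat.modEq_iff_dvd' hle).1 h3.symm
      have := upd_mul h (Function.update n l a) l (by simpa using h2) t
      rw [this]
      simp only [Function.update_self, Function.update_idem]
      rw [show a + p * t = n l by omega]
      simp

theorem per_all {k : ℕ} {G : Set (Fin k → ℕ)} {N p : ℕ}
    (h : ∀ (n : Fin k → ℕ) (i : Fin k), N ≤ n i → (n ∈ G ↔ Function.update n i (n i + p) ∈ G))
    (n m : Fin k → ℕ) (he : ∀ l, Eq1 N p (n l) (m l)) : n ∈ G ↔ m ∈ G := by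
  have key : ∀ s : Finset (Fin k), n ∈ G ↔ (fun l => if l ∈ s then m l else n l) ∈ G := by
    intro s
    induction s using Finset.induction_on with
    | empty => simp
    | insert a s ha ih =>
      rw [ih, upd_cong h (fun l => if l ∈ s then m l else n l) a (m a) (by simpa [ha] using he a)]
      have : Function.update (fun l => if l ∈ s then m l else n l) a (m a) =
          fun l => if l ∈ insert a s then m l else n l := by
        funext l
        by_cases hl : l = a
        · subst hl; simp
        · simp [hl]
      rw [this]
  have := key Finset.univ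
  simpa using this

theorem down_all {k : ℕ} {G : Set (Fin k → ℕ)} {i : Fin k} (hd : ∀ l < i, DownAt l G)
    (x y : Fin k → ℕ) (hx : x ∈ G) (h1 : ∀ l, l < i → y l ≤ x l) (h2 : ∀ l, ¬ l < i → y l = x l) :
    y ∈ G := by
  have key : ∀ s : Finset (Fin k), (fun l => if l ∈ s then y l else x l) ∈ G := by
    intro s
    induction s using Finset.induction_on with
    | empty => simpa using hx
    | insert a s ha ih =>
      have he : Function.update (fun l => if l ∈ s then y l else x l) a (y a) =
          fun l => if l ∈ insert a s then y l else x l := by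
        funext l
        by_cases hl : l = a
        · subst hl; simp
        · simp [hl]
      rw [← he]
      by_cases hai : a < i
      · exact hd a hai _ ih (y a) (by simpa [ha] using h1 a hai)
      · have : Function.update (fun l => if l ∈ s then y l else x l) a (y a) =
            fun l => if l ∈ s then y l else x l := by
          funext l
          by_cases hl : l = a
          · subst hl; simp [ha, h2 l hai]
          · simp [hl]
        rw [this]; exact ih
  have := key Finset.univ
  simpa using this

/-- the combined vector -/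
def wc {k : ℕ} (i : Fin k) (w c : Fin k → ℕ) : Fin k → ℕ :=
  fun l => if l < i then w l else if i < l then c l else 0

end BoxesAux

open BoxesAux in
theorem boxes {k : ℕ} (i : Fin k) {G : Set (Fin k → ℕ)} (hG : Rec G) (h0 : ∀ n ∈ G, n i = 0)
    (hd : ∀ l < i, DownAt l G) :
    ∃ (ι : Type) (_ : Finite ι) (U V : ι → Set (Fin k → ℕ)),
      (∀ a, Rec (U a)) ∧ (∀ a, Rec (V a)) ∧ (∀ a, Low i (U a)) ∧ (∀ a, High i (V a)) ∧
      (∀ a, Ideal (U a)) ∧ (∀ a, ∀ u ∈ U a, ∀ v ∈ V a, u + v ∈ G) ∧
      (∀ n ∈ G, ∃ a, ∃ u ∈ U a, ∃ v ∈ V a, n = u + v) := by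
  obtain ⟨N, p, hp, hper⟩ := hG
  refine ⟨{a : (Fin k → Fin (N + 1)) × (Fin k → Fin (N + p)) //
    wc i (fun l => (a.1 l : ℕ)) (fun l => (a.2 l : ℕ)) ∈ G}, inferInstance,
    fun a => {u | ∀ l, (i ≤ l → u l = 0) ∧ (l < i → (a.1.1 l : ℕ) < N → u l ≤ (a.1.1 l : ℕ))},
    fun a => {v | ∀ l, (l ≤ i → v l = 0) ∧ (i < l → (((a.1.2 l : ℕ) < N ∧ v l = (a.1.2 l : ℕ)) ∨
      (N ≤ (a.1.2 l : ℕ) ∧ N ≤ v l ∧ v l ≡ (a.1.2 l : ℕ) [MOD p])))},
    ?_, ?_, ?_, ?_, ?_, ?_, ?_⟩
  · intro a
    refine ⟨N + 1, p, hp, ?_⟩
    intro n j hj
    simp only [Set.mem_ofPred_eq]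
    refine forall_congr' fun l => ?_
    by_cases hl : l = j
    · subst hl
      simp only [Function.update_self]
      constructor
      · rintro ⟨h1, h2⟩
        exact ⟨fun h => by have := h1 h; omega, fun h h' => by have := h2 h h'; omega⟩
      · rintro ⟨h1, h2⟩
        exact ⟨fun h => by have := h1 h; omega, fun h h' => by have := h2 h h'; omega⟩
    · simp [hl]
  · intro a
    refine ⟨N + 1, p, hp, ?_⟩
    intro n j hj
    simp only [Set.mem_ofPred_eq]
    refine forall_congr' fun l => ?_
    by_cases hl : l = j
    · subst hl
      simp only [Function.update_self]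
      constructor
      · rintro ⟨h1, h2⟩
        refine ⟨fun h => by have := h1 h; omega, fun h => ?_⟩
        rcases h2 h with h3 | ⟨h3, h4, h5⟩
        · omega
        · exact Or.inr ⟨h3, by omega, (Nat.add_modEq_right).trans h5⟩
      · rintro ⟨h1, h2⟩
        refine ⟨fun h => by have := h1 h; omega, fun h => ?_⟩
        rcases h2 h with h3 | ⟨h3, h4, h5⟩
        · omega
        · exact Or.inr ⟨h3, by omega, (Nat.add_modEq_right).symm.trans h5⟩
    · simp [hl]
  · intro a u hu l hl
    exact (hu l).1 hl
  · intro a v hv l hl
    exact (hv l).1 hl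
  · intro a
    refine ⟨?_, ?_⟩
    · intro u hu u' hle l
      refine ⟨fun h => ?_, fun h h' => ?_⟩
      · have h1 := (hu l).1 h
        have h2 := hle l
        rw [h1] at h2
        exact Nat.le_zero.1 h2
      · exact (hle l).trans ((hu l).2 h h')
    · intro u hu u' hu' l
      refine ⟨fun h => ?_, fun h h' => ?_⟩
      · have h1 := (hu l).1 h; have h2 := (hu' l).1 h
        simp [h1, h2]
      · simp only [Pi.sup_apply]
        exact sup_le ((hu l).2 h h') ((hu' l).2 h h')
  · rintro ⟨⟨w, c⟩, ha⟩ u hu v hv
    simp only at ha hu hv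
    simp only [Set.mem_ofPred_eq] at hu hv
    have hx : wc i (fun l => if (w l : ℕ) < N then (w l : ℕ) else N + p * u l) v ∈ G := by
      refine (per_all hper _ _ ?_).1 ha
      intro l
      unfold wc
      by_cases h1 : l < i
      · simp only [h1, if_true]
        by_cases h2 : (w l : ℕ) < N
        · left; simp [h2]
        · right
          have h3 : (w l : ℕ) = N := by have := (w l).2; omega
          simp only [h3, lt_irrefl, if_false]
          refine ⟨le_rfl, by omega, ?_⟩
          exact (Nat.modEq_iff_dvd' (by omega)).2 ⟨u l, by omega⟩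
      · by_cases h2 : i < l
        · simp only [h1, h2, if_true, if_false]
          rcases (hv l).2 h2 with h3 | ⟨h3, h4, h5⟩
          · left; exact h3.2.symm
          · right; exact ⟨h3, h4, h5.symm⟩
        · left; simp [h1, h2]
    refine down_all hd _ _ hx ?_ ?_
    · intro l hl
      have h1 := (hv l).1 hl.le
      simp only [wc, Pi.add_apply, hl, if_true, h1]
      split_ifs with h2
      · have := (hu l).2 hl h2; omega
      · have : u l ≤ p * u l := Nat.le_mul_of_pos_left _ hp
        omega
    · intro l hl
      have h1 := (hu l).1 (not_lt.1 hl)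
      simp only [wc, Pi.add_apply, hl, if_false, h1]
      by_cases h2 : i < l
      · simp [h2]
      · have h3 := (hv l).1 (not_lt.1 h2)
        simp [h2, h3]
  · intro n hn
    have hwlt : ∀ l, min (n l) N < N + 1 := fun l => by have := min_le_right (n l) N; omega
    have hclt : ∀ l, (if n l < N then n l else N + (n l - N) % p) < N + p := by
      intro l
      split_ifs with h
      · omega
      · have := Nat.mod_lt (n l - N) hp; omega
    have hcE : ∀ l, Eq1 N p (n l) (if n l < N then n l else N + (n l - N) % p) := by
      intro l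
      split_ifs with h
      · left; rfl
      · right
        refine ⟨by omega, by omega, ?_⟩
        have h1 : (n l - N) % p ≡ n l - N [MOD p] := Nat.mod_modEq _ _
        have h2 := (h1.add_left N).symm
        rwa [show N + (n l - N) = n l by omega] at h2
    refine ⟨⟨(fun l => ⟨min (n l) N, hwlt l⟩,
      fun l => ⟨if n l < N then n l else N + (n l - N) % p, hclt l⟩), ?_⟩,
      (fun l => if l < i then n l else 0), ?_, (fun l => if i < l then n l else 0), ?_, ?_⟩
    · simp only
      have hx : wc i n (fun l => if n l < N then n l else N + (n l - N) % p) ∈ G := by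
        refine (per_all hper n _ ?_).1 hn
        intro l
        unfold wc
        by_cases h1 : l < i
        · left; simp [h1]
        · by_cases h2 : i < l
          · simp only [h1, h2, if_true, if_false]; exact hcE l
          · have h3 : l = i := le_antisymm (not_lt.1 h2) (not_lt.1 h1)
            left; subst h3; simp [h0 n hn]
      refine down_all hd _ _ hx ?_ ?_
      · intro l hl
        simp [wc, hl]
      · intro l hl
        simp [wc, hl]
    · intro l
      refine ⟨fun h => ?_, fun h h' => ?_⟩
      · simp [not_lt.2 h]
      · simp only at h' ⊢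
        simp only [h, if_true]
        have : n l < N := by
          by_contra hc
          rw [min_eq_right (not_lt.1 hc)] at h'
          exact lt_irrefl _ h'
        rw [min_eq_left this.le]
    · intro l
      refine ⟨fun h => ?_, fun h => ?_⟩
      · simp [not_lt.2 h]
      · simp only [h, if_true]
        by_cases h1 : n l < N
        · left; simp [h1]
        · right
          simp only [h1, if_false]
          rcases hcE l with h2 | ⟨h2, h3, h4⟩
          · simp only [h1, if_false] at h2
            rw [← h2]
            exact ⟨by omega, by omega, rfl⟩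
          · simp only [h1, if_false] at h3 h4
            exact ⟨h3, h2, h4⟩
    · funext l
      simp only [Pi.add_apply]
      by_cases h1 : l < i
      · simp [h1, not_lt.2 h1.le]
      · by_cases h2 : i < l
        · simp [h1, h2]
        · have h3 : l = i := le_antisymm (not_lt.1 h2) (not_lt.1 h1)
          subst h3; simp [h0 n hn]

end Pool.Agent.Lib.BCC
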