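import Pool.Agent.Lib.BCC.CodeB

/-!
# The words `code n`: collection of CodeA, CodeB (MP_f1c4ef_lc)
-/
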