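import Pool.Agent.Lib.BCC.Defs

/-!
# Module BCC.CodeA: the words `code n`, counts and order (MP_f1c4ef_lc)

PROOF hints: `count_code`: `List.count_flatten`, `List.map_ofFn`, `List.sum_ofFn`, `List.count_replicate`, `Finset.sum_eq_single`. `eq_code`: two sorted lists with the same counts are equal (`List.Perm.eq_of_pairwise` or `List.eq_of_perm_of_sorted`, `List.perm_iff_count`); the count of a letter `≥ k` is `0` in both. `code_inj` from
`count_code`. `mem_LS_iff` from `eq_code`, `code_sorted`, `mem_code`, `count_code`.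
-/

set_option autoImplicit false

namespace Pool.Agent.Lib.BCC

open Pool.Agent.Lib.F1c4

theorem count_code {k : ℕ} (n : Fin k → ℕ) (i : Fin k) : (code n).count (i : ℕ) = n i := by
  unfold code
  rw [List.count_flatten, List.map_ofFn, List.sum_ofFn, Finset.sum_eq_single i]
  · simp
  · intro j _ hj
    have h : (j : ℕ) ≠ (i : ℕ) := fun e => hj (Fin.ext e)
    simp [List.count_replicate, h]
  · intro h
    exact absurd (Finset.mem_univ i) h

theorem mem_code {k : ℕ} {n : Fin k → ℕ} {a : ℕ} :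
    a ∈ code n ↔ ∃ i : Fin k, (i : ℕ) = a ∧ n i ≠ 0 := by
  unfold code
  rw [List.mem_flatten]
  constructor
  · rintro ⟨l, hl, ha⟩
    rw [List.mem_ofFn] at hl
    obtain ⟨i, rfl⟩ := hl
    rw [List.mem_replicate] at ha
    exact ⟨i, ha.2.symm, ha.1⟩
  · rintro ⟨i, rfl, hi⟩
    exact ⟨_, (List.mem_ofFn).2 ⟨i, rfl⟩, List.mem_replicate.2 ⟨hi, rfl⟩⟩

theorem code_sorted {k : ℕ} (n : Fin k → ℕ) : (code n).Pairwise (· ≤ ·) := by
  unfold code
  rw [List.pairwise_flatten]
  constructor
  · intro l hl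
    rw [List.mem_ofFn] at hl
    obtain ⟨i, rfl⟩ := hl
    exact List.pairwise_replicate.2 (Or.inr le_rfl)
  · rw [List.pairwise_ofFn]
    intro i j hij a ha b hb
    rw [List.mem_replicate] at ha hb
    rw [ha.2, hb.2]
    exact le_of_lt hij

theorem eq_code {k : ℕ} {w : List ℕ} (h1 : w.Pairwise (· ≤ ·)) (h2 : ∀ a ∈ w, a < k) :
    w = code (fun i : Fin k => w.count (i : ℕ)) := by
  refine List.Perm.eq_of_pairwise (le := (· ≤ ·)) (fun a b _ _ h h' => le_antisymm h h') h1
    (code_sorted _) ?_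
  rw [List.perm_iff_count]
  intro a
  by_cases ha : a < k
  · exact (count_code (fun i : Fin k => w.count (i : ℕ)) ⟨a, ha⟩).symm
  · rw [List.count_eq_zero_of_not_mem (fun h => ha (h2 a h)), List.count_eq_zero_of_not_mem]
    intro h
    obtain ⟨i, hi, -⟩ := mem_code.1 h
    exact ha (hi ▸ i.2)

theorem code_inj {k : ℕ} {m n : Fin k → ℕ} (h : code m = code n) : m = n := by
  funext i
  rw [← count_code m i, ← count_code n i, h]

theorem mem_LS {k : ℕ} {S : Set (Fin k → ℕ)} {n : Fin k → ℕ} : code n ∈ LS S ↔ n ∈ S := by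
  constructor
  · rintro ⟨m, hm, h⟩
    rwa [code_inj h]
  · intro h
    exact ⟨n, h, rfl⟩

theorem mem_LS_iff {k : ℕ} {S : Set (Fin k → ℕ)} {w : List ℕ} :
    w ∈ LS S ↔ w.Pairwise (· ≤ ·) ∧ (∀ a ∈ w, a < k) ∧ (fun i : Fin k => w.count (i : ℕ)) ∈ S := by
  constructor
  · rintro ⟨n, hn, rfl⟩
    refine ⟨code_sorted n, ?_, ?_⟩
    · intro a ha
      obtain ⟨i, hi, -⟩ := mem_code.1 ha
      exact hi ▸ i.2
    · have : (fun i : Fin k => (code n).count (i : ℕ)) = n := by
        funext i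
        exact count_code n i
      rw [this]
      exact hn
  · rintro ⟨h1, h2, h3⟩
    exact ⟨_, h3, eq_code h1 h2⟩

end Pool.Agent.Lib.BCC
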