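import Pool.Agent.Lib.BCC.CodeA

/-!
# Module BCC.CodeB: the words `code n`, concatenation (MP_f1c4ef_lc)

PROOF hints: for `code_add`, `code_upd` show that the right side is sorted with letters `< k` (`code_sorted`, `mem_code`; `List.pairwise_append`) and compare the counts (`eq_code`, `count_code`). `code_flatMap`: `List.flatMap_flatten`-type lemmas or induction on `k` (`List.ofFn_succ`); e.g. `List.flatMap_def`, `List.map_flatten`,
`List.flatten_flatten`, `List.map_replicate`.
-/

set_option autoImplicit false

namespace Pool.Agent.Lib.BCC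

open Pool.Agent.Lib.F1c4

theorem code_add {k : ℕ} {m n : Fin k → ℕ} (h : ∀ i j, m i ≠ 0 → n j ≠ 0 → i ≤ j) :
    code (m + n) = code m ++ code n := by
  have h1 : (code m ++ code n).Pairwise (· ≤ ·) := by
    rw [List.pairwise_append]
    refine ⟨code_sorted m, code_sorted n, fun a ha b hb => ?_⟩
    obtain ⟨i, rfl, hi⟩ := mem_code.1 ha
    obtain ⟨j, rfl, hj⟩ := mem_code.1 hb
    exact h i j hi hj
  have h2 : ∀ a ∈ code m ++ code n, a < k := by
    intro a ha
    rcases List.mem_append.1 ha with ha | ha
    · obtain ⟨i, rfl, _⟩ := mem_code.1 ha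
      exact i.2
    · obtain ⟨i, rfl, _⟩ := mem_code.1 ha
      exact i.2
  rw [eq_code h1 h2]
  congr 1
  funext i
  rw [List.count_append, count_code, count_code]
  rfl

theorem code_upd {k : ℕ} {u v : Fin k → ℕ} {i : Fin k} (hu : ∀ l, i ≤ l → u l = 0)
    (hv : ∀ l, l ≤ i → v l = 0) (m : ℕ) :
    code (Function.update (u + v) i m) = code u ++ List.replicate m (i : ℕ) ++ code v := by
  have hu' : ∀ a ∈ code u, a ≤ (i : ℕ) := by
    intro a ha
    obtain ⟨j, rfl, hj⟩ := mem_code.1 ha
    by_contra hc
    exact hj (hu j (Fin.le_def.2 (by omega)))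
  have hv' : ∀ a ∈ code v, (i : ℕ) ≤ a := by
    intro a ha
    obtain ⟨j, rfl, hj⟩ := mem_code.1 ha
    by_contra hc
    exact hj (hv j (Fin.le_def.2 (by omega)))
  have h1 : (code u ++ List.replicate m (i : ℕ) ++ code v).Pairwise (· ≤ ·) := by
    rw [List.pairwise_append, List.pairwise_append]
    refine ⟨⟨code_sorted u, ?_, fun a ha b hb => ?_⟩, code_sorted v, fun a ha b hb => ?_⟩
    · rw [List.pairwise_replicate]
      exact Or.inr le_rfl
    · rw [List.eq_of_mem_replicate hb]
      exact hu' a ha
    · rcases List.mem_append.1 ha with ha | ha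
      · exact (hu' a ha).trans (hv' b hb)
      · rw [List.eq_of_mem_replicate ha]
        exact hv' b hb
  have h2 : ∀ a ∈ code u ++ List.replicate m (i : ℕ) ++ code v, a < k := by
    intro a ha
    rcases List.mem_append.1 ha with ha | ha
    · rcases List.mem_append.1 ha with ha | ha
      · exact lt_of_le_of_lt (hu' a ha) i.2
      · rw [List.eq_of_mem_replicate ha]
        exact i.2
    · obtain ⟨j, rfl, _⟩ := mem_code.1 ha
      exact j.2
  rw [eq_code h1 h2]
  congr 1
  funext l
  rw [List.count_append, List.count_append, count_code, count_code]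
  by_cases hl : l = i
  · subst hl
    rw [Function.update_self, List.count_replicate_self, hu l le_rfl, hv l le_rfl]
    omega
  · have h3 : (List.replicate m (i : ℕ)).count (l : ℕ) = 0 := by
      rw [List.count_eq_zero]
      intro h4
      exact hl (Fin.ext (List.eq_of_mem_replicate h4))
    rw [Function.update_of_ne hl, h3, Nat.add_zero]
    rfl

theorem code_flatMap {k : ℕ} (n : Fin k → ℕ) (h : ℕ → List ℕ) :
    (code n).flatMap h =
      (List.ofFn fun i : Fin k => (List.replicate (n i) (h (i : ℕ))).flatten).flatten := by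
  unfold code
  rw [List.flatMap_def, List.map_flatten, List.map_ofFn, List.flatten_flatten, List.map_ofFn]
  congr 1
  congr 1
  funext i
  simp only [Function.comp_apply, List.map_replicate]

end Pool.Agent.Lib.BCC
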