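import Pool.Agent.Lib.F1c4.Final

/-!
# Bounded languages in minimal rational cones: definitions (MP_f1c4ef_lc)
-/

set_option autoImplicit false

namespace Pool.Agent.Lib.BCC

open Pool.Agent.Lib.F1c4

/-- the word `0 ^ (n 0) 1 ^ (n 1) ... (k - 1) ^ (n (k - 1))` -/
def code {k : ℕ} (n : Fin k → ℕ) : List ℕ :=
  (List.ofFn fun i : Fin k => List.replicate (n i) (i : ℕ)).flatten

/-- the language of the words `code n`, `n ∈ S` -/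
def LS {k : ℕ} (S : Set (Fin k → ℕ)) : Language ℕ := {w : List ℕ | ∃ n ∈ S, w = code n}

/-- recognizable sets: a common threshold `N` and a common period `p` in all coordinates -/
def Rec {k : ℕ} (S : Set (Fin k → ℕ)) : Prop :=
  ∃ N p : ℕ, 0 < p ∧ ∀ (n : Fin k → ℕ) (i : Fin k), N ≤ n i →
    (n ∈ S ↔ Function.update n i (n i + p) ∈ S)

/-- `S` is downward closed in the coordinate `i` -/
def DownAt {k : ℕ} (i : Fin k) (S : Set (Fin k → ℕ)) : Prop :=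
  ∀ n ∈ S, ∀ m ≤ n i, Function.update n i m ∈ S

/-- the elements of `S` vanish outside `Z` -/
def SuppIn {k : ℕ} (Z : Finset (Fin k)) (S : Set (Fin k → ℕ)) : Prop :=
  ∀ n ∈ S, ∀ i ∉ Z, n i = 0

/-- vectors supported on the coordinates `< i` -/
def Low {k : ℕ} (i : Fin k) (U : Set (Fin k → ℕ)) : Prop := ∀ u ∈ U, ∀ l, i ≤ l → u l = 0

/-- vectors supported on the coordinates `> i` -/
def High {k : ℕ} (i : Fin k) (V : Set (Fin k → ℕ)) : Prop := ∀ v ∈ V, ∀ l, l ≤ i → v l = 0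

/-- downward closed and closed under suprema -/
def Ideal {k : ℕ} (U : Set (Fin k → ℕ)) : Prop :=
  (∀ u ∈ U, ∀ u', u' ≤ u → u' ∈ U) ∧ ∀ u ∈ U, ∀ u' ∈ U, u ⊔ u' ∈ U

/-- families of sets of vectors closed under certain operations, with the two uniformity principles
`last` and `two` -/
structure Fam {k : ℕ} (G : Set (Set (Fin k → ℕ))) : Prop where
  inter : ∀ S ∈ G, ∀ K, Rec K → S ∩ K ∈ G
  down : ∀ S ∈ G, ∀ i, {n | ∃ m, n i ≤ m ∧ Function.update n i m ∈ S} ∈ G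
  aff : ∀ S ∈ G, ∀ i, ∀ a q : ℕ, 0 < q → {n | Function.update n i (a + q * n i) ∈ S} ∈ G
  sec : ∀ S ∈ G, ∀ i, ∀ a : ℕ, {n | n i = 0 ∧ Function.update n i a ∈ S} ∈ G
  last : ∀ S ∈ G, ∀ (i : Fin k) (U : Set (Fin k → ℕ)), Rec U → Low i U →
    (∀ m : ℕ, Rec {n | n ∈ U ∧ Function.update n i m ∈ S}) →
    (∀ u ∈ U, ∃ M, ∀ m, M ≤ m → Function.update u i m ∈ S) →
    ∃ m, ∀ u ∈ U, Function.update u i m ∈ S
  two : ∀ S ∈ G, ∀ (i : Fin k) (U V : Set (Fin k → ℕ)), Rec U → Rec V → Low i U → High i V →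
    Ideal U →
    (∀ u ∈ U, ∀ u', u' ≤ u → ∀ v ∈ V, ∀ m, Function.update (u + v) i m ∈ S →
      Function.update (u' + v) i m ∈ S) →
    (∀ m : ℕ, Rec {n | ∃ u ∈ U, ∃ v ∈ V, n = u + v ∧ Function.update n i m ∈ S}) →
    (∀ v ∈ V, ∃ M, ∀ u ∈ U, ∀ m, M ≤ m → Function.update (u + v) i m ∈ S) →
    ∃ m, ∀ u ∈ U, ∀ v ∈ V, Function.update (u + v) i m ∈ S

/-- the hypotheses of the two-sided principle: `X` is a set of words over `Δ`, `R x j` a set of words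
over `Γ` -/
structure Hyp2 (Δ Γ : Finset ℕ) (b c : ℕ) (X : Language ℕ) (R : List ℕ → ℕ → Language ℕ) : Prop where
  bD : b ∉ Δ
  bG : b ∉ Γ
  cD : c ∉ Δ
  cG : c ∉ Γ
  cb : c ≠ b
  dis : Disjoint Δ Γ
  ovX : ∀ x ∈ X, Ov Δ x
  ovR : ∀ x j, ∀ u ∈ R x j, Ov Γ u
  regX : X.IsRegular
  reg : ∀ j, Language.IsRegular ({w : List ℕ | ∃ x ∈ X, ∃ u ∈ R x j, w = x ++ [c] ++ u} : Language ℕ)
  mono : ∀ x ∈ X, ∀ x' ∈ X, x'.Sublist x → ∀ j, ∀ u ∈ R x' j, u ∈ R x j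
  ne : ∀ m, ∃ x ∈ X, ∃ u : ℕ → List ℕ, ∀ l < m, u l ∈ R x l
  fin : ∀ u : List ℕ, ∃ M, ∀ x ∈ X, ∀ j, M ≤ j → u ∉ R x j

/-- the words `x b ^ j u`, `x ∈ X`, `u` over `Γ`, `u ∉ R x j` -/
def LR2 (Γ : Finset ℕ) (b : ℕ) (X : Language ℕ) (R : List ℕ → ℕ → Language ℕ) : Language ℕ :=
  {w : List ℕ | ∃ x ∈ X, ∃ (j : ℕ) (u : List ℕ), Ov Γ u ∧ u ∉ R x j ∧
    w = x ++ List.replicate j b ++ u}

/-- the words `x c s` with `x ∈ X` and `s` over `Γ` and `b` in which some complete block of `s`, with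
`i` letters `b` before it, is not in `R x i` -/
def BR2 (Γ : Finset ℕ) (b c : ℕ) (X : Language ℕ) (R : List ℕ → ℕ → Language ℕ) : Language ℕ :=
  {w : List ℕ | ∃ x ∈ X, ∃ p u s : List ℕ, (p = [] ∨ ∃ p', p = p' ++ [b]) ∧ Ov (insert b Γ) p ∧
    Ov Γ u ∧ Ov (insert b Γ) s ∧ u ∉ R x (p.count b) ∧ w = x ++ [c] ++ p ++ u ++ [b] ++ s}

/-- the same with at most `ν` letters `b` before the block -/
def VR2 (Γ : Finset ℕ) (b c : ℕ) (X : Language ℕ) (R : List ℕ → ℕ → Language ℕ) (ν : ℕ) :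
    Language ℕ :=
  {w : List ℕ | ∃ x ∈ X, ∃ p u s : List ℕ, (p = [] ∨ ∃ p', p = p' ++ [b]) ∧ Ov (insert b Γ) p ∧
    Ov Γ u ∧ Ov (insert b Γ) s ∧ p.count b ≤ ν ∧ u ∉ R x (p.count b) ∧
    w = x ++ [c] ++ p ++ u ++ [b] ++ s}

/-- the words `x c s` with `x ∈ X` and `s` over `Γ` and `b` -/
def WF2 (Γ : Finset ℕ) (b c : ℕ) (X : Language ℕ) : Language ℕ :=
  {w : List ℕ | ∃ x ∈ X, ∃ s : List ℕ, Ov (insert b Γ) s ∧ w = x ++ [c] ++ s}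

end Pool.Agent.Lib.BCC
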