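import Pool.Agent.Lib.BCC.Defs

/-!
# Module BCC.DelR: `delP` with an arbitrary start of the automaton (MP_f1c4ef_lc)

PROOF: copy the proof of `delP` (F1c4.DelP) with `r` in place of `M.start` (`DelPAux.lift`, `DelPAux.proj` hold for all states); the constant `C` comes from `del` for the product graph and does not depend on `r`.
-/

set_option autoImplicit false

namespace Pool.Agent.Lib.BCC

open Pool.Agent.Lib.F1c4 Pool.Agent.Lib.F1c4.DelPAux

theorem delR {σ E τ : Type} [Finite σ] [Finite τ] (src tgt : E → σ) (inp : E → List ℕ) (b : ℕ)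
    (M : DFA ℕ τ) (w : E → ℕ) (ℓ D : ℕ) (hℓ0 : 0 < ℓ) (hℓ : ∀ e, w e ≤ ℓ)
    (hD : ∀ l, 1 ≤ l → l ≤ ℓ * (Nat.card (σ × τ) + 2) → l ∣ D) :
    ∃ C : ℕ, ∀ (r : τ) (p q : σ) (es : List E), IsPath src tgt p es q → C ≤ (es.map w).sum →
      (∀ x y z : List E, ∀ s : σ, es = x ++ y ++ z → IsPath src tgt s y s →
        (y.flatMap inp).count b = 0) →
      ∃ es' : List E, IsPath src tgt p es' q ∧ es'.Sublist es ∧
        (es'.map w).sum + D = (es.map w).sum ∧
        (es'.flatMap inp).count b = (es.flatMap inp).count b ∧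
        M.evalFrom r (es'.flatMap inp) = M.evalFrom r (es.flatMap inp) := by
  obtain ⟨C, hC⟩ := del (src2 (τ := τ) src) (tgt2 tgt inp M) (fun x : E × τ => w x.1) ℓ D hℓ0
    (fun x => hℓ x.1) hD
  refine ⟨C, fun r p q es h hw hv => ?_⟩
  obtain ⟨es2, h1, h2⟩ := lift (M := M) (inp := inp) es p q r h
  obtain ⟨es2', h3, h4, h5, h6⟩ := hC _ _ es2 h1 (by rw [weight_sum, h2]; exact hw)
  obtain ⟨h7, h8⟩ := proj es2' p q r _ h3
  refine ⟨es2'.map Prod.fst, h7, ?_, ?_, ?_, h8.symm⟩
  · rw [← h2]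
    exact h4.map _
  · rw [weight_sum, weight_sum, h2] at h5
    exact h5
  · have h9 := h6 (fun x => (inp x.1).count b) (fun x y z s e hy => by
      rw [count_sum]
      obtain ⟨s1, s2⟩ := s
      refine hv (x.map Prod.fst) (y.map Prod.fst) (z.map Prod.fst) s1 ?_ (proj y s1 s1 s2 s2 hy).1
      rw [← h2, e, List.map_append, List.map_append])
    rw [count_sum, count_sum, h2] at h9
    exact h9

end Pool.Agent.Lib.BCC
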