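import Pool.Agent.Lib.BCC.Code
import Pool.Agent.Lib.BCC.RegOf

/-!
# Module BCC.FamOpsB: operations on the sets `S` with `LS S` in a cone (MP_f1c4ef_lc)

PROOF. Both are `nivat` (F1c4.Mem) with the extra letters `k` and `k + 1`: `K` is the language of the words
`u ++ [k] ++ P ++ [k + 1] ++ v` with `u` over the letters `< i`, `v` over the letters `l`, `i < l < k`, and `P` over `Δ`, where
`Δ = ∅` (`fam_sec`) or `Δ = {i}` (`fam_aff`); `φ k = i ^ a`, `φ i = i ^ q`, `φ (k + 1) = []`, `h k = h (k + 1) = []`, all other letters are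
kept. For `P = i ^ j` one gets `t.flatMap φ = u ++ i ^ (a + q * j) ++ v` and `t.flatMap h = u ++ i ^ j ++ v`.
-/

set_option autoImplicit false

namespace Pool.Agent.Lib.BCC

open Pool.Agent.Lib.F1c4

variable {k : ℕ}

namespace FamOpsBAux

/-- the language of the words `u ++ [c] ++ v` -/
def Kc (c : ℕ) (A B : Language ℕ) : Language ℕ :=
  {w : List ℕ | ∃ u ∈ A, ∃ v ∈ B, w = u ++ [c] ++ v}

/-- the words over `Γ` -/
def W (Γ : Finset ℕ) : Language ℕ := {w : List ℕ | Ov Γ w}

/-- letters below `i` -/
def lo (i : Fin k) : Finset ℕ := Finset.range (i : ℕ)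

/-- letters above `i` -/
def hi (i : Fin k) : Finset ℕ := (Finset.range k).filter fun l => (i : ℕ) < l

/-- the language `K` -/
def K (i : Fin k) (Δ : Finset ℕ) : Language ℕ := Kc k (W (lo i)) (Kc (k + 1) (W Δ) (W (hi i)))

theorem mem_K {i : Fin k} {Δ : Finset ℕ} {t : List ℕ} : t ∈ K i Δ ↔
    ∃ u P v : List ℕ, Ov (lo i) u ∧ Ov Δ P ∧ Ov (hi i) v ∧ t = u ++ [k] ++ (P ++ [k + 1] ++ v) := by
  constructor
  · rintro ⟨u, hu, s, ⟨P, hP, v, hv, rfl⟩, rfl⟩
    exact ⟨u, P, v, hu, hP, hv, rfl⟩
  · rintro ⟨u, P, v, hu, hP, hv, rfl⟩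
    exact ⟨u, hu, _, ⟨P, hP, v, hv, rfl⟩, rfl⟩

theorem K_rat (i : Fin k) {Δ : Finset ℕ} (hΔ : Δ ⊆ {(i : ℕ)}) : Rat (K i Δ) := by
  refine ⟨?_, insert k (lo i ∪ insert (k + 1) (Δ ∪ hi i)), ?_⟩
  · refine cat_reg k (star_reg (lo i)) (cat_reg (k + 1) (star_reg Δ) (star_reg (hi i)) ?_) ?_
    · intro P hP h
      have h1 := hΔ (hP _ h)
      rw [Finset.mem_singleton] at h1
      have := i.2
      omega
    · intro u hu h
      have h1 := hu _ h
      rw [lo, Finset.mem_range] at h1
      have := i.2
      omega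
  · intro t ht a ha
    obtain ⟨u, P, v, hu, hP, hv, rfl⟩ := mem_K.1 ht
    simp only [List.mem_append, List.mem_singleton] at ha
    simp only [Finset.mem_insert, Finset.mem_union]
    rcases ha with (h | h) | (h | h) | h
    · exact Or.inr (Or.inl (hu a h))
    · exact Or.inl h
    · exact Or.inr (Or.inr (Or.inr (Or.inl (hP a h))))
    · exact Or.inr (Or.inr (Or.inl h))
    · exact Or.inr (Or.inr (Or.inr (Or.inr (hv a h))))

/-- the morphism `φ` -/
def ph (k i a q : ℕ) (l : ℕ) : List ℕ :=
  if l = k then List.replicate a i else if l = k + 1 then [] else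
    if l = i then List.replicate q i else [l]

/-- the morphism `h` -/
def hh (k : ℕ) (l : ℕ) : List ℕ := if l = k then [] else if l = k + 1 then [] else [l]

theorem flat_keep {f : ℕ → List ℕ} {v : List ℕ} (h : ∀ a ∈ v, f a = [a]) : v.flatMap f = v := by
  induction v with
  | nil => rfl
  | cons a v ih =>
    rw [List.flatMap_cons, h a List.mem_cons_self, ih fun b hb => h b (List.mem_cons_of_mem _ hb)]
    rfl

theorem flat_rep {f : ℕ → List ℕ} {i q : ℕ} (h : f i = List.replicate q i) (j : ℕ) :
    (List.replicate j i).flatMap f = List.replicate (q * j) i := by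
  induction j with
  | zero => simp
  | succ j ih =>
    rw [List.replicate_succ, List.flatMap_cons, ih, h, ← List.replicate_add]
    congr 1
    ring

theorem ph_t {i : Fin k} (a q j : ℕ) {u v : List ℕ} (hu : Ov (lo i) u) (hv : Ov (hi i) v) :
    (u ++ [k] ++ (List.replicate j (i : ℕ) ++ [k + 1] ++ v)).flatMap (ph k i a q) =
      u ++ List.replicate (a + q * j) (i : ℕ) ++ v := by
  have hi := i.2
  have h1 : u.flatMap (ph k i a q) = u := flat_keep fun b hb => by
    have h := hu b hb
    rw [lo, Finset.mem_range] at h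
    rw [ph, if_neg (by omega), if_neg (by omega), if_neg (by omega)]
  have h2 : v.flatMap (ph k i a q) = v := flat_keep fun b hb => by
    have h := hv b hb
    rw [FamOpsBAux.hi, Finset.mem_filter, Finset.mem_range] at h
    rw [ph, if_neg (by omega), if_neg (by omega), if_neg (by omega)]
  have h3 : (List.replicate j (i : ℕ)).flatMap (ph k i a q) = List.replicate (q * j) (i : ℕ) :=
    flat_rep (by rw [ph, if_neg (by omega), if_neg (by omega), if_pos rfl]) j
  have h4 : [k].flatMap (ph k i a q) = List.replicate a (i : ℕ) := by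
    rw [List.flatMap_singleton, ph, if_pos rfl]
  have h5 : [k + 1].flatMap (ph k i a q) = [] := by
    rw [List.flatMap_singleton, ph, if_neg (by omega), if_pos rfl]
  rw [List.flatMap_append, List.flatMap_append, List.flatMap_append, List.flatMap_append, h1, h2,
    h3, h4, h5, List.append_nil, List.replicate_add]
  simp only [List.append_assoc]

theorem hh_t {i : Fin k} (j : ℕ) {u v : List ℕ} (hu : Ov (lo i) u) (hv : Ov (hi i) v) :
    (u ++ [k] ++ (List.replicate j (i : ℕ) ++ [k + 1] ++ v)).flatMap (hh k) =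
      u ++ List.replicate j (i : ℕ) ++ v := by
  have hi := i.2
  have h1 : u.flatMap (hh k) = u := flat_keep fun b hb => by
    have h := hu b hb
    rw [lo, Finset.mem_range] at h
    rw [hh, if_neg (by omega), if_neg (by omega)]
  have h2 : v.flatMap (hh k) = v := flat_keep fun b hb => by
    have h := hv b hb
    rw [FamOpsBAux.hi, Finset.mem_filter, Finset.mem_range] at h
    rw [hh, if_neg (by omega), if_neg (by omega)]
  have h3 : (List.replicate j (i : ℕ)).flatMap (hh k) = List.replicate j (i : ℕ) :=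
    flat_keep fun b hb => by
      rw [List.eq_of_mem_replicate hb, hh, if_neg (by omega), if_neg (by omega)]
  have h4 : [k].flatMap (hh k) = [] := by
    rw [List.flatMap_singleton, hh, if_pos rfl]
  have h5 : [k + 1].flatMap (hh k) = [] := by
    rw [List.flatMap_singleton, hh, if_neg (by omega), if_pos rfl]
  rw [List.flatMap_append, List.flatMap_append, List.flatMap_append, List.flatMap_append, h1, h2,
    h3, h4, h5, List.append_nil, List.append_nil]
  simp only [List.append_assoc]

/-- the part of `n` below `i` -/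
def nlo (i : Fin k) (n : Fin k → ℕ) : Fin k → ℕ := fun l => if l < i then n l else 0

/-- the part of `n` above `i` -/
def nhi (i : Fin k) (n : Fin k → ℕ) : Fin k → ℕ := fun l => if i < l then n l else 0

theorem nlo_zero {i : Fin k} {n : Fin k → ℕ} (l : Fin k) (h : i ≤ l) : nlo i n l = 0 :=
  if_neg (not_lt.2 h)

theorem nhi_zero {i : Fin k} {n : Fin k → ℕ} (l : Fin k) (h : l ≤ i) : nhi i n l = 0 :=
  if_neg (not_lt.2 h)

theorem split (i : Fin k) (n : Fin k → ℕ) (m : ℕ) :
    Function.update (nlo i n + nhi i n) i m = Function.update n i m := by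
  funext l
  by_cases h : l = i
  · subst h
    rw [Function.update_self, Function.update_self]
  · rw [Function.update_of_ne h, Function.update_of_ne h, Pi.add_apply]
    rcases lt_or_gt_of_ne h with h1 | h1
    · rw [nlo, nhi, if_pos h1, if_neg (not_lt.2 h1.le), add_zero]
    · rw [nlo, nhi, if_neg (not_lt.2 h1.le), if_pos h1, zero_add]

theorem code_lo {i : Fin k} {n : Fin k → ℕ} : Ov (lo i) (code (nlo i n)) := by
  intro a ha
  obtain ⟨l, rfl, hl⟩ := mem_code.1 ha
  rw [lo, Finset.mem_range]
  by_contra h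
  exact hl (nlo_zero l (not_lt.1 h))

theorem code_hi {i : Fin k} {n : Fin k → ℕ} : Ov (hi i) (code (nhi i n)) := by
  intro a ha
  obtain ⟨l, rfl, hl⟩ := mem_code.1 ha
  rw [hi, Finset.mem_filter, Finset.mem_range]
  refine ⟨l.2, ?_⟩
  by_contra h
  exact hl (nhi_zero l (not_lt.1 h))

theorem gen {F : Set (Language ℕ)} (hF : IsCone F) {S : Set (Fin k → ℕ)}
    (hS : LS S ∈ F) (i : Fin k) (a q : ℕ) {Δ : Finset ℕ} (hΔ : Δ ⊆ {(i : ℕ)}) :
    LS {n | (n i ≠ 0 → (i : ℕ) ∈ Δ) ∧ Function.update n i (a + q * n i) ∈ S} ∈ F := by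
  have h := nivat hF hS (K_rat i hΔ) (ph k i a q) (hh k)
  have he : LS {n | (n i ≠ 0 → (i : ℕ) ∈ Δ) ∧ Function.update n i (a + q * n i) ∈ S} =
      ({w : List ℕ | ∃ t ∈ K i Δ, t.flatMap (ph k i a q) ∈ LS S ∧ w = t.flatMap (hh k)} :
        Language ℕ) := by
    ext w
    constructor
    · rintro ⟨n, ⟨hn1, hn2⟩, rfl⟩
      refine ⟨code (nlo i n) ++ [k] ++ (List.replicate (n i) (i : ℕ) ++ [k + 1] ++
        code (nhi i n)), mem_K.2 ⟨_, _, _, code_lo, ?_, code_hi, rfl⟩, ?_, ?_⟩
      · intro b hb
        rw [List.mem_replicate] at hb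
        rw [hb.2]
        exact hn1 hb.1
      · rw [ph_t a q (n i) code_lo code_hi, ← code_upd nlo_zero nhi_zero, split]
        exact mem_LS.2 hn2
      · rw [hh_t (n i) code_lo code_hi, ← code_upd nlo_zero nhi_zero, split,
          Function.update_eq_self]
    · rintro ⟨t, ht, h1, rfl⟩
      obtain ⟨u, P, v, hu, hP, hv, rfl⟩ := mem_K.1 ht
      obtain ⟨j, rfl⟩ : ∃ j, P = List.replicate j (i : ℕ) :=
        ⟨P.length, List.eq_replicate_iff.2 ⟨rfl, fun b hb => by
          have h2 := hΔ (hP b hb)
          rwa [Finset.mem_singleton] at h2⟩⟩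
      rw [ph_t a q j hu hv] at h1
      rw [hh_t j hu hv]
      obtain ⟨m, hm, h2⟩ := h1
      have h3 := code_sorted m
      rw [← h2, List.pairwise_append, List.pairwise_append] at h3
      have hik := i.2
      have h4 : u = code (fun l : Fin k => u.count (l : ℕ)) := eq_code h3.1.1 fun b hb => by
        have h5 := hu b hb
        rw [lo, Finset.mem_range] at h5
        omega
      have h6 : v = code (fun l : Fin k => v.count (l : ℕ)) := eq_code h3.2.1 fun b hb => by
        have h5 := hv b hb
        rw [hi, Finset.mem_filter, Finset.mem_range] at h5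
        exact h5.1
      have h7 : ∀ l : Fin k, i ≤ l → (fun l : Fin k => u.count (l : ℕ)) l = 0 := by
        intro l hl
        refine List.count_eq_zero_of_not_mem fun h8 => ?_
        have h5 := hu _ h8
        rw [lo, Finset.mem_range] at h5
        have h9 : (i : ℕ) ≤ l := hl
        omega
      have h8 : ∀ l : Fin k, l ≤ i → (fun l : Fin k => v.count (l : ℕ)) l = 0 := by
        intro l hl
        refine List.count_eq_zero_of_not_mem fun h8 => ?_
        have h5 := hv _ h8
        rw [hi, Finset.mem_filter, Finset.mem_range] at h5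
        have h9 : (l : ℕ) ≤ i := hl
        omega
      have h9 := code_upd h7 h8
      rw [← h4, ← h6] at h9
      refine ⟨Function.update ((fun l : Fin k => u.count (l : ℕ)) +
        (fun l : Fin k => v.count (l : ℕ))) i j, ⟨?_, ?_⟩, (h9 j).symm⟩
      · intro h10
        rw [Function.update_self] at h10
        exact hP _ (List.mem_replicate.2 ⟨h10, rfl⟩)
      · rw [Function.update_self, Function.update_idem]
        rw [← h9] at h2
        rw [code_inj h2]
        exact hm
  rw [he]
  exact h

end FamOpsBAux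

open FamOpsBAux

theorem fam_sec {F : Set (Language ℕ)} (hF : IsCone F) {S : Set (Fin k → ℕ)}
    (hS : LS S ∈ F) (i : Fin k) (a : ℕ) :
    LS {n | n i = 0 ∧ Function.update n i a ∈ S} ∈ F := by
  have h := gen hF hS i a 0 (Finset.empty_subset _)
  have he : {n : Fin k → ℕ | (n i ≠ 0 → (i : ℕ) ∈ (∅ : Finset ℕ)) ∧
      Function.update n i (a + 0 * n i) ∈ S} = {n | n i = 0 ∧ Function.update n i a ∈ S} := by
    ext n
    simp only [Set.mem_ofPred_eq, Finset.notMem_empty, imp_false, not_not, zero_mul, add_zero]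
  rw [← he]
  exact h

theorem fam_aff {F : Set (Language ℕ)} (hF : IsCone F) {S : Set (Fin k → ℕ)}
    (hS : LS S ∈ F) (i : Fin k) (a q : ℕ) (hq : 0 < q) :
    LS {n | Function.update n i (a + q * n i) ∈ S} ∈ F := by
  have h := gen hF hS i a q (Finset.Subset.refl {(i : ℕ)})
  have he : {n : Fin k → ℕ | (n i ≠ 0 → (i : ℕ) ∈ ({(i : ℕ)} : Finset ℕ)) ∧
      Function.update n i (a + q * n i) ∈ S} = {n | Function.update n i (a + q * n i) ∈ S} := by
    ext n
    simp only [Set.mem_ofPred_eq, Finset.mem_singleton, implies_true, true_and]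
  rw [← he]
  exact h

end Pool.Agent.Lib.BCC
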