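import Pool.Agent.Lib.BCC.FamOpsA
import Pool.Agent.Lib.BCC.FamOpsB

/-!
# Operations on the sets `S` with `LS S` in a cone: collection (MP_f1c4ef_lc)
-/
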