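import Pool.Agent.Lib.BCC.Code
import Pool.Agent.Lib.BCC.RegOf

/-!
# Module BCC.FamOpsA: operations on the sets `S` with `LS S` in a cone (MP_f1c4ef_lc)

PROOF. `fam_inter`: `LS (S ∩ K)` is the intersection of `LS S` and `LS K` (`code_inj`), `rec_rat`.
`fam_down`: `nivat` (F1c4.Mem) with the extra letter `k` and the characterisation `mem_LS_iff` (sorted, letters
`< k`, counts in `S`): `K` = all words over `{0, ..., k}` (`star_reg`), `φ i = [i]`, `φ k = [i]`, `h i = [i]`,
`h k = []`, all other letters are kept. If `t.flatMap φ` is sorted with counts `n' ∈ S`, then `t.flatMap h` is a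
sublist of it, so it is sorted, and its counts `n` agree with `n'` outside `i` and `n i ≤ n' i`; conversely for
`n`, `m ≥ n i` with `update n i m ∈ S` take `t` = `code n` with `m - n i` letters `k` inserted behind the block
of `i`.
-/

set_option autoImplicit false

namespace Pool.Agent.Lib.BCC

open Pool.Agent.Lib.F1c4

variable {k : ℕ}

namespace FamOpsAAux

/-- the morphism `φ` -/
def ph (k i : ℕ) (l : ℕ) : List ℕ := if l = k then [i] else [l]

/-- the morphism `h` -/
def hh (k : ℕ) (l : ℕ) : List ℕ := if l = k then [] else [l]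

/-- the words over `Γ` -/
def W (Γ : Finset ℕ) : Language ℕ := {w : List ℕ | Ov Γ w}

theorem W_rat (Γ : Finset ℕ) : Rat (W Γ) := ⟨star_reg Γ, Γ, fun _ hw => hw⟩

theorem flat_keep {f : ℕ → List ℕ} {v : List ℕ} (h : ∀ a ∈ v, f a = [a]) : v.flatMap f = v := by
  induction v with
  | nil => rfl
  | cons a v ih =>
    rw [List.flatMap_cons, h a List.mem_cons_self, ih fun b hb => h b (List.mem_cons_of_mem _ hb)]
    rfl

theorem flat_rep {f : ℕ → List ℕ} {i c q : ℕ} (h : f c = List.replicate q i) (j : ℕ) :
    (List.replicate j c).flatMap f = List.replicate (q * j) i := by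
  induction j with
  | zero => simp
  | succ j ih =>
    rw [List.replicate_succ, List.flatMap_cons, ih, h, ← List.replicate_add]
    congr 1
    ring

theorem sub (k i : ℕ) (t : List ℕ) : (t.flatMap (hh k)).Sublist (t.flatMap (ph k i)) := by
  induction t with
  | nil => simp
  | cons a t ih =>
    rw [List.flatMap_cons, List.flatMap_cons]
    refine List.Sublist.append ?_ ih
    unfold hh ph
    split_ifs
    · exact List.nil_sublist _
    · exact List.Sublist.refl _

theorem cnt (k i l : ℕ) (hl : l ≠ i) (t : List ℕ) :
    (t.flatMap (ph k i)).count l = (t.flatMap (hh k)).count l := by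
  induction t with
  | nil => simp
  | cons a t ih =>
    rw [List.flatMap_cons, List.flatMap_cons, List.count_append, List.count_append, ih]
    have h1 : (ph k i a).count l = (hh k a).count l := by
      unfold hh ph
      split_ifs
      · rw [List.count_nil, List.count_singleton, if_neg]
        simpa using fun h : i = l => hl h.symm
      · rfl
    rw [h1]

/-- the part of `n` below `i` -/
def nlo (i : Fin k) (n : Fin k → ℕ) : Fin k → ℕ := fun l => if l < i then n l else 0

/-- the part of `n` above `i` -/
def nhi (i : Fin k) (n : Fin k → ℕ) : Fin k → ℕ := fun l => if i < l then n l else 0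

theorem nlo_zero {i : Fin k} {n : Fin k → ℕ} (l : Fin k) (h : i ≤ l) : nlo i n l = 0 :=
  if_neg (not_lt.2 h)

theorem nhi_zero {i : Fin k} {n : Fin k → ℕ} (l : Fin k) (h : l ≤ i) : nhi i n l = 0 :=
  if_neg (not_lt.2 h)

theorem split (i : Fin k) (n : Fin k → ℕ) (m : ℕ) :
    Function.update (nlo i n + nhi i n) i m = Function.update n i m := by
  funext l
  by_cases h : l = i
  · subst h
    rw [Function.update_self, Function.update_self]
  · rw [Function.update_of_ne h, Function.update_of_ne h, Pi.add_apply]
    rcases lt_or_gt_of_ne h with h1 | h1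
    · rw [nlo, nhi, if_pos h1, if_neg (not_lt.2 h1.le), add_zero]
    · rw [nlo, nhi, if_neg (not_lt.2 h1.le), if_pos h1, zero_add]

theorem lt_code {n : Fin k → ℕ} {a : ℕ} (ha : a ∈ code n) : a < k := by
  obtain ⟨l, rfl, -⟩ := mem_code.1 ha
  exact l.2

theorem ph_code (i : Fin k) (n : Fin k → ℕ) : (code n).flatMap (ph k i) = code n :=
  flat_keep fun a ha => by rw [ph, if_neg (lt_code ha).ne]

theorem hh_code (n : Fin k → ℕ) : (code n).flatMap (hh k) = code n :=
  flat_keep fun a ha => by rw [hh, if_neg (lt_code ha).ne]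

end FamOpsAAux

open FamOpsAAux

theorem fam_inter {F : Set (Language ℕ)} (hF : IsCone F) {S K : Set (Fin k → ℕ)}
    (hS : LS S ∈ F) (hK : Rec K) : LS (S ∩ K) ∈ F := by
  have h := hF.inter _ hS (LS K) (rec_rat hK)
  have he : LS (S ∩ K) = ({w : List ℕ | w ∈ LS S ∧ w ∈ LS K} : Language ℕ) := by
    ext w
    constructor
    · rintro ⟨n, hn, rfl⟩
      exact ⟨⟨n, hn.1, rfl⟩, ⟨n, hn.2, rfl⟩⟩
    · rintro ⟨⟨n, hn, rfl⟩, h2⟩
      exact ⟨n, ⟨hn, mem_LS.1 h2⟩, rfl⟩
  rw [he]
  exact h

theorem fam_down {F : Set (Language ℕ)} (hF : IsCone F) {S : Set (Fin k → ℕ)}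
    (hS : LS S ∈ F) (i : Fin k) :
    LS {n | ∃ m, n i ≤ m ∧ Function.update n i m ∈ S} ∈ F := by
  have h := nivat hF hS (W_rat (Finset.range (k + 1))) (ph k i) (hh k)
  have he : LS {n | ∃ m, n i ≤ m ∧ Function.update n i m ∈ S} =
      ({w : List ℕ | ∃ t ∈ W (Finset.range (k + 1)), t.flatMap (ph k i) ∈ LS S ∧
        w = t.flatMap (hh k)} : Language ℕ) := by
    ext w
    constructor
    · rintro ⟨n, ⟨m, hm, hn⟩, rfl⟩
      have hi := i.2
      refine ⟨code (nlo i n) ++ (List.replicate (n i) (i : ℕ) ++
        List.replicate (m - n i) k) ++ code (nhi i n), ?_, ?_, ?_⟩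
      · intro a ha
        rw [Finset.mem_range]
        rw [List.mem_append, List.mem_append, List.mem_append] at ha
        rcases ha with (ha | ha | ha) | ha
        · exact Nat.lt_succ_of_lt (lt_code ha)
        · rw [List.eq_of_mem_replicate ha]
          omega
        · rw [List.eq_of_mem_replicate ha]
          omega
        · exact Nat.lt_succ_of_lt (lt_code ha)
      · rw [List.flatMap_append, List.flatMap_append, List.flatMap_append, ph_code, ph_code,
          flat_keep (v := List.replicate (n i) (i : ℕ)) (fun a ha => by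
            rw [List.eq_of_mem_replicate ha, ph, if_neg hi.ne]),
          flat_rep (f := ph k i) (i := i) (c := k) (q := 1) (by rw [ph, if_pos rfl]; rfl),
          ← List.replicate_add, one_mul, Nat.add_sub_cancel' hm,
          ← code_upd nlo_zero nhi_zero, split]
        exact mem_LS.2 hn
      · rw [List.flatMap_append, List.flatMap_append, List.flatMap_append, hh_code, hh_code,
          flat_keep (v := List.replicate (n i) (i : ℕ)) (fun a ha => by
            rw [List.eq_of_mem_replicate ha, hh, if_neg hi.ne]),
          flat_rep (f := hh k) (i := i) (c := k) (q := 0) (by rw [hh, if_pos rfl]; rfl),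
          zero_mul, List.replicate_zero, List.append_nil,
          ← code_upd nlo_zero nhi_zero, split, Function.update_eq_self]
    · rintro ⟨t, -, h1, rfl⟩
      obtain ⟨h2, h3, h4⟩ := mem_LS_iff.1 h1
      have hs := sub k i t
      refine mem_LS_iff.2 ⟨h2.sublist hs, fun a ha => h3 a (hs.subset ha), ?_⟩
      refine ⟨(t.flatMap (ph k i)).count (i : ℕ), hs.count_le _, ?_⟩
      have h5 : Function.update (fun l : Fin k => (t.flatMap (hh k)).count (l : ℕ)) i
          ((t.flatMap (ph k i)).count (i : ℕ)) =
            fun l : Fin k => (t.flatMap (ph k i)).count (l : ℕ) := by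
        funext l
        by_cases hl : l = i
        · subst hl
          rw [Function.update_self]
        · rw [Function.update_of_ne hl]
          exact (cnt k i l (fun h6 => hl (Fin.ext h6)) t).symm
      rw [h5]
      exact h4
  rw [he]
  exact h

end Pool.Agent.Lib.BCC
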