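import Pool.Agent.Lib.BCC.PDefs

/-!
# Module BCC.Fire: firing a multiset of rules (MP_f1c4ef_lc)

PROOF of `fire`, induction on `x.card` (for all `M`). If `x = 0` the flow equation gives `M = 0`. If `M = 0` and `x ≠ 0`, reachability
(there is no `B ∈ M`) is contradictory. Otherwise let `A ∈ M`. As `A ∈ x.map lhs` (flow) there is a rule `r ∈ x` with `lhs r = A`. We show that `r` can be
chosen such that `M' = M - {A} + rhs r` and `x' = x.erase r` satisfy `Rch` again (the flow equation is clear; then use the induction hypothesis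
and `Run.cons`). Say that `A` survives if `A ∈ M - {A}` or some `T ∈ M'` reaches `A` in the graph of `x'`.
CLAIM 1: if no rule of `x'` has left side `A`, or `A` survives, then `Rch M' x'`. Let `r' ∈ x'`, `T ⇝ lhs r'` a path in the graph of `x`, `T ∈ M`. If the path does not
meet `A` (as a source of a step or as its end), then `T ≠ A`, `T ∈ M'` and all rules used have left side `≠ A`, so are in `x'`. Otherwise look at the last
vertex of the path equal to `A`. If it is the end, then `lhs r' = A` and `A` survives by assumption (first case impossible). If it is the source of a step with the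
rule `r''`, then the rest of the path after this step has only rules with left side `≠ A`, which are in `x'`. If `r'' ∈ x'`, then `A` survives (a rule of `x'` has left side
`A`), so `T' ⇝ A → ... ⇝ lhs r'` in the graph of `x'`. If `r'' ∉ x'`, then `r'' = r` (only `r` was removed), so the vertex after this step is in `rhs r`, so a token in `M'`.
(Do this by induction along the path, from its end backwards: `Relation.ReflTransGen.head_induction_on`: for every `C` with `C ⇝ lhs r'` in `x`:
either `C ⇝ lhs r'` in the graph of `x'`, or some token of `M'` reaches `lhs r'` in the graph of `x'`.)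
CLAIM 2: `r` can be chosen such that one of the two assumptions holds. If only one rule occurrence in `x` has left side `A`, take it. If `A` occurs
twice in `M`, take any. Otherwise `A` occurs once in `M` and at least twice in `x.map lhs`, so by the flow equation `A ∈ rhs t` for some `t ∈ x`, and a token `T ∈ M`
reaches `lhs t`, so `T ⇝ A` with at least one step (in the graph of `x`). Induction along this nonempty path from its end backwards gives: either there is a nonempty path from
`T` to `A` whose steps all have sources `≠ A` (then `T ≠ A`, `T ∈ M'`, all rules used are in `x'`: any `r` works), or there is a rule `r ∈ x` with `lhs r = A` and a vertex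
`B ∈ rhs r` with a path from `B` to `A` whose steps all have sources `≠ A`: this `r` works as `B ∈ M'` and the rules used are in `x'`.
-/

set_option autoImplicit false

namespace Pool.Agent.Lib.BCC

namespace FireAux

/-- one step whose source is not `A` -/
def NA {R N : Type} (lhs : R → N) (rhs : R → Multiset N) (x : Multiset R) (A B C : N) : Prop :=
  B ≠ A ∧ Stp lhs rhs x B C

/-- a path avoids the source `A`, or its part after the last step with the source `A` does -/
theorem decomp {R N : Type} {lhs : R → N} {rhs : R → Multiset N} {x : Multiset R} (A : N)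
    {C D : N} (h : Relation.ReflTransGen (Stp lhs rhs x) C D) :
    Relation.ReflTransGen (NA lhs rhs x A) C D ∨
      ∃ r ∈ x, lhs r = A ∧ ∃ B ∈ rhs r, Relation.ReflTransGen (NA lhs rhs x A) B D := by
  classical
  induction h using Relation.ReflTransGen.head_induction_on with
  | refl => exact Or.inl Relation.ReflTransGen.refl
  | @head C C1 h1 _ ih =>
    rcases ih with ih | ih
    · by_cases hC : C = A
      · obtain ⟨r, hr, hl, hB⟩ := h1
        exact Or.inr ⟨r, hr, hl.trans hC, C1, hB, ih⟩
      · exact Or.inl (Relation.ReflTransGen.head ⟨hC, h1⟩ ih)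
    · exact Or.inr ih

theorem na_start {R N : Type} {lhs : R → N} {rhs : R → Multiset N} {x : Multiset R} {A : N}
    {D : N} (h : Relation.ReflTransGen (NA lhs rhs x A) A D) : D = A := by
  rcases Relation.ReflTransGen.cases_head h with h | ⟨C, h, _⟩
  · exact h.symm
  · exact absurd rfl h.1

/-- steps with a source different from `A` survive the removal of a rule for `A` -/
theorem na_mono {R N : Type} {lhs : R → N} {rhs : R → Multiset N} {x x' : Multiset R} {A : N}
    {r : R} (hx : x = r ::ₘ x') (hr : lhs r = A) {C D : N}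
    (h : Relation.ReflTransGen (NA lhs rhs x A) C D) :
    Relation.ReflTransGen (Stp lhs rhs x') C D := by
  refine Relation.ReflTransGen.mono ?_ _ _ h
  rintro B E ⟨hB, q, hq, hl, hE⟩
  subst hx
  rcases Multiset.mem_cons.1 hq with rfl | hq
  · exact absurd (hl.symm.trans hr) hB
  · exact ⟨q, hq, hl, hE⟩

theorem claim1 {R N : Type} {lhs : R → N} {rhs : R → Multiset N} {M M0 : Multiset N}
    {x x' : Multiset R} {A : N} {r : R} (hx : x = r ::ₘ x') (hr : lhs r = A)
    (hM : M = A ::ₘ M0) (hR : Rch lhs rhs M x)
    (hs : (∀ q ∈ x', lhs q ≠ A) ∨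
      ∃ T ∈ M0 + rhs r, Relation.ReflTransGen (Stp lhs rhs x') T A) :
    Rch lhs rhs (M0 + rhs r) x' := by
  intro q hq
  have hq' : q ∈ x := by
    rw [hx]
    exact Multiset.mem_cons_of_mem hq
  have surv : ∀ q' ∈ x', lhs q' = A →
      ∃ T ∈ M0 + rhs r, Relation.ReflTransGen (Stp lhs rhs x') T A := by
    intro q' h1 h2
    rcases hs with hs | hs
    · exact absurd h2 (hs q' h1)
    · exact hs
  obtain ⟨T, hT, hp⟩ := hR q hq'
  rcases decomp A hp with h | ⟨q2, hq2, hl2, B, hB, h⟩
  · by_cases hTA : T = A
    · have h1 : lhs q = A := na_start (hTA ▸ h)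
      rw [h1]
      exact surv q hq h1
    · refine ⟨T, ?_, na_mono hx hr h⟩
      rw [hM] at hT
      rcases Multiset.mem_cons.1 hT with h1 | h1
      · exact absurd h1 hTA
      · exact Multiset.mem_add.2 (Or.inl h1)
  · rw [hx] at hq2
    rcases Multiset.mem_cons.1 hq2 with h1 | h1
    · subst h1
      exact ⟨B, Multiset.mem_add.2 (Or.inr hB), na_mono hx hr h⟩
    · obtain ⟨T', hT', hp'⟩ := surv q2 h1 hl2
      exact ⟨T', hT', (hp'.tail ⟨q2, h1, hl2, hB⟩).trans (na_mono hx hr h)⟩

theorem claim2 {R N : Type} {lhs : R → N} {rhs : R → Multiset N} {M M0 : Multiset N}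
    {x : Multiset R} {A : N} (hM : M = A ::ₘ M0)
    (hflow : M + (x.map rhs).sum = x.map lhs) (hR : Rch lhs rhs M x) :
    ∃ r x', x = r ::ₘ x' ∧ lhs r = A ∧ ((∀ q ∈ x', lhs q ≠ A) ∨
      ∃ T ∈ M0 + rhs r, Relation.ReflTransGen (Stp lhs rhs x') T A) := by
  classical
  have hA : A ∈ x.map lhs := by
    rw [← hflow, hM]
    exact Multiset.mem_add.2 (Or.inl (Multiset.mem_cons_self _ _))
  obtain ⟨r, hrx, hr⟩ := Multiset.mem_map.1 hA
  obtain ⟨x', hx⟩ := Multiset.exists_cons_of_mem hrx
  by_cases h1 : ∀ q ∈ x', lhs q ≠ A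
  · exact ⟨r, x', hx, hr, Or.inl h1⟩
  by_cases h2 : A ∈ M0
  · exact ⟨r, x', hx, hr, Or.inr ⟨A, Multiset.mem_add.2 (Or.inl h2), Relation.ReflTransGen.refl⟩⟩
  push Not at h1
  obtain ⟨q, hq, hqA⟩ := h1
  have h3 : A ∈ (x.map rhs).sum := by
    obtain ⟨x'', hx''⟩ := Multiset.exists_cons_of_mem hq
    have h4 : A ::ₘ (M0 + (x.map rhs).sum) = A ::ₘ (A ::ₘ x''.map lhs) := by
      have h5 : x.map lhs = A ::ₘ (A ::ₘ x''.map lhs) := by
        rw [hx, hx'', Multiset.map_cons, Multiset.map_cons, hr, hqA]
      rw [← h5, ← hflow, hM, Multiset.cons_add]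
    have h6 := (Multiset.cons_inj_right A).1 h4
    have h7 : A ∈ M0 + (x.map rhs).sum := by
      rw [h6]
      exact Multiset.mem_cons_self _ _
    rcases Multiset.mem_add.1 h7 with h8 | h8
    · exact absurd h8 h2
    · exact h8
  obtain ⟨Y, hY, hAY⟩ := (Multiset.mem_join (S := x.map rhs)).1 h3
  obtain ⟨t, ht, rfl⟩ := Multiset.mem_map.1 hY
  by_cases htA : lhs t = A
  · obtain ⟨xt, hxt⟩ := Multiset.exists_cons_of_mem ht
    exact ⟨t, xt, hxt, htA, Or.inr ⟨A, Multiset.mem_add.2 (Or.inr hAY),
      Relation.ReflTransGen.refl⟩⟩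
  obtain ⟨T, hT, hp⟩ := hR t ht
  rcases decomp A hp with h | ⟨q2, hq2, hl2, B, hB, h⟩
  · have hTA : T ≠ A := by
      intro h5
      exact htA (na_start (h5 ▸ h))
    refine ⟨r, x', hx, hr, Or.inr ⟨T, ?_, na_mono hx hr (h.tail ⟨htA, t, ht, rfl, hAY⟩)⟩⟩
    rw [hM] at hT
    rcases Multiset.mem_cons.1 hT with h5 | h5
    · exact absurd h5 hTA
    · exact Multiset.mem_add.2 (Or.inl h5)
  · obtain ⟨x2, hx2⟩ := Multiset.exists_cons_of_mem hq2
    exact ⟨q2, x2, hx2, hl2, Or.inr ⟨B, Multiset.mem_add.2 (Or.inr hB),
      na_mono hx2 hl2 (h.tail ⟨htA, t, ht, rfl, hAY⟩)⟩⟩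

end FireAux

theorem fire {R N : Type} (lhs : R → N) (rhs : R → Multiset N) (M : Multiset N) (x : Multiset R)
    (hflow : M + (x.map rhs).sum = x.map lhs) (hr : Rch lhs rhs M x) : Run lhs rhs M x := by
  classical
  induction hk : x.card generalizing M x with
  | zero =>
    have hx : x = 0 := Multiset.card_eq_zero.1 hk
    subst hx
    have hM : M = 0 := by simpa using hflow
    subst hM
    exact Run.nil
  | succ k ih =>
    have hx0 : x ≠ 0 := by
      intro h
      rw [h] at hk
      simp at hk
    obtain ⟨r0, hr0⟩ := Multiset.exists_mem_of_ne_zero hx0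
    obtain ⟨A, hA, _⟩ := hr r0 hr0
    obtain ⟨M0, hM⟩ := Multiset.exists_cons_of_mem hA
    obtain ⟨r, x', hx, hrA, hs⟩ := FireAux.claim2 hM hflow hr
    have hR' := FireAux.claim1 hx hrA hM hr hs
    have hf' : (M0 + rhs r) + (x'.map rhs).sum = x'.map lhs := by
      have h1 : A ::ₘ ((M0 + rhs r) + (x'.map rhs).sum) = A ::ₘ x'.map lhs := by
        have h2 := hflow
        rw [hx, Multiset.map_cons, Multiset.map_cons, Multiset.sum_cons, hrA, hM] at h2
        rw [← h2, Multiset.cons_add, add_assoc]
      exact (Multiset.cons_inj_right A).1 h1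
    have hc : x'.card = k := by
      rw [hx, Multiset.card_cons] at hk
      omega
    have hrun := ih (M0 + rhs r) x' hf' hR' hc
    have h := Run.cons (lhs := lhs) (rhs := rhs) r M0 x' hrun
    rw [hx, hM, ← hrA]
    have h3 : lhs r ::ₘ M0 = M0 + {lhs r} := by
      rw [add_comm, Multiset.singleton_add]
    rw [h3]
    exact h

end Pool.Agent.Lib.BCC
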