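import Pool.Agent.Lib.BCC.Defs

/-!
# Module BCC.Repl2: replacing the part read first (MP_f1c4ef_lc)

PROOF (as `MainAux.replace` in F1c4.Main). Let `z ++ z2 = x c p u b s` be a violation. If `p.count b ≤ ν`, the word is in `VR2 ν`, so `z' ++ z2` is in `VR2 ν` (same state of `M`), so in `BR2`. If `p.count b > ν ≥ z.count b`, then `x ++ [c] ++ p` is longer than
`z` (`b ∉ x`): `x ++ [c] ++ p = z ++ p2`, `z2 = p2 ++ u ++ [b] ++ s`, `p2` contains `b` and (as `p` ends with `b`) ends with `b`. Let `z' ++ z2 = x' ++ [c] ++ s'` (`hwf`), `x' ∈ X`. The only letter `c` of `z' ++ z2` is in `z'` or in `p2` (not in `u ++ [b] ++ s`), so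
`z' ++ p2 = x' ++ [c] ++ p'` for some `p'`; `x'` is a sublist of `x` (`z' ++ p2` is a sublist of `z ++ p2`; in both words the part before the only letter `c`), `p'` has the same number of letters `b` as `p` (count in `z' ++ p2` and `z ++ p2`; none in `x, x'`), and `p'`
ends with `b` (`p2` ends with `b`, and `p'` is not empty since `p2` contains `b`, `b ∉ x'`; the last letter of `x' ++ [c] ++ p'` is `b ≠ c`). `u ∉ R x (p.count b)` gives `u ∉ R x' (p'.count b)` by `H.mono`.
-/

set_option autoImplicit false

namespace Pool.Agent.Lib.BCC

open Pool.Agent.Lib.F1c4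

namespace Repl2Aux

/-- in a sublist the part before the only letter `c` is a sublist of the part before the only
letter `c` -/
theorem sub_before {c : ℕ} {l1 l2 x p : List ℕ} (hp : c ∉ p)
    (h : (l1 ++ ([c] ++ l2)).Sublist (x ++ ([c] ++ p))) : l1.Sublist x := by
  obtain ⟨r1, r2, h1, h2, h3⟩ := List.append_sublist_iff.1 h
  have hc : c ∈ r2 := h3.subset (List.mem_append_left _ (List.mem_singleton_self c))
  rcases List.append_eq_append_iff.1 h1 with ⟨q, hq1, hq2⟩ | ⟨q, hq1, hq2⟩
  · -- r1 = x ++ q
    rcases q with _ | ⟨d, q⟩
    · rw [List.append_nil] at hq1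
      rw [hq1] at h2
      exact h2
    · exfalso
      rw [List.singleton_append, List.cons_append, List.cons.injEq] at hq2
      apply hp
      rw [hq2.2]
      exact List.mem_append_right _ hc
  · -- x = r1 ++ q
    rw [hq1]
    exact h2.trans (List.sublist_append_left _ _)

end Repl2Aux

open Repl2Aux in
theorem replace2 {Δ Γ : Finset ℕ} {b c : ℕ} {X : Language ℕ} {R : List ℕ → ℕ → Language ℕ}
    (H : Hyp2 Δ Γ b c X R) {ν : ℕ} {τ : Type} (M : DFA ℕ τ) (hM : M.accepts = VR2 Γ b c X R ν)
    {z z' z2 : List ℕ} (hz : z ++ z2 ∈ BR2 Γ b c X R) (hν : z.count b ≤ ν)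
    (hc : z'.count b = z.count b) (he : M.eval z' = M.eval z) (hs : z'.Sublist z)
    (hwf : z' ++ z2 ∈ WF2 Γ b c X) : z' ++ z2 ∈ BR2 Γ b c X R := by
  obtain ⟨x, hx, p, u, s, hp, h1, h2, h3, h4, h5⟩ := hz
  by_cases hn : p.count b ≤ ν
  · have h6 : z ++ z2 ∈ M.accepts := by
      rw [hM]
      exact ⟨x, hx, p, u, s, hp, h1, h2, h3, hn, h4, h5⟩
    have h7 : z' ++ z2 ∈ M.accepts := by
      have h8 : M.eval (z ++ z2) ∈ M.accept := h6
      have h9 : M.eval (z' ++ z2) ∈ M.accept := by
        unfold DFA.eval at he h8 ⊢
        rw [DFA.evalFrom_of_append] at h8 ⊢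
        rw [he]
        exact h8
      exact h9
    rw [hM] at h7
    obtain ⟨x', hx', p', u', s', a1, a2, a3, a4, -, a6, a7⟩ := h7
    exact ⟨x', hx', p', u', s', a1, a2, a3, a4, a6, a7⟩
  · have hcount : ∀ v, Ov Δ v → v.count b = 0 := fun v hv =>
      List.count_eq_zero.2 fun h => H.bD (hv b h)
    have hcc : ([c] : List ℕ).count b = 0 :=
      List.count_eq_zero.2 fun h => H.cb (List.mem_singleton.1 h).symm
    have hcins : c ∉ insert b Γ := fun h =>
      (Finset.mem_insert.1 h).elim (fun h => H.cb h) fun h => H.cG h
    have hcp : ∀ v, Ov (insert b Γ) v → c ∉ v := fun v hv h => hcins (hv c h)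
    have hcu : c ∉ u ++ [b] ++ s := by
      intro h
      rcases List.mem_append.1 h with h | h
      · rcases List.mem_append.1 h with h | h
        · exact H.cG (h2 c h)
        · exact H.cb (List.mem_singleton.1 h)
      · exact hcp s h3 h
    have h6 : z ++ z2 = (x ++ [c] ++ p) ++ (u ++ [b] ++ s) := by
      rw [h5]
      simp [List.append_assoc]
    rcases List.append_eq_append_iff.1 h6 with ⟨p2, hp2, hz2⟩ | ⟨p2, hp2, hz2⟩
    · -- x ++ [c] ++ p = z ++ p2
      have hcnt : p.count b = z.count b + p2.count b := by
        have := congrArg (List.count b) hp2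
        rw [List.count_append, List.count_append, List.count_append, hcount x (H.ovX x hx),
          hcc] at this
        omega
      have hp2ne : p2 ≠ [] := by
        rintro rfl
        rw [List.count_nil, Nat.add_zero] at hcnt
        omega
      obtain ⟨p0, hp0⟩ : ∃ p', p = p' ++ [b] := by
        rcases hp with hp | hp
        · exfalso
          rw [hp, List.count_nil] at hn
          omega
        · exact hp
      obtain ⟨p3, hp3⟩ : ∃ p3, p2 = p3 ++ [b] := by
        rcases List.eq_nil_or_concat p2 with h | ⟨p3, d, h⟩
        · exact absurd h hp2ne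
        · rw [List.concat_eq_append] at h
          have h7 := hp2
          rw [h, hp0, ← List.append_assoc, ← List.append_assoc] at h7
          have h8 := (List.append_inj' h7 rfl).2
          exact ⟨p3, by rw [h, h8]⟩
      obtain ⟨x', hx', s', hs', hw⟩ := hwf
      have hw' : (z' ++ p2) ++ (u ++ [b] ++ s) = (x' ++ [c]) ++ s' := by
        rw [← hw, hz2]
        simp [List.append_assoc]
      rcases List.append_eq_append_iff.1 hw' with ⟨q, hq1, hq2⟩ | ⟨q, hq1, hq2⟩
      · -- x' ++ [c] = z' ++ p2 ++ q
        exfalso
        rcases List.eq_nil_or_concat q with h | ⟨q0, d, h⟩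
        · rw [h, List.append_nil, hp3, ← List.append_assoc] at hq1
          have h8 := (List.append_inj' hq1 rfl).2
          exact H.cb (List.cons.inj h8).1
        · rw [List.concat_eq_append] at h
          rw [h, ← List.append_assoc] at hq1
          have h8 := (List.append_inj' hq1 rfl).2
          apply hcu
          rw [hq2, h, ← h8]
          exact List.mem_append_left _ (List.mem_append_right _ (List.mem_singleton_self c))
      · -- z' ++ p2 = x' ++ [c] ++ q
        have hqne : ∃ q0, q = q0 ++ [b] := by
          rcases List.eq_nil_or_concat q with h | ⟨q0, d, h⟩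
          · exfalso
            rw [h, List.append_nil, hp3, ← List.append_assoc] at hq1
            have h8 := (List.append_inj' hq1 rfl).2
            exact H.cb (List.cons.inj h8).1.symm
          · rw [List.concat_eq_append] at h
            have h7 := hq1
            rw [h, hp3, ← List.append_assoc, ← List.append_assoc] at h7
            have h8 := (List.append_inj' h7 rfl).2
            exact ⟨q0, by rw [h, h8]⟩
        have hqov : Ov (insert b Γ) q := by
          rw [hq2] at hs'
          exact hs'.left
        have hqc : q.count b = p.count b := by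
          have := congrArg (List.count b) hq1
          rw [List.count_append, List.count_append, List.count_append, hcount x' (H.ovX x' hx'),
            hcc] at this
          omega
        have hsub : x'.Sublist x := by
          refine sub_before (c := c) (l2 := q) (hcp p h1) ?_
          rw [← List.append_assoc, ← List.append_assoc, ← hq1, hp2]
          exact hs.append (List.Sublist.refl p2)
        refine ⟨x', hx', q, u, s, Or.inr hqne, hqov, h2, h3, ?_, ?_⟩
        · rw [hqc]
          exact fun h => h4 (H.mono x hx x' hx' hsub _ u h)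
        · rw [hz2, ← List.append_assoc, hq1]
          simp [List.append_assoc]
    · exfalso
      apply hn
      rw [hp2, List.count_append, List.count_append, List.count_append] at hν
      omega

end Pool.Agent.Lib.BCC
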