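import Pool.Agent.Lib.BCC.Defs

/-!
# Module BCC.Typed: transducers whose states know two automata (MP_f1c4ef_lc)

PROOF: `T'` has states `T.σ × σI × σO`, edges `T.E × σI × σO`, `src (e, i, o) = (T.src e, i, o)`, `tgt (e, i, o) = (T.tgt e, MI.evalFrom i (T.inp e), MO.evalFrom o (T.out e))`, `inp`, `out` as for `e`, initial states `(p, MI.start, MO.start)` with
`p ∈ T.ini`, final states `(q, i, o)` with `q ∈ T.fin`. Paths of `T` lift uniquely and paths of `T'` project (see `DelPAux.lift`, `DelPAux.proj` in F1c4.DelP and `TConeAux.prd` in F1c4.TCone).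
-/

set_option autoImplicit false

namespace Pool.Agent.Lib.BCC

open Pool.Agent.Lib.F1c4

namespace TypedAux

/-- the product of a transducer with an automaton for the input and an automaton for the output -/
def prd (T : FT) {σI σO : Type} [Finite σI] [Finite σO] (MI : DFA ℕ σI) (MO : DFA ℕ σO) : FT where
  σ := T.σ × σI × σO
  E := T.E × σI × σO
  fσ := by
    have := T.fσ
    infer_instance
  fE := by
    have := T.fE
    infer_instance
  src := fun e => (T.src e.1, e.2)
  tgt := fun e => (T.tgt e.1, MI.evalFrom e.2.1 (T.inp e.1), MO.evalFrom e.2.2 (T.out e.1))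
  inp := fun e => T.inp e.1
  out := fun e => T.out e.1
  ini := {x | x.1 ∈ T.ini ∧ x.2 = (MI.start, MO.start)}
  fin := {x | x.1 ∈ T.fin}

theorem lift (T : FT) {σI σO : Type} [Finite σI] [Finite σO] (MI : DFA ℕ σI) (MO : DFA ℕ σO)
    (es : List T.E) : ∀ (p q : T.σ) (i : σI) (o : σO), IsPath T.src T.tgt p es q →
      ∃ es2 : List (T.E × σI × σO), es2.map Prod.fst = es ∧
        IsPath (prd T MI MO).src (prd T MI MO).tgt (p, i, o) es2
          (q, MI.evalFrom i (es.flatMap T.inp), MO.evalFrom o (es.flatMap T.out)) := by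
  induction es with
  | nil =>
    intro p q i o h
    have h1 : p = q := h
    refine ⟨[], rfl, ?_⟩
    show (p, i, o) = (q, MI.evalFrom i [], MO.evalFrom o [])
    rw [h1]
    rfl
  | cons e es ih =>
    intro p q i o h
    obtain ⟨h1, h2⟩ := (show T.src e = p ∧ IsPath T.src T.tgt (T.tgt e) es q from h)
    obtain ⟨es2, h3, h4⟩ := ih (T.tgt e) q (MI.evalFrom i (T.inp e)) (MO.evalFrom o (T.out e)) h2
    refine ⟨(e, i, o) :: es2, by rw [List.map_cons, h3], ?_⟩
    refine ⟨?_, ?_⟩
    · show (T.src e, i, o) = (p, i, o)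
      rw [h1]
    · rw [List.flatMap_cons, List.flatMap_cons, DFA.evalFrom_of_append, DFA.evalFrom_of_append]
      exact h4

theorem proj (T : FT) {σI σO : Type} [Finite σI] [Finite σO] (MI : DFA ℕ σI) (MO : DFA ℕ σO)
    (es2 : List (T.E × σI × σO)) :
    ∀ (x y : T.σ × σI × σO), IsPath (prd T MI MO).src (prd T MI MO).tgt x es2 y →
      IsPath T.src T.tgt x.1 (es2.map Prod.fst) y.1 ∧
        y.2.1 = MI.evalFrom x.2.1 ((es2.map Prod.fst).flatMap T.inp) ∧
        y.2.2 = MO.evalFrom x.2.2 ((es2.map Prod.fst).flatMap T.out) := by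
  induction es2 with
  | nil =>
    intro x y h
    have h1 : x = y := h
    rw [h1]
    exact ⟨rfl, rfl, rfl⟩
  | cons e es ih =>
    intro x y h
    obtain ⟨h1, h2⟩ := (show (T.src e.1, e.2) = x ∧ IsPath (prd T MI MO).src (prd T MI MO).tgt
      (T.tgt e.1, MI.evalFrom e.2.1 (T.inp e.1), MO.evalFrom e.2.2 (T.out e.1)) es y from h)
    obtain ⟨h3, h4, h5⟩ := ih _ _ h2
    subst h1
    refine ⟨⟨rfl, h3⟩, ?_, ?_⟩
    · rw [h4, List.map_cons, List.flatMap_cons, DFA.evalFrom_of_append]
    · rw [h5, List.map_cons, List.flatMap_cons, DFA.evalFrom_of_append]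

theorem flatMap_fst {T : FT} {τ : Type} (f : T.E → List ℕ) (es : List (T.E × τ)) :
    es.flatMap (fun e => f e.1) = (es.map Prod.fst).flatMap f := by
  rw [List.flatMap_map]

end TypedAux

open TypedAux in
theorem typed (T : FT) {σI σO : Type} [Finite σI] [Finite σO] (MI : DFA ℕ σI) (MO : DFA ℕ σO) :
    ∃ T' : FT, (∀ B : Language ℕ, T'.img B = T.img B) ∧
      ∃ (tI : T'.σ → σI) (tO : T'.σ → σO), (∀ p ∈ T'.ini, tI p = MI.start ∧ tO p = MO.start) ∧
        ∀ (p q : T'.σ) (es : List T'.E), IsPath T'.src T'.tgt p es q →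
          tI q = MI.evalFrom (tI p) (es.flatMap T'.inp) ∧
          tO q = MO.evalFrom (tO p) (es.flatMap T'.out) := by
  refine ⟨prd T MI MO, ?_, fun x => x.2.1, fun x => x.2.2, ?_, ?_⟩
  · intro B
    ext w
    constructor
    · rintro ⟨x, hx, y, hy, es, h1, h2, rfl⟩
      obtain ⟨h3, h4, h5⟩ := proj T MI MO es x y h1
      have e1 : es.flatMap (prd T MI MO).inp = (es.map Prod.fst).flatMap T.inp :=
        flatMap_fst T.inp es
      have e2 : es.flatMap (prd T MI MO).out = (es.map Prod.fst).flatMap T.out :=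
        flatMap_fst T.out es
      rw [e1] at h2
      exact ⟨x.1, hx.1, y.1, hy, es.map Prod.fst, h3, h2, e2.symm⟩
    · rintro ⟨p, hp, q, hq, es, h1, h2, rfl⟩
      obtain ⟨es2, h3, h4⟩ := lift T MI MO es p q MI.start MO.start h1
      have e1 : es2.flatMap (prd T MI MO).inp = es.flatMap T.inp := by
        rw [← h3]
        exact flatMap_fst T.inp es2
      have e2 : es2.flatMap (prd T MI MO).out = es.flatMap T.out := by
        rw [← h3]
        exact flatMap_fst T.out es2
      exact ⟨(p, MI.start, MO.start), ⟨hp, rfl⟩, _, hq, es2, h4, by rw [e1]; exact h2, e2⟩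
  · intro p hp
    have h := hp.2
    exact ⟨congrArg Prod.fst h, congrArg Prod.snd h⟩
  · intro p q es h
    obtain ⟨h3, h4, h5⟩ := proj T MI MO es p q h
    have e1 : es.flatMap (prd T MI MO).inp = (es.map Prod.fst).flatMap T.inp :=
      flatMap_fst T.inp es
    have e2 : es.flatMap (prd T MI MO).out = (es.map Prod.fst).flatMap T.out :=
      flatMap_fst T.out es
    rw [e1, e2]
    exact ⟨h4, h5⟩

end Pool.Agent.Lib.BCC
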