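import Pool.Agent.Lib.BCC.Defs

/-!
# Module BCC.VReg2: regularity of WF2 and VR2 (MP_f1c4ef_lc)

PROOF. `WF2` = `cat_reg c` for `X` and `star_reg (insert b Γ)` (F1c4.RegA; `c ∉ x` for `x ∈ X`). `VR2 ν` is the union over `l ≤ ν` of the words `x c p u b s` with exactly `l` letters `b` in `p` and `u ∉ R x l`, so it is enough to treat one `l`
(finite unions: `Language.IsRegular` of `+`; or include the regular language of all `p` with `l` letters `b`). Let `M` be a DFA with state set `τ` for the regular language of all `x c u` with `x ∈ X`, `u` over `Γ`, `u ∉ R x l`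
(= (`cat_reg c X (star Γ)`) minus (the language of `H.reg l`)). Then the set in question is the finite union over the states `q : τ` of `A_q c (P_l B_q b S)` with `A_q = {x ∈ X | M.eval (x ++ [c]) = q}`, `B_q = {u over Γ | M.evalFrom q u ∈ M.accept}`,
`P_l` = words over `insert b Γ` with exactly `l` letters `b`, empty or ending with `b`, `S` = words over `insert b Γ`. `A_q`, `B_q` are regular (a DFA with other accepting states or another start). For `P_l B_q b S` see F1c4.VReg (`v_reg` proves the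
same for sets `R j` not depending on `x`: one may even use `v_reg` for `R' j = complement of B_q if j = l, everything over Γ otherwise`, which gives the words `p u b s` with a violation: `VR Γ b R' l` is exactly `P_l B_q b S`).
-/

set_option autoImplicit false

namespace Pool.Agent.Lib.BCC

open Pool.Agent.Lib.F1c4

namespace VReg2Aux

theorem reg_bot : Language.IsRegular ({_w : List ℕ | False} : Language ℕ) := by
  refine ⟨Unit, inferInstance, ⟨fun _ _ => (), (), ∅⟩, ?_⟩
  apply Set.ext
  intro w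
  exact Iff.rfl

theorem reg_top : Language.IsRegular ({_w : List ℕ | True} : Language ℕ) := by
  refine ⟨Unit, inferInstance, ⟨fun _ _ => (), (), Set.univ⟩, ?_⟩
  apply Set.ext
  intro w
  exact Iff.rfl

/-- finite unions -/
def FU {ι : Type} (s : Finset ι) (f : ι → Language ℕ) : Language ℕ := {w : List ℕ | ∃ i ∈ s, w ∈ f i}

/-- finite unions of regular languages are regular -/
theorem reg_union {ι : Type} (s : Finset ι) (f : ι → Language ℕ) (hf : ∀ i ∈ s, (f i).IsRegular) :
    (FU s f).IsRegular := by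
  classical
  induction s using Finset.induction_on with
  | empty =>
    have e : FU (∅ : Finset ι) f = ({_w : List ℕ | False} : Language ℕ) := by
      apply Set.ext
      intro w
      constructor
      · rintro ⟨i, hi, -⟩
        exact absurd hi (Finset.notMem_empty i)
      · intro h
        exact h.elim
    rw [e]
    exact reg_bot
  | insert a s ha ih =>
    have e : FU (insert a s) f = f a + FU s f := by
      apply Set.ext
      intro w
      constructor
      · rintro ⟨i, hi, hw⟩
        rcases Finset.mem_insert.1 hi with h | h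
        · left
          rw [← h]
          exact hw
        · right
          exact ⟨i, h, hw⟩
      · rintro (h | ⟨i, hi, hw⟩)
        · exact ⟨a, Finset.mem_insert_self _ _, h⟩
        · exact ⟨i, Finset.mem_insert_of_mem hi, hw⟩
    rw [e]
    exact (hf a (Finset.mem_insert_self _ _)).add
      (ih fun i hi => hf i (Finset.mem_insert_of_mem hi))

/-- the decomposition `x c u` with `c` not in `x` is unique -/
theorem uniq {c : ℕ} {x x' u u' : List ℕ} (hx : c ∉ x) (hx' : c ∉ x')
    (h : x ++ [c] ++ u = x' ++ [c] ++ u') : x = x' ∧ u = u' := by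
  rw [List.append_assoc, List.append_assoc, List.singleton_append, List.singleton_append] at h
  induction x generalizing x' with
  | nil =>
    cases x' with
    | nil =>
      rw [List.nil_append, List.nil_append, List.cons.injEq] at h
      exact ⟨rfl, h.2⟩
    | cons a x' =>
      exfalso
      rw [List.nil_append, List.cons_append, List.cons.injEq] at h
      exact hx' (h.1 ▸ List.mem_cons_self)
  | cons a x ih =>
    cases x' with
    | nil =>
      exfalso
      rw [List.nil_append, List.cons_append, List.cons.injEq] at h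
      exact hx (h.1 ▸ List.mem_cons_self)
    | cons a' x' =>
      rw [List.cons_append, List.cons_append, List.cons.injEq] at h
      obtain ⟨h1, h2⟩ := ih (fun h' => hx (List.mem_cons_of_mem _ h'))
        (fun h' => hx' (List.mem_cons_of_mem _ h')) h.2
      exact ⟨by rw [h.1, h1], h2⟩

/-- the words `x` which lead to `q` together with `c` -/
def Aq {τ : Type} (M : DFA ℕ τ) (c : ℕ) (q : τ) : Language ℕ := {x : List ℕ | M.eval (x ++ [c]) = q}

theorem aq_reg {τ : Type} [Fintype τ] (M : DFA ℕ τ) (c : ℕ) (q : τ) : (Aq M c q).IsRegular := by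
  refine ⟨τ, inferInstance, ⟨M.step, M.start, {s | M.step s c = q}⟩, ?_⟩
  apply Set.ext
  intro x
  show M.step (M.evalFrom M.start x) c = q ↔ M.evalFrom M.start (x ++ [c]) = q
  rw [DFA.evalFrom_append_singleton]

/-- the words leading from `q` to an accepting state -/
def Bq {τ : Type} (M : DFA ℕ τ) (q : τ) : Language ℕ := {u : List ℕ | M.evalFrom q u ∈ M.accept}

theorem bq_reg {τ : Type} [Fintype τ] (M : DFA ℕ τ) (q : τ) : (Bq M q).IsRegular :=
  ⟨τ, inferInstance, ⟨M.step, q, M.accept⟩, rfl⟩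

/-- `Bq` for the index `l`, everything otherwise -/
def Rq {τ : Type} (M : DFA ℕ τ) (l : ℕ) (q : τ) (j : ℕ) : Language ℕ :=
  {u : List ℕ | j = l → u ∈ Bq M q}

theorem rq_reg {τ : Type} [Fintype τ] (M : DFA ℕ τ) (l : ℕ) (q : τ) (j : ℕ) :
    (Rq M l q j).IsRegular := by
  by_cases h : j = l
  · have e : Rq M l q j = Bq M q := by
      apply Set.ext
      intro u
      exact ⟨fun h1 => h1 h, fun h1 _ => h1⟩
    rw [e]
    exact bq_reg M q
  · have e : Rq M l q j = ({_w : List ℕ | True} : Language ℕ) := by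
      apply Set.ext
      intro u
      exact ⟨fun _ => trivial, fun _ h1 => absurd h1 h⟩
    rw [e]
    exact reg_top

/-- the words `x c p u b s` with exactly `l` letters `b` in `p`, a violation at this block -/
def SL (Γ : Finset ℕ) (b c : ℕ) (X : Language ℕ) (R : List ℕ → ℕ → Language ℕ) (l : ℕ) :
    Language ℕ :=
  {w : List ℕ | ∃ x ∈ X, ∃ p u s : List ℕ, (p = [] ∨ ∃ p', p = p' ++ [b]) ∧ Ov (insert b Γ) p ∧
    Ov Γ u ∧ Ov (insert b Γ) s ∧ p.count b = l ∧ u ∉ R x l ∧
    w = x ++ [c] ++ p ++ u ++ [b] ++ s}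

/-- the part belonging to the state `q` -/
def TQ {τ : Type} (Γ : Finset ℕ) (b c : ℕ) (X : Language ℕ) (M : DFA ℕ τ) (l : ℕ) (q : τ) :
    Language ℕ :=
  {w : List ℕ | ∃ x ∈ (X ⊓ Aq M c q : Language ℕ), ∃ v ∈ VR Γ b (Rq M l q) l, w = x ++ [c] ++ v}

theorem c_not {Δ Γ : Finset ℕ} {b c : ℕ} {X : Language ℕ} {R : List ℕ → ℕ → Language ℕ}
    (H : Hyp2 Δ Γ b c X R) {x : List ℕ} (hx : x ∈ X) : c ∉ x := fun h => H.cD (H.ovX x hx c h)

theorem tq_reg {Δ Γ : Finset ℕ} {b c : ℕ} {X : Language ℕ} {R : List ℕ → ℕ → Language ℕ}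
    (H : Hyp2 Δ Γ b c X R) {τ : Type} [Fintype τ] (M : DFA ℕ τ) (l : ℕ) (q : τ) :
    (TQ Γ b c X M l q).IsRegular :=
  cat_reg c (H.regX.inf (aq_reg M c q)) (v_reg H.bG (Rq M l q) (rq_reg M l q) l)
    fun _ hx => c_not H hx.1

theorem sl_eq {Δ Γ : Finset ℕ} {b c : ℕ} {X : Language ℕ} {R : List ℕ → ℕ → Language ℕ}
    (H : Hyp2 Δ Γ b c X R) {τ : Type} [Fintype τ] (M : DFA ℕ τ) (l : ℕ)
    (hM : M.accepts = ({w : List ℕ | ∃ x ∈ X, ∃ u ∈ R x l, w = x ++ [c] ++ u} : Language ℕ)) :
    SL Γ b c X R l = FU (Finset.univ : Finset τ) (TQ Γ b c X M l) := by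
  have key : ∀ x ∈ X, ∀ u : List ℕ, u ∈ R x l ↔ u ∈ Bq M (M.eval (x ++ [c])) := by
    intro x hx u
    have h1 : u ∈ Bq M (M.eval (x ++ [c])) ↔ x ++ [c] ++ u ∈ M.accepts := by
      show M.evalFrom (M.evalFrom M.start (x ++ [c])) u ∈ M.accept ↔
        M.evalFrom M.start (x ++ [c] ++ u) ∈ M.accept
      rw [DFA.evalFrom_of_append M M.start (x ++ [c]) u]
    rw [h1, hM]
    constructor
    · intro hu
      exact ⟨x, hx, u, hu, rfl⟩
    · rintro ⟨x', hx', u', hu', he⟩
      obtain ⟨e1, e2⟩ := uniq (c_not H hx) (c_not H hx') he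
      rw [e1, e2]
      exact hu'
  apply Set.ext
  intro w
  constructor
  · rintro ⟨x, hx, p, u, s, hp, hpo, hu, hs, hc, hR, rfl⟩
    refine ⟨M.eval (x ++ [c]), Finset.mem_univ _, x, ⟨hx, rfl⟩, p ++ u ++ [b] ++ s,
      ⟨p, u, s, hp, hpo, hu, hs, le_of_eq hc, ?_, rfl⟩, ?_⟩
    · intro h
      exact hR ((key x hx u).2 (h hc))
    · simp only [List.append_assoc]
  · rintro ⟨q, -, x, ⟨hx, hq⟩, v, ⟨p, u, s, hp, hpo, hu, hs, -, hR, rfl⟩, rfl⟩
    have hq' : M.eval (x ++ [c]) = q := hq
    have hc : p.count b = l := by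
      by_contra h
      exact hR fun h' => absurd h' h
    refine ⟨x, hx, p, u, s, hp, hpo, hu, hs, hc, ?_, ?_⟩
    · intro h
      apply hR
      intro _
      rw [← hq']
      exact (key x hx u).1 h
    · simp only [List.append_assoc]

theorem sl_reg {Δ Γ : Finset ℕ} {b c : ℕ} {X : Language ℕ} {R : List ℕ → ℕ → Language ℕ}
    (H : Hyp2 Δ Γ b c X R) (l : ℕ) : (SL Γ b c X R l).IsRegular := by
  obtain ⟨τ, _, M, hM⟩ := H.reg l
  rw [sl_eq H M l hM]
  exact reg_union _ _ fun q _ => tq_reg H M l q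

end VReg2Aux

open VReg2Aux

theorem wf_reg2 {Δ Γ : Finset ℕ} {b c : ℕ} {X : Language ℕ} {R : List ℕ → ℕ → Language ℕ}
    (H : Hyp2 Δ Γ b c X R) : (WF2 Γ b c X).IsRegular :=
  cat_reg c H.regX (star_reg (insert b Γ)) fun _ hx => c_not H hx

theorem v_reg2 {Δ Γ : Finset ℕ} {b c : ℕ} {X : Language ℕ} {R : List ℕ → ℕ → Language ℕ}
    (H : Hyp2 Δ Γ b c X R) (ν : ℕ) : (VR2 Γ b c X R ν).IsRegular := by
  have e : VR2 Γ b c X R ν = FU (Finset.range (ν + 1)) (SL Γ b c X R) := by
    apply Set.ext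
    intro w
    constructor
    · rintro ⟨x, hx, p, u, s, hp, hpo, hu, hs, hc, hR, rfl⟩
      exact ⟨p.count b, Finset.mem_range.2 (Nat.lt_succ_of_le hc), x, hx, p, u, s, hp, hpo, hu, hs,
        rfl, hR, rfl⟩
    · rintro ⟨l, hl, x, hx, p, u, s, hp, hpo, hu, hs, hc, hR, rfl⟩
      subst hc
      exact ⟨x, hx, p, u, s, hp, hpo, hu, hs, Nat.lt_succ_iff.1 (Finset.mem_range.1 hl), hR, rfl⟩
  rw [e]
  exact reg_union _ _ fun l _ => sl_reg H l

end Pool.Agent.Lib.BCC
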