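import Pool.Agent.Lib.BCC.Rep2
import Pool.Agent.Lib.BCC.VReg2
import Pool.Agent.Lib.BCC.Typed
import Pool.Agent.Lib.BCC.DelR
import Pool.Agent.Lib.BCC.Repl2

/-!
# Module BCC.Main2: LR2 is not the image of BR2 under a finite transducer (MP_f1c4ef_lc)

TEMPLATE: `not_mem` in F1c4.Main (the case without `x`); `MainAux.*`, `del`, `count_le` are reused.
PROOF. Let `LR2 = T.img BR2`. Let `MI` be a DFA of `WF2` (`wf_reg2`), `MO` a DFA of `X` (`H.regX`); by `typed` we may assume that the states of `T` know the states `tI`, `tO` of `MI` on the word read and of `MO` on the word written. So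
(W) if `es, es'` are paths from `p ∈ ini` to `q` and `es` reads a word in `WF2`, then so does `es'` (`MI.eval` of both words is `tI q`). As `BR2 ⊆ WF2` (`c ∉ x`, ...), this applies to all paths below. A loop `y` inside or attached to such a path reads no letter `c` (else the
path with two copies of `y` reads a word in `WF2` with two letters `c`; words in `WF2` have exactly one `c`).
(P) the decomposition `x ++ b^j ++ u` (`x` over `Δ`, `u` over `Γ`) is unique (`H.bD`, `H.bG`, `H.dis`), so for `x ∈ X`, `u` over `Γ`: `x ++ b^j ++ u ∈ LR2 ↔ u ∉ R x j`.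
Constants: `ℓ > 0` bounds the length of all `out e`, `m` the number of `b` in `inp e`, `N1 = Nat.card T.σ`, `ν = 2 * m * N1 + m`, `MV` (states `τ`) a DFA of `VR2 ν`, `D > 0` divisible by all `l ∈ [1, ℓ * (Nat.card (T.σ × τ) + 2)]`. For every state `s`: `yA s` = a loop at `s` (if there is one) that
reads a word with `b` and writes a word over `Δ`; `yB s` = the same with a word written in `{b}*`; for both the constant `K0` of `rep_mem2` (for loops as in (W), i.e. without `c` in the word read; include this in the property), `κ` a common bound. `del` gives `C s`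
such that from a path of weight (= number of letters written) `≥ C s` loops of total weight `D + κ * D * |out (yB s)|` can be removed; `Cm` a bound; `delR` gives `CB` (removing `D`, no `b` read, state of `MV` kept, from any state of `MV`); `del` gives `CD` for removing `D`.
Let `j = 2 * Cm + CB + CD + 4 * ℓ + 1`, `x ∈ X`, `u = u_j ∈ R x j` by `H.ne (j + 1)`. By `H.fin u` there is `m'` with `u ∈ R x (j + m' * D)`, `u ∉ R x (j + (m' + 1) * D)`; `J = j + (m' + 1) * D`, so `x ++ b^J ++ u ∈ LR2` is written by a path `es : p → q` reading a word in `BR2`, and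
`x ++ b^(J - D) ++ u ∉ LR2`, more generally `x⁺ ++ b^(J - D) ++ u ∉ LR2` for `x⁺ ∈ X` with `x` a sublist of `x⁺` (`H.mono`).
Split `es = es00 ++ e0 ++ es1 ++ es2`: `e0` of length `≤ 1`, `es00` writes `x1`, `e0` writes `x2 ++ b^t`, `x = x1 ++ x2`, `es1` writes `b^J1`, `es2` writes `b^t2 ++ u`, `t + J1 + t2 = J`, `t, t2 ≤ ℓ` (`es00 ++ e0` = shortest first part that writes at least `|x|` letters; `es1` = longest part of the rest that stays inside `b^J`).
CASE A: `es00 = a1 ++ a2` through a state `s` with a loop `yA s`. Remove loops of weight `D` from `es1` (`CD`), giving `es1'`. The path `a1 ++ (yA s)^κ ++ a2 ++ e0 ++ es1' ++ es2` reads a word in `WF2` (W), so in `BR2` (`rep_mem2`), and writes `x⁺ ++ b^(J - D) ++ u` with `x⁺ = out a1 ++ (out yA)^κ ++ out a2 ++ x2`;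
`x⁺ ∈ X` since `tO s = MO.evalFrom (tO s) (out (yA s))`, so `MO.eval x⁺ = MO.eval x`; `x` is a sublist of `x⁺`. Contradiction.
CASE B: `es1 = a1 ++ a2` through a state `s` with a loop `yB s`. As in `not_mem`: remove `D + κ * D * |out (yB s)|` from `a1` or `a2`, insert `(yB s)^(κ * D)`; the word read is in `WF2`, so in `BR2`, the word written is `x ++ b^(J - D) ++ u`. Contradiction.
CASE C: neither. A loop inside `es00` writes a word over `Δ` (a factor of `x1`), a loop inside `es1` a word in `{b}*`, so they read no `b`. By `count_le` `es00` and `es1` read at most `m * N1` letters `b` each, `e0` at most `m`. Let `z` = word read by `es00 ++ e0 ++ es1` (at most `ν` letters `b`).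
`delR` for `es1` with `r = MV.eval (word read by es00 ++ e0)` gives `es1'`; `z'` = word read by `es00 ++ e0 ++ es1'` has the same number of `b` and the same state of `MV`, and is a sublist of `z`. `replace2` gives: the path `es00 ++ e0 ++ es1' ++ es2` reads a word in `BR2` and writes
`x ++ b^(J - D) ++ u`. Contradiction.
-/

set_option autoImplicit false

namespace Pool.Agent.Lib.BCC

open Pool.Agent.Lib.F1c4

namespace Main2Aux

open MainAux

theorem filt {Δ Γ : Finset ℕ} {b c : ℕ} {X : Language ℕ} {R : List ℕ → ℕ → Language ℕ}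
    (H : Hyp2 Δ Γ b c X R) {x : List ℕ} (hx : x ∈ X) (j : ℕ) {u : List ℕ} (hu : Ov Γ u) :
    (x ++ List.replicate j b ++ u).filter (fun a => decide (a ∈ Δ)) = x := by
  have h1 : x.filter (fun a => decide (a ∈ Δ)) = x :=
    List.filter_eq_self.2 fun a ha => decide_eq_true (H.ovX x hx a ha)
  have h2 : (List.replicate j b).filter (fun a => decide (a ∈ Δ)) = [] := by
    refine List.filter_eq_nil_iff.2 fun a ha => ?_
    rw [List.eq_of_mem_replicate ha]
    simpa using H.bD
  have h3 : u.filter (fun a => decide (a ∈ Δ)) = [] := by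
    refine List.filter_eq_nil_iff.2 fun a ha => ?_
    have h4 : a ∉ Δ := fun h => Finset.disjoint_left.1 H.dis h (hu a ha)
    simpa using h4
  rw [List.filter_append, List.filter_append, h1, h2, h3, List.append_nil, List.append_nil]

/-- the decomposition of the words in `LR2` is unique -/
theorem lr2_iff {Δ Γ : Finset ℕ} {b c : ℕ} {X : Language ℕ} {R : List ℕ → ℕ → Language ℕ}
    (H : Hyp2 Δ Γ b c X R) {x : List ℕ} (hx : x ∈ X) {j : ℕ} {u : List ℕ} (hu : Ov Γ u) :
    x ++ List.replicate j b ++ u ∈ LR2 Γ b X R ↔ u ∉ R x j := by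
  constructor
  · rintro ⟨x', hx', j', u', hu', hn, he⟩
    have h0 : x = x' := by
      have h1 := congrArg (List.filter (fun a => decide (a ∈ Δ))) he
      rw [filt H hx j hu, filt H hx' j' hu'] at h1
      exact h1
    subst h0
    have hc : ∀ v, Ov Γ v → v.count b = 0 := fun v hv =>
      List.count_eq_zero.2 (fun h => H.bG (hv b h))
    have h1 := congrArg (List.count b) he
    rw [List.count_append, List.count_append, List.count_append, List.count_append,
      List.count_replicate_self, List.count_replicate_self, hc u hu, hc u' hu', add_zero,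
      add_zero] at h1
    have h2 : j = j' := Nat.add_left_cancel h1
    subst h2
    rw [List.append_cancel_left he]
    exact hn
  · intro h
    exact ⟨x, hx, j, u, hu, h, rfl⟩

theorem br_wf {Γ : Finset ℕ} {b c : ℕ} {X : Language ℕ} {R : List ℕ → ℕ → Language ℕ} {z : List ℕ}
    (hz : z ∈ BR2 Γ b c X R) : z ∈ WF2 Γ b c X := by
  obtain ⟨x, hx, p, u, s, -, h1, h2, h3, -, rfl⟩ := hz
  refine ⟨x, hx, p ++ u ++ [b] ++ s, ((h1.append h2.ins).append ?_).append h3, ?_⟩
  · intro a ha
    rw [List.mem_singleton.1 ha]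
    exact Finset.mem_insert_self _ _
  · simp [List.append_assoc]

theorem wf_count {Δ Γ : Finset ℕ} {b c : ℕ} {X : Language ℕ} {R : List ℕ → ℕ → Language ℕ}
    (H : Hyp2 Δ Γ b c X R) {z : List ℕ} (hz : z ∈ WF2 Γ b c X) : z.count c = 1 := by
  obtain ⟨x, hx, s, hs, rfl⟩ := hz
  have h1 : x.count c = 0 := List.count_eq_zero.2 fun h => H.cD (H.ovX x hx c h)
  have h2 : s.count c = 0 := List.count_eq_zero.2 fun h =>
    (Finset.mem_insert.1 (hs c h)).elim (fun h => H.cb h) fun h => H.cG h
  rw [List.count_append, List.count_append, h1, h2, List.count_singleton_self]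

theorem cut {E : Type} (w : E → ℕ) (es : List E) (n : ℕ) (h : n ≤ (es.map w).sum) :
    ∃ a e0 r : List E, es = a ++ e0 ++ r ∧ e0.length ≤ 1 ∧ (a.map w).sum ≤ n ∧
      n ≤ (a.map w).sum + (e0.map w).sum := by
  induction es generalizing n with
  | nil =>
    refine ⟨[], [], [], rfl, Nat.zero_le _, Nat.zero_le _, ?_⟩
    have : n ≤ 0 := h
    omega
  | cons e es ih =>
    by_cases he : w e ≤ n
    · rw [List.map_cons, List.sum_cons] at h
      obtain ⟨a, e0, r, h1, h2, h3, h4⟩ := ih (n - w e) (by omega)
      refine ⟨e :: a, e0, r, by rw [h1]; rfl, h2, ?_, ?_⟩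
      · rw [List.map_cons, List.sum_cons]
        omega
      · rw [List.map_cons, List.sum_cons]
        omega
    · refine ⟨[], [e], es, rfl, le_rfl, Nat.zero_le _, ?_⟩
      rw [List.map_cons, List.sum_cons]
      omega

theorem one_le {E : Type} {w : E → ℕ} {m : ℕ} (hm : ∀ e, w e ≤ m) {e0 : List E}
    (h : e0.length ≤ 1) : (e0.map w).sum ≤ m := by
  rcases e0 with _ | ⟨e, _ | ⟨f, e0⟩⟩
  · exact Nat.zero_le _
  · rw [List.map_cons, List.sum_cons]
    exact hm e
  · rw [List.length_cons, List.length_cons] at h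
    omega

/-- a short first part of `b ^ J u` -/
theorem pre {A B u : List ℕ} {b J : ℕ} (h : A ++ B = List.replicate J b ++ u) (hA : A.length ≤ J) :
    A = List.replicate A.length b ∧ B = List.replicate (J - A.length) b ++ u := by
  have h0 : A = List.replicate A.length b := by
    have h1 := congrArg (List.take A.length) h
    rw [List.take_append_of_le_length le_rfl, List.take_of_length_le le_rfl,
      List.take_append_of_le_length (by rw [List.length_replicate]; exact hA),
      List.take_replicate, min_eq_left hA] at h1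
    exact h1
  refine ⟨h0, ?_⟩
  have h1 : List.replicate J b = List.replicate A.length b ++ List.replicate (J - A.length) b := by
    rw [List.replicate_append_replicate]
    congr 1
    omega
  rw [h1, List.append_assoc, ← h0] at h
  exact List.append_cancel_left h

/-- the decomposition of a path that writes `x b ^ J u` -/
theorem split2 {E : Type} (out : E → List ℕ) (ℓ : ℕ) (hℓ : ∀ e, (out e).length ≤ ℓ) (es : List E)
    (x u : List ℕ) (b J : ℕ) (hJ : ℓ ≤ J) (h : es.flatMap out = x ++ List.replicate J b ++ u) :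
    ∃ (es00 e0 es1 es2 : List E) (x2 : List ℕ) (t J1 t2 : ℕ),
      es = es00 ++ e0 ++ es1 ++ es2 ∧ e0.length ≤ 1 ∧ x = es00.flatMap out ++ x2 ∧
      e0.flatMap out = x2 ++ List.replicate t b ∧ es1.flatMap out = List.replicate J1 b ∧
      es2.flatMap out = List.replicate t2 b ++ u ∧ t + J1 + t2 = J ∧ t ≤ ℓ ∧ t2 ≤ ℓ := by
  have hlen := congrArg List.length h
  rw [len_flat, List.length_append, List.length_append, List.length_replicate] at hlen
  obtain ⟨es00, e0, r, h1, h2, h3, h4⟩ := cut (fun e => (out e).length) es x.length (by omega)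
  rw [← len_flat] at h3 h4
  rw [← len_flat] at h4
  have h5 : es00.flatMap out ++ (e0.flatMap out ++ r.flatMap out)
      = x ++ (List.replicate J b ++ u) := by
    rw [h1, List.flatMap_append, List.flatMap_append, List.append_assoc, List.append_assoc] at h
    exact h
  obtain ⟨x2, h6, h7⟩ : ∃ x2, x = es00.flatMap out ++ x2 ∧
      e0.flatMap out ++ r.flatMap out = x2 ++ (List.replicate J b ++ u) := by
    rcases List.append_eq_append_iff.1 h5 with ⟨a, ha1, ha2⟩ | ⟨a, ha1, ha2⟩
    · exact ⟨a, ha1, ha2⟩
    · have h8 := congrArg List.length ha1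
      rw [List.length_append] at h8
      have h9 : a = [] := List.eq_nil_iff_length_eq_zero.2 (by omega)
      rw [h9, List.append_nil] at ha1
      rw [h9, List.nil_append] at ha2
      exact ⟨[], by rw [ha1, List.append_nil], by rw [List.nil_append, ha2]⟩
  have h8 : x.length = (es00.flatMap out).length + x2.length := by
    rw [h6, List.length_append]
  obtain ⟨y, h9, h10⟩ : ∃ y, e0.flatMap out = x2 ++ y ∧
      List.replicate J b ++ u = y ++ r.flatMap out := by
    rcases List.append_eq_append_iff.1 h7 with ⟨a, ha1, ha2⟩ | ⟨a, ha1, ha2⟩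
    · have h10 := congrArg List.length ha1
      rw [List.length_append] at h10
      have h9 : a = [] := List.eq_nil_iff_length_eq_zero.2 (by omega)
      rw [h9, List.append_nil] at ha1
      rw [h9, List.nil_append] at ha2
      exact ⟨[], by rw [ha1, List.append_nil], by rw [List.nil_append, ha2]⟩
    · exact ⟨a, ha1, ha2⟩
  have he0 : (e0.flatMap out).length ≤ ℓ := by
    rw [len_flat]
    exact one_le hℓ h2
  have hy : y.length ≤ ℓ := by
    rw [h9, List.length_append] at he0
    omega
  obtain ⟨h11, h12⟩ := pre h10.symm (hy.trans hJ)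
  have hr : J - y.length ≤ (r.map fun e => (out e).length).sum := by
    rw [← len_flat, h12, List.length_append, List.length_replicate]
    omega
  obtain ⟨es1, es2, h13, h14, h15⟩ := split (fun e => (out e).length) ℓ hℓ r (J - y.length) hr
  rw [← len_flat] at h14 h15
  rw [h13, List.flatMap_append] at h12
  obtain ⟨h16, h17⟩ := pre h12 h14
  refine ⟨es00, e0, es1, es2, x2, y.length, (es1.flatMap out).length,
    J - y.length - (es1.flatMap out).length, ?_, h2, h6, ?_, h16, h17, by omega, hy, by omega⟩
  · rw [h1, h13, ← List.append_assoc]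
  · rw [← h11]
    exact h9

end Main2Aux

open MainAux Main2Aux in
theorem not_mem2 {Δ Γ : Finset ℕ} {b c : ℕ} {X : Language ℕ} {R : List ℕ → ℕ → Language ℕ}
    (H : Hyp2 Δ Γ b c X R) : LR2 Γ b X R ∉ TC (BR2 Γ b c X R) := by
  classical
  rintro ⟨T0, hT0⟩
  obtain ⟨σI, hσI, MI, hMI⟩ := wf_reg2 H
  obtain ⟨σO, hσO, MO, hMO⟩ := H.regX
  obtain ⟨T, hT1, tI, tO, hini, htyp⟩ := typed T0 MI MO
  have hT : LR2 Γ b X R = T.img (BR2 Γ b c X R) := by
    rw [hT1]
    exact hT0
  have hfσ := T.fσ
  have hfE := T.fE
  obtain ⟨ℓ', hℓ'⟩ := bdd (fun e : T.E => (T.out e).length)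
  obtain ⟨ℓ, hℓ0, hℓ⟩ : ∃ ℓ, 0 < ℓ ∧ ∀ e : T.E, (T.out e).length ≤ ℓ :=
    ⟨ℓ' + 1, Nat.succ_pos _, fun e => (hℓ' e).trans (Nat.le_succ _)⟩
  obtain ⟨m, hm⟩ := bdd (fun e : T.E => (T.inp e).count b)
  obtain ⟨τ, hτ, MV, hMV⟩ := v_reg2 H (2 * (m * Nat.card T.σ) + m)
  obtain ⟨D, hD0, hD⟩ : ∃ D, 0 < D ∧ ∀ l, 1 ≤ l → l ≤ ℓ * (Nat.card (T.σ × τ) + 2) → l ∣ D :=
    ⟨(ℓ * (Nat.card (T.σ × τ) + 2)).factorial, Nat.factorial_pos _,
      fun l h1 h2 => Nat.dvd_factorial h1 h2⟩
  have hcard : Nat.card T.σ ≤ Nat.card (T.σ × τ) := by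
    rw [Nat.card_prod]
    have : Nonempty τ := ⟨MV.start⟩
    exact Nat.le_mul_of_pos_right _ Nat.card_pos
  -- loops reading the letter `b`
  have hrep : ∀ P : List T.E → Prop, ∃ (y : List T.E) (K0 : ℕ),
      (∃ y', P y' ∧ c ∉ y'.flatMap T.inp ∧ b ∈ y'.flatMap T.inp) → (P y ∧
      ∀ k, K0 ≤ k → ∀ z1 z2 : List ℕ,
        z1 ++ (List.replicate k (y.flatMap T.inp)).flatten ++ z2 ∈ WF2 Γ b c X →
        z1 ++ (List.replicate k (y.flatMap T.inp)).flatten ++ z2 ∈ BR2 Γ b c X R) := by
    intro P
    by_cases h : ∃ y', P y' ∧ c ∉ y'.flatMap T.inp ∧ b ∈ y'.flatMap T.inp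
    · obtain ⟨y, hy, hyc, hyb⟩ := h
      obtain ⟨K0, hK0⟩ := rep_mem2 H (y.flatMap T.inp) hyc hyb
      exact ⟨y, K0, fun _ => ⟨hy, hK0⟩⟩
    · exact ⟨[], 0, fun h' => absurd h' h⟩
  choose yA KA hyA using fun s : T.σ =>
    hrep (fun y => IsPath T.src T.tgt s y s ∧ Ov Δ (y.flatMap T.out))
  choose yB KB hyB using fun s : T.σ =>
    hrep (fun y => IsPath T.src T.tgt s y s ∧ ∀ a ∈ y.flatMap T.out, a = b)
  obtain ⟨κA, hκA⟩ := bdd KA
  obtain ⟨κ, hκ⟩ := bdd KB
  have hdel : ∀ s : T.σ, ∃ C : ℕ, ∀ (p q : T.σ) (es : List T.E), IsPath T.src T.tgt p es q →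
      C ≤ (es.map (fun e => (T.out e).length)).sum →
      ∃ es' : List T.E, IsPath T.src T.tgt p es' q ∧ es'.Sublist es ∧
        (es'.map (fun e => (T.out e).length)).sum + (D + κ * D * ((yB s).flatMap T.out).length)
          = (es.map (fun e => (T.out e).length)).sum := by
    intro s
    obtain ⟨C, hC⟩ := del T.src T.tgt (fun e => (T.out e).length) ℓ
      (D + κ * D * ((yB s).flatMap T.out).length) hℓ0 hℓ (by
        intro l h1 h2
        have h3 : l ∣ D := hD l h1 (h2.trans (Nat.mul_le_mul_left _ (by omega)))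
        exact (Nat.dvd_add_right h3).2 (Dvd.dvd.mul_right (Dvd.dvd.mul_left h3 _) _))
    refine ⟨C, fun p q es h1 h2 => ?_⟩
    obtain ⟨es', h3, h4, h5, -⟩ := hC p q es h1 h2
    exact ⟨es', h3, h4, h5⟩
  choose C hC using hdel
  obtain ⟨Cm, hCm⟩ := bdd C
  obtain ⟨CD, hCD⟩ := del T.src T.tgt (fun e => (T.out e).length) ℓ D hℓ0 hℓ
    (fun l h1 h2 => hD l h1 (h2.trans (Nat.mul_le_mul_left _ (by omega))))
  obtain ⟨CB, hCB⟩ := delR T.src T.tgt T.inp b MV (fun e => (T.out e).length) ℓ D hℓ0 hℓ hD
  set j : ℕ := 2 * Cm + CB + CD + 4 * ℓ + 1 with hj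
  obtain ⟨x, hx, uu, huu⟩ := H.ne (j + 1)
  obtain ⟨u, hu⟩ : ∃ u, u ∈ R x j := ⟨uu j, huu j (Nat.lt_succ_self j)⟩
  clear huu uu
  have hou := H.ovR x j u hu
  have hexm : ∃ n : ℕ, u ∉ R x (j + n * D) := by
    obtain ⟨M, hM⟩ := H.fin u
    refine ⟨M, hM x hx _ ?_⟩
    have := Nat.le_mul_of_pos_right M hD0
    omega
  obtain ⟨m', hm1, hm2⟩ : ∃ m', u ∉ R x (j + (m' + 1) * D) ∧ u ∈ R x (j + m' * D) := by
    have h1 := Nat.find_spec hexm
    have h2 : Nat.find hexm ≠ 0 := by
      intro h0
      rw [h0, zero_mul, add_zero] at h1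
      exact h1 hu
    obtain ⟨m', hm'⟩ := Nat.exists_eq_succ_of_ne_zero h2
    refine ⟨m', ?_, ?_⟩
    · rw [hm'] at h1
      exact h1
    · have h3 := Nat.find_min hexm (m := m') (by omega)
      exact not_not.1 h3
  set J : ℕ := j + (m' + 1) * D with hJ
  have hJD : J = (j + m' * D) + D := by
    rw [hJ]
    ring
  have hin : x ++ List.replicate J b ++ u ∈ LR2 Γ b X R := (lr2_iff H hx hou).2 hm1
  rw [hT] at hin
  obtain ⟨p, hpi, q, hqf, es, hpath, hinp, hout⟩ := hin
  have hbad : ∀ x' ∈ X, x.Sublist x' → ∀ es', IsPath T.src T.tgt p es' q →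
      es'.flatMap T.inp ∈ BR2 Γ b c X R →
      es'.flatMap T.out = x' ++ List.replicate (J - D) b ++ u → False := by
    intro x' hx' hxx es' h1 h2 h3
    have h4 : x' ++ List.replicate (J - D) b ++ u ∈ T.img (BR2 Γ b c X R) :=
      ⟨p, hpi, q, hqf, es', h1, h2, h3⟩
    rw [← hT, lr2_iff H hx' hou] at h4
    apply h4
    have h5 : J - D = j + m' * D := by omega
    rw [h5]
    exact H.mono x' hx' x hx hxx _ u hm2
  -- all paths from `p` to `q` read words in `WF2`
  have hW : ∀ es', IsPath T.src T.tgt p es' q → es'.flatMap T.inp ∈ WF2 Γ b c X := by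
    intro es' h1
    have h2 := (htyp p q es hpath).1
    have h3 := (htyp p q es' h1).1
    have h4 : es.flatMap T.inp ∈ MI.accepts := by
      rw [hMI]
      exact br_wf hinp
    have h5 : es'.flatMap T.inp ∈ MI.accepts := by
      have h6 : MI.evalFrom MI.start (es.flatMap T.inp) ∈ MI.accept := h4
      have h7 : MI.evalFrom MI.start (es'.flatMap T.inp) ∈ MI.accept := by
        rw [← (hini p hpi).1, ← h3, h2, (hini p hpi).1]
        exact h6
      exact h7
    rw [hMI] at h5
    exact h5
  have hcf : ∀ (x z w : List T.E) (s : T.σ), es = x ++ z ++ w → IsPath T.src T.tgt s z s →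
      c ∉ z.flatMap T.inp := by
    intro x z w s h1 h2 h3
    have hzne : z ≠ [] := by
      rintro rfl
      exact List.not_mem_nil h3
    rw [h1] at hpath
    obtain ⟨h4, h5⟩ := hpath.of_loop h2 hzne
    have h6 := wf_count H (hW _ hpath)
    have h7 := wf_count H (hW _ ((h4.trans (h2.trans h2)).trans h5))
    have h8 : 0 < (z.flatMap T.inp).count c := List.count_pos_iff.2 h3
    rw [List.flatMap_append, List.flatMap_append, List.count_append, List.count_append] at h6 h7
    rw [List.flatMap_append, List.count_append] at h7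
    omega
  obtain ⟨es00, e0, es1, es2, x2, t, J1, t2, hes, he0, hxe, hoe0, hoe1, hoe2, hsumJ, htl, ht2l⟩ :=
    split2 T.out ℓ hℓ es x u b J (by omega) hout
  have hJ1 : (es1.flatMap T.out).length = J1 := by
    rw [hoe1, List.length_replicate]
  have hcfl : ∀ (a f d : List T.E), es = a ++ f ++ d → ∀ (x z w : List T.E) (s : T.σ),
      f = x ++ z ++ w → IsPath T.src T.tgt s z s → c ∉ z.flatMap T.inp := by
    intro a f d h1 x z w s h2 h3
    refine hcf (a ++ x) z (w ++ d) s ?_ h3
    rw [h1, h2]
    simp [List.append_assoc]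
  have hpath' := hpath
  rw [hes] at hpath'
  obtain ⟨q1, hp1, hp2⟩ := isPath_append.1 hpath'
  obtain ⟨q0', hp3, hp4⟩ := isPath_append.1 hp1
  obtain ⟨q0, hp5, hp6⟩ := isPath_append.1 hp3
  -- `hp5 : es00`, `hp6 : e0`, `hp4 : es1`, `hp2 : es2`
  by_cases hA : ∃ (a1 a2 : List T.E) (s : T.σ), es00 = a1 ++ a2 ∧ IsPath T.src T.tgt p a1 s ∧
      IsPath T.src T.tgt s a2 q0 ∧ ∃ y', (IsPath T.src T.tgt s y' s ∧ Ov Δ (y'.flatMap T.out)) ∧
        c ∉ y'.flatMap T.inp ∧ b ∈ y'.flatMap T.inp
  · -- Case A
    obtain ⟨a1, a2, s, ha, hpa1, hpa2, hcyc⟩ := hA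
    obtain ⟨⟨hcy, hcy2⟩, hrp⟩ := hyA s hcyc
    obtain ⟨es1', h1, h2, h3, -⟩ := hCD q0' q1 es1 hp4 (by rw [← len_flat]; omega)
    rw [← len_flat, ← len_flat, hJ1] at h3
    have hpn : IsPath T.src T.tgt p (a1 ++ (List.replicate κA (yA s)).flatten ++
        (a2 ++ e0 ++ es1' ++ es2)) q :=
      (hpa1.trans (hcy.loop_pow _)).trans (((hpa2.trans hp6).trans h1).trans hp2)
    have hwn := hW _ hpn
    have hob : es1'.flatMap T.out = List.replicate (J1 - D) b := by
      apply rep_of
      · refine sub_prop (fun e he => h2.subset he) ?_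
        rw [hoe1]
        exact fun a ha => List.eq_of_mem_replicate ha
      · omega
    rw [List.flatMap_append, List.flatMap_append, flat_pow] at hwn
    refine hbad (a1.flatMap T.out ++ (List.replicate κA ((yA s).flatMap T.out)).flatten ++
      a2.flatMap T.out ++ x2) ?_ ?_ _ hpn ?_ ?_
    · -- in `X`
      have h5 := (htyp p s a1 hpa1).2
      rw [(hini p hpi).2] at h5
      have h6 := (htyp s s _ (hcy.loop_pow κA)).2
      rw [flat_pow] at h6
      have h7 : x ∈ MO.accepts := by
        rw [hMO]
        exact hx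
      have h8 : MO.evalFrom MO.start x ∈ MO.accept := h7
      have h9 : MO.evalFrom MO.start (a1.flatMap T.out ++
          (List.replicate κA ((yA s).flatMap T.out)).flatten ++ a2.flatMap T.out ++ x2)
          ∈ MO.accept := by
        rw [hxe, ha, List.flatMap_append, DFA.evalFrom_of_append, DFA.evalFrom_of_append,
          ← h5] at h8
        rw [DFA.evalFrom_of_append, DFA.evalFrom_of_append, DFA.evalFrom_of_append, ← h5, ← h6]
        exact h8
      have h10 : (a1.flatMap T.out ++ (List.replicate κA ((yA s).flatMap T.out)).flatten ++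
          a2.flatMap T.out ++ x2) ∈ MO.accepts := h9
      rw [hMO] at h10
      exact h10
    · -- `x` is a sublist
      rw [hxe, ha, List.flatMap_append]
      exact ((List.sublist_append_left _ _).append (List.Sublist.refl _)).append
        (List.Sublist.refl _)
    · rw [List.flatMap_append, List.flatMap_append, flat_pow]
      exact hrp κA (hκA s) _ _ hwn
    · rw [List.flatMap_append, List.flatMap_append, flat_pow, List.flatMap_append,
        List.flatMap_append, List.flatMap_append, hoe0, hob, hoe2]
      have e1 : List.replicate (J - D) b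
          = List.replicate t b ++ List.replicate (J1 - D) b ++ List.replicate t2 b := by
        rw [List.replicate_append_replicate, List.replicate_append_replicate]
        congr 1
        omega
      rw [e1]
      simp only [List.append_assoc]
  by_cases hB : ∃ (a1 a2 : List T.E) (s : T.σ), es1 = a1 ++ a2 ∧ IsPath T.src T.tgt q0' a1 s ∧
      IsPath T.src T.tgt s a2 q1 ∧ ∃ y', (IsPath T.src T.tgt s y' s ∧
        ∀ a ∈ y'.flatMap T.out, a = b) ∧ c ∉ y'.flatMap T.inp ∧ b ∈ y'.flatMap T.inp
  · -- Case B
    obtain ⟨a1, a2, s, ha, hpa1, hpa2, hcyc⟩ := hB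
    obtain ⟨⟨hcy, hcy2⟩, hrp⟩ := hyB s hcyc
    have hb1 : ∀ a ∈ es1.flatMap T.out, a = b := by
      rw [hoe1]
      exact fun a ha => List.eq_of_mem_replicate ha
    have hsum : (a1.flatMap T.out).length + (a2.flatMap T.out).length = J1 := by
      rw [← hJ1, ha, List.flatMap_append, List.length_append]
    have hCs := hCm s
    -- shorten one of the two parts
    obtain ⟨a1', a2', h1, h2, hs1, hs2, h3⟩ : ∃ a1' a2' : List T.E,
        IsPath T.src T.tgt q0' a1' s ∧ IsPath T.src T.tgt s a2' q1 ∧
        (∀ e ∈ a1', e ∈ es1) ∧ (∀ e ∈ a2', e ∈ es1) ∧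
        (a1'.flatMap T.out).length + (a2'.flatMap T.out).length
          + (D + κ * D * ((yB s).flatMap T.out).length) = J1 := by
      by_cases hlong : Cm ≤ (a1.flatMap T.out).length
      · obtain ⟨a1', h1, h2, h3⟩ := hC s q0' s a1 hpa1 (by rw [← len_flat]; omega)
        rw [← len_flat, ← len_flat] at h3
        refine ⟨a1', a2, h1, hpa2, fun e he => ?_, fun e he => ?_, by omega⟩
        · rw [ha]
          exact List.mem_append_left _ (h2.subset he)
        · rw [ha]
          exact List.mem_append_right _ he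
      · obtain ⟨a2', h1, h2, h3⟩ := hC s s q1 a2 hpa2 (by rw [← len_flat]; omega)
        rw [← len_flat, ← len_flat] at h3
        refine ⟨a1, a2', hpa1, h1, fun e he => ?_, fun e he => ?_, by omega⟩
        · rw [ha]
          exact List.mem_append_left _ he
        · rw [ha]
          exact List.mem_append_right _ (h2.subset he)
    have hpn : IsPath T.src T.tgt p (es00 ++ e0 ++ a1' ++ (List.replicate (κ * D) (yB s)).flatten ++
        (a2' ++ es2)) q :=
      (((hp5.trans hp6).trans h1).trans (hcy.loop_pow _)).trans (h2.trans hp2)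
    have hwn := hW _ hpn
    rw [List.flatMap_append, List.flatMap_append, flat_pow] at hwn
    refine hbad x hx (List.Sublist.refl _) _ hpn ?_ ?_
    · rw [List.flatMap_append, List.flatMap_append, flat_pow]
      exact hrp (κ * D) ((hκ s).trans (Nat.le_mul_of_pos_right _ hD0)) _ _ hwn
    · have e1 : a1'.flatMap T.out ++ (List.replicate (κ * D) ((yB s).flatMap T.out)).flatten
          ++ a2'.flatMap T.out = List.replicate (J1 - D) b := by
        apply rep_of
        · intro a haa
          rcases List.mem_append.1 haa with haa | haa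
          · rcases List.mem_append.1 haa with haa | haa
            · exact sub_prop hs1 hb1 a haa
            · exact hcy2 a (mem_pow haa)
          · exact sub_prop hs2 hb1 a haa
        · rw [List.length_append, List.length_append, len_pow]
          omega
      have e2 : List.replicate (J - D) b
          = List.replicate t b ++ (a1'.flatMap T.out ++
            (List.replicate (κ * D) ((yB s).flatMap T.out)).flatten ++ a2'.flatMap T.out) ++
            List.replicate t2 b := by
        rw [e1, List.replicate_append_replicate, List.replicate_append_replicate]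
        congr 1
        omega
      rw [e2, List.flatMap_append, List.flatMap_append, List.flatMap_append, List.flatMap_append,
        List.flatMap_append, flat_pow, hoe0, hoe2, hxe]
      simp only [List.append_assoc]
  · -- Case C
    have hloop1 : ∀ x z w : List T.E, ∀ s : T.σ, es1 = x ++ z ++ w → IsPath T.src T.tgt s z s →
        (z.flatMap T.inp).count b = 0 := by
      intro x z w s h1 h2
      by_contra hne
      have hbm : b ∈ z.flatMap T.inp := by
        by_contra hb'
        exact hne (List.count_eq_zero.2 hb')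
      have hzne : z ≠ [] := by
        rintro rfl
        exact hne rfl
      have hp4' := hp4
      rw [h1] at hp4'
      obtain ⟨h3, h4⟩ := hp4'.of_loop h2 hzne
      have hsub : ∀ e ∈ z, e ∈ es1 := by
        intro e he
        rw [h1]
        exact List.mem_append_left _ (List.mem_append_right _ he)
      refine hB ⟨x, z ++ w, s, by rw [h1, List.append_assoc], h3, h2.trans h4, z, ⟨h2, ?_⟩,
        hcfl (es00 ++ e0) es1 es2 hes x z w s h1 h2, hbm⟩
      refine sub_prop hsub ?_
      rw [hoe1]
      exact fun a ha => List.eq_of_mem_replicate ha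
    have hloop0 : ∀ x' z w : List T.E, ∀ s : T.σ, es00 = x' ++ z ++ w →
        IsPath T.src T.tgt s z s → (z.flatMap T.inp).count b = 0 := by
      intro x' z w s h1 h2
      by_contra hne
      have hbm : b ∈ z.flatMap T.inp := by
        by_contra hb'
        exact hne (List.count_eq_zero.2 hb')
      have hzne : z ≠ [] := by
        rintro rfl
        exact hne rfl
      have hp5' := hp5
      rw [h1] at hp5'
      obtain ⟨h3, h4⟩ := hp5'.of_loop h2 hzne
      have hsub : ∀ e ∈ z, e ∈ es00 := by
        intro e he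
        rw [h1]
        exact List.mem_append_left _ (List.mem_append_right _ he)
      have hes' : es = [] ++ es00 ++ (e0 ++ es1 ++ es2) := by
        rw [hes]
        simp [List.append_assoc]
      refine hA ⟨x', z ++ w, s, by rw [h1, List.append_assoc], h3, h2.trans h4, z, ⟨h2, ?_⟩,
        hcfl [] es00 _ hes' x' z w s h1 h2, hbm⟩
      refine sub_prop (P := fun a => a ∈ Δ) hsub ?_
      intro a ha
      refine H.ovX x hx a ?_
      rw [hxe]
      exact List.mem_append_left _ ha
    have hν1 : (es1.flatMap T.inp).count b ≤ m * Nat.card T.σ := by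
      rw [count_flat]
      refine count_le T.src T.tgt _ m hm q0' q1 es1 hp4 ?_
      intro x z w s h1 h2
      rw [← count_flat]
      exact hloop1 x z w s h1 h2
    have hν0 : (es00.flatMap T.inp).count b ≤ m * Nat.card T.σ := by
      rw [count_flat]
      refine count_le T.src T.tgt _ m hm p q0 es00 hp5 ?_
      intro x z w s h1 h2
      rw [← count_flat]
      exact hloop0 x z w s h1 h2
    have hν2 : (e0.flatMap T.inp).count b ≤ m := by
      rw [count_flat]
      exact one_le hm he0
    obtain ⟨es1', h1, h2, h3, h4, h5⟩ := hCB (MV.eval ((es00 ++ e0).flatMap T.inp)) q0' q1 es1 hp4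
      (by rw [← len_flat]; omega) hloop1
    rw [← len_flat, ← len_flat, hJ1] at h3
    have hpn : IsPath T.src T.tgt p ((es00 ++ e0 ++ es1') ++ es2) q := (hp3.trans h1).trans hp2
    have hob : es1'.flatMap T.out = List.replicate (J1 - D) b := by
      apply rep_of
      · refine sub_prop (fun e he => h2.subset he) ?_
        rw [hoe1]
        exact fun a ha => List.eq_of_mem_replicate ha
      · omega
    refine hbad x hx (List.Sublist.refl _) _ hpn ?_ ?_
    · have hwn := hW _ hpn
      rw [List.flatMap_append] at hwn ⊢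
      have hinp' := hinp
      rw [hes, List.flatMap_append] at hinp'
      refine replace2 H MV hMV hinp' ?_ ?_ ?_ ?_ hwn
      · rw [List.flatMap_append, List.flatMap_append, List.count_append, List.count_append]
        omega
      · rw [List.flatMap_append (ys := es1'), List.flatMap_append (ys := es1), List.count_append,
          List.count_append, h4]
      · rw [List.flatMap_append, List.flatMap_append (xs := es00 ++ e0) (ys := es1)]
        unfold DFA.eval at h5 ⊢
        rw [DFA.evalFrom_of_append, DFA.evalFrom_of_append, h5]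
      · exact ((List.Sublist.refl _).append h2).flatMap _
    · rw [List.flatMap_append, List.flatMap_append, List.flatMap_append, hob, hoe0, hoe2, hxe]
      have e1 : List.replicate (J - D) b
          = List.replicate t b ++ List.replicate (J1 - D) b ++ List.replicate t2 b := by
        rw [List.replicate_append_replicate, List.replicate_append_replicate]
        congr 1
        omega
      rw [e1]
      simp only [List.append_assoc]

end Pool.Agent.Lib.BCC
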