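import Mathlib

/-!
# Parikh's theorem: definitions (MP_f1c4ef_lc)
-/

set_option autoImplicit false

namespace Pool.Agent.Lib.BCC

/-- the nonterminals in a string -/
def ntM {N : Type} (s : List (Symbol ℕ N)) : Multiset N :=
  ((s.filterMap fun a => match a with
    | Symbol.nonterminal A => some A
    | Symbol.terminal _ => none : List N) : Multiset N)

/-- the terminals in a string -/
def tms {N : Type} (s : List (Symbol ℕ N)) : List ℕ :=
  s.filterMap fun a => match a with
    | Symbol.nonterminal _ => none
    | Symbol.terminal t => some t

/-- `Run lhs rhs M x`: starting with the tokens `M`, the rules `x` (each as often as it occurs in `x`)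
can be fired in some order such that no token is left; firing `r` replaces the token `lhs r` by the
tokens `rhs r` -/
inductive Run {R N : Type} (lhs : R → N) (rhs : R → Multiset N) : Multiset N → Multiset R → Prop
  | nil : Run lhs rhs 0 0
  | cons (r : R) (M : Multiset N) (x : Multiset R) (h : Run lhs rhs (M + rhs r) x) :
      Run lhs rhs (M + {lhs r}) (r ::ₘ x)

/-- one step in the graph of the rules in `x` -/
def Stp {R N : Type} (lhs : R → N) (rhs : R → Multiset N) (x : Multiset R) (A B : N) : Prop :=
  ∃ r ∈ x, lhs r = A ∧ B ∈ rhs r

/-- every rule in `x` has a left side that is reachable from a token in `M` -/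
def Rch {R N : Type} (lhs : R → N) (rhs : R → Multiset N) (M : Multiset N) (x : Multiset R) : Prop :=
  ∀ r ∈ x, ∃ B ∈ M, Relation.ReflTransGen (Stp lhs rhs x) B (lhs r)

end Pool.Agent.Lib.BCC
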