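import Pool.Agent.Lib.BCC.PDefs

/-!
# Module BCC.ParN: the rules used in a derivation (MP_f1c4ef_lc)

PROOF: for every `s` with `g.Derives [nonterminal g.initial] s` there is a multiset `x` of rules with (1) all in `g.rules`, (2)
`{g.initial} + (x.map (ntM output)).sum = x.map input + ntM s`, (3) every `r ∈ x` has a left side reachable from `g.initial` in the graph of `x` and
every `A ∈ ntM s` is reachable too, (4) `(tms s).count a = (x.map (count a of tms output)).sum`. Induction on the derivation (last step): use
`Rewrites.exists_parts`; add the rule to `x`, reachability is monotone in `x`. For `s = w.map terminal`: `ntM s = 0`, `tms s = w`.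
-/

set_option autoImplicit false

namespace Pool.Agent.Lib.BCC

namespace ParNAux

theorem ntM_append {N : Type} (s t : List (Symbol ℕ N)) : ntM (s ++ t) = ntM s + ntM t := by
  simp [ntM, List.filterMap_append]

theorem tms_append {N : Type} (s t : List (Symbol ℕ N)) : tms (s ++ t) = tms s ++ tms t := by
  simp [tms, List.filterMap_append]

theorem ntM_single {N : Type} (A : N) : ntM [(Symbol.nonterminal A : Symbol ℕ N)] = {A} := by
  simp [ntM]

theorem tms_single {N : Type} (A : N) : tms [(Symbol.nonterminal A : Symbol ℕ N)] = [] := by
  simp [tms]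

theorem ntM_term {N : Type} (w : List ℕ) : ntM (w.map (Symbol.terminal : ℕ → Symbol ℕ N)) = 0 := by
  induction w with
  | nil => simp [ntM]
  | cons a w ih =>
    rw [List.map_cons, ← List.singleton_append, ntM_append, ih]
    simp [ntM]

theorem tms_term {N : Type} (w : List ℕ) : tms (w.map (Symbol.terminal : ℕ → Symbol ℕ N)) = w := by
  induction w with
  | nil => simp [tms]
  | cons a w ih =>
    rw [List.map_cons, ← List.singleton_append, tms_append, ih]
    simp [tms]

theorem main (g : ContextFreeGrammar ℕ) (s : List (Symbol ℕ g.NT))
    (hs : g.Derives [Symbol.nonterminal g.initial] s) :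
    ∃ x : Multiset (ContextFreeRule ℕ g.NT), (∀ r ∈ x, r ∈ g.rules) ∧
      ({g.initial} : Multiset g.NT) + (x.map fun r => ntM r.output).sum =
        x.map ContextFreeRule.input + ntM s ∧
      Rch ContextFreeRule.input (fun r => ntM r.output) {g.initial} x ∧
      (∀ A ∈ ntM s, Relation.ReflTransGen
        (Stp ContextFreeRule.input (fun r => ntM r.output) x) g.initial A) ∧
      ∀ a, (tms s).count a = (x.map fun r => (tms r.output).count a).sum := by
  induction hs with
  | refl =>
    refine ⟨0, by simp, ?_, ?_, ?_, ?_⟩
    · simp [ntM_single]
    · intro r hr; simp at hr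
    · intro A hA
      rw [ntM_single, Multiset.mem_singleton] at hA
      rw [hA]
    · intro a; simp [tms_single]
  | @tail u v _ huv ih =>
    obtain ⟨x, h1, h2, h3, h4, h5⟩ := ih
    obtain ⟨r, hr, hrw⟩ := huv
    obtain ⟨p, q, hu, hv⟩ := hrw.exists_parts
    have hmono : ∀ A B, Relation.ReflTransGen
        (Stp ContextFreeRule.input (fun r => ntM r.output) x) A B →
        Relation.ReflTransGen
        (Stp ContextFreeRule.input (fun r => ntM r.output) (r ::ₘ x)) A B := by
      intro A B hAB
      refine Relation.ReflTransGen.mono ?_ A B hAB
      rintro C D ⟨r', hr', h, h'⟩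
      exact ⟨r', Multiset.mem_cons_of_mem hr', h, h'⟩
    have hin : Relation.ReflTransGen
        (Stp ContextFreeRule.input (fun r => ntM r.output) x) g.initial r.input := by
      apply h4
      rw [hu, ntM_append, ntM_append, ntM_single]
      simp
    refine ⟨r ::ₘ x, ?_, ?_, ?_, ?_, ?_⟩
    · intro r' hr'
      rcases Multiset.mem_cons.1 hr' with rfl | h
      · exact hr
      · exact h1 r' h
    · rw [hu, ntM_append, ntM_append, ntM_single] at h2
      rw [hv, ntM_append, ntM_append, Multiset.map_cons, Multiset.map_cons, Multiset.sum_cons]
      have h2' : ({g.initial} : Multiset g.NT) + (x.map fun r => ntM r.output).sum + ntM r.output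
          = x.map ContextFreeRule.input + (ntM p + {r.input} + ntM q) + ntM r.output := by
        rw [h2]
      calc ({g.initial} : Multiset g.NT) + (ntM r.output + (x.map fun r => ntM r.output).sum)
          = ({g.initial} : Multiset g.NT) + (x.map fun r => ntM r.output).sum + ntM r.output := by
            abel
        _ = x.map ContextFreeRule.input + (ntM p + {r.input} + ntM q) + ntM r.output := h2'
        _ = ({r.input} + x.map ContextFreeRule.input) + (ntM p + ntM r.output + ntM q) := by abel
        _ = _ := by rw [Multiset.singleton_add]
    · intro r' hr'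
      rcases Multiset.mem_cons.1 hr' with rfl | h
      · exact ⟨g.initial, by simp, hmono _ _ hin⟩
      · obtain ⟨B, hB, hBr⟩ := h3 r' h
        exact ⟨B, hB, hmono _ _ hBr⟩
    · intro A hA
      rw [hv, ntM_append, ntM_append, Multiset.mem_add, Multiset.mem_add] at hA
      rcases hA with (hA | hA) | hA
      · apply hmono; apply h4
        rw [hu, ntM_append, ntM_append]
        simp [hA]
      · refine (hmono _ _ hin).tail ⟨r, by simp, rfl, hA⟩
      · apply hmono; apply h4
        rw [hu, ntM_append, ntM_append]
        simp [hA]
    · intro a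
      have h5' := h5 a
      rw [hu, tms_append, tms_append, tms_single, List.append_nil, List.count_append] at h5'
      rw [hv, tms_append, tms_append, List.count_append, List.count_append, Multiset.map_cons,
        Multiset.sum_cons, ← h5']
      ring

end ParNAux

theorem par_nec (g : ContextFreeGrammar ℕ) (w : List ℕ) (hw : w ∈ g.language) :
    ∃ x : Multiset (ContextFreeRule ℕ g.NT), (∀ r ∈ x, r ∈ g.rules) ∧
      ({g.initial} : Multiset g.NT) + (x.map fun r => ntM r.output).sum =
        x.map ContextFreeRule.input ∧
      Rch ContextFreeRule.input (fun r => ntM r.output) {g.initial} x ∧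
      ∀ a, w.count a = (x.map fun r => (tms r.output).count a).sum := by
  obtain ⟨x, h1, h2, h3, -, h5⟩ := ParNAux.main g (w.map Symbol.terminal) hw
  refine ⟨x, h1, ?_, h3, ?_⟩
  · rw [h2, ParNAux.ntM_term, add_zero]
  · intro a
    rw [← h5 a, ParNAux.tms_term]

end Pool.Agent.Lib.BCC
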