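import Pool.Agent.Lib.BCC.PDefs

/-!
# Module BCC.ParS: from a run to a derivation (MP_f1c4ef_lc)

PROOF: more generally for every string `s` with `ntM s = M` and every `Run _ _ M x` with rules in `g.rules` there is `w` with
`g.Derives s (w.map terminal)` and `w.count a = (tms s).count a + (x.map ...).sum`. Induction on the run: for `nil` the string has no nonterminals, so it is
`(tms s).map terminal`; for `cons r M x` the nonterminal `r.input` occurs in `s = p ++ [nonterminal r.input] ++ q`; rewrite it to
`p ++ r.output ++ q` and use the induction hypothesis.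
-/

set_option autoImplicit false

namespace Pool.Agent.Lib.BCC

namespace ParSAux

theorem ntM_append {N : Type} (s t : List (Symbol ℕ N)) : ntM (s ++ t) = ntM s + ntM t := by
  unfold ntM
  rw [List.filterMap_append, ← Multiset.coe_add]

theorem tms_append {N : Type} (s t : List (Symbol ℕ N)) : tms (s ++ t) = tms s ++ tms t := by
  unfold tms
  rw [List.filterMap_append]

theorem ntM_nt {N : Type} (A : N) : ntM ([Symbol.nonterminal A] : List (Symbol ℕ N)) = {A} := rfl

theorem tms_nt {N : Type} (A : N) : tms ([Symbol.nonterminal A] : List (Symbol ℕ N)) = [] := rfl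

theorem ntM_cons {N : Type} (a : Symbol ℕ N) (s : List (Symbol ℕ N)) :
    ntM (a :: s) = ntM [a] + ntM s := by
  have : a :: s = [a] ++ s := rfl
  rw [this, ntM_append]

theorem tms_cons {N : Type} (a : Symbol ℕ N) (s : List (Symbol ℕ N)) :
    tms (a :: s) = tms [a] ++ tms s := by
  have : a :: s = [a] ++ s := rfl
  rw [this, tms_append]

theorem eq_of_ntM_zero {N : Type} : ∀ s : List (Symbol ℕ N), ntM s = 0 →
    s = (tms s).map Symbol.terminal
  | [], _ => rfl
  | Symbol.terminal t :: s, h => by
    rw [ntM_cons] at h
    have h1 : ntM s = 0 := by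
      have := (add_eq_zero.1 h).2
      exact this
    have h2 := eq_of_ntM_zero s h1
    rw [tms_cons]
    have h3 : tms ([Symbol.terminal t] : List (Symbol ℕ N)) = [t] := rfl
    rw [h3]
    simp only [List.singleton_append, List.map_cons]
    rw [← h2]
  | Symbol.nonterminal A :: s, h => by
    rw [ntM_cons, ntM_nt] at h
    have := (add_eq_zero.1 h).1
    exact absurd this (Multiset.singleton_ne_zero A)

theorem exists_of_mem {N : Type} (A : N) : ∀ s : List (Symbol ℕ N), A ∈ ntM s →
    ∃ p q : List (Symbol ℕ N), s = p ++ [Symbol.nonterminal A] ++ q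
  | [], h => by
    exact absurd h (Multiset.notMem_zero A)
  | Symbol.terminal t :: s, h => by
    rw [ntM_cons] at h
    have h0 : ntM ([Symbol.terminal t] : List (Symbol ℕ N)) = 0 := rfl
    rw [h0, zero_add] at h
    obtain ⟨p, q, hpq⟩ := exists_of_mem A s h
    refine ⟨Symbol.terminal t :: p, q, ?_⟩
    rw [hpq]
    simp
  | Symbol.nonterminal B :: s, h => by
    rw [ntM_cons, ntM_nt] at h
    rcases Multiset.mem_add.1 h with h | h
    · rw [Multiset.mem_singleton] at h
      subst h
      exact ⟨[], s, by simp⟩
    · obtain ⟨p, q, hpq⟩ := exists_of_mem A s h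
      refine ⟨Symbol.nonterminal B :: p, q, ?_⟩
      rw [hpq]
      simp

theorem main (g : ContextFreeGrammar ℕ) (M : Multiset g.NT)
    (x : Multiset (ContextFreeRule ℕ g.NT))
    (h : Run ContextFreeRule.input (fun r => ntM r.output) M x) :
    (∀ r ∈ x, r ∈ g.rules) → ∀ s : List (Symbol ℕ g.NT), ntM s = M →
    ∃ w : List ℕ, g.Derives s (w.map Symbol.terminal) ∧
      ∀ a, w.count a = (tms s).count a + (x.map fun r => (tms r.output).count a).sum := by
  induction h with
  | nil =>
    intro _ s hs
    refine ⟨tms s, ?_, fun a => by simp⟩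
    rw [← eq_of_ntM_zero s hs]
  | cons r M x h ih =>
    intro hx s hs
    have hmem : r.input ∈ ntM s := by
      rw [hs]
      exact Multiset.mem_add.2 (Or.inr (Multiset.mem_singleton_self _))
    obtain ⟨p, q, hpq⟩ := exists_of_mem r.input s hmem
    have hM : ntM p + ntM q = M := by
      have : ntM p + {r.input} + ntM q = M + {r.input} := by
        rw [← hs, hpq, ntM_append, ntM_append, ntM_nt]
      have h2 : (ntM p + ntM q) + {r.input} = M + {r.input} := by
        rw [← this]
        abel
      exact add_right_cancel h2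
    have hnew : ntM (p ++ r.output ++ q) = M + ntM r.output := by
      rw [ntM_append, ntM_append, ← hM]
      abel
    obtain ⟨w, hw, hc⟩ := ih (fun r' hr' => hx r' (Multiset.mem_cons_of_mem hr')) _ hnew
    refine ⟨w, ?_, fun a => ?_⟩
    · refine ContextFreeGrammar.Produces.trans_derives ?_ hw
      refine ⟨r, hx r (Multiset.mem_cons_self r x), ?_⟩
      rw [hpq]
      exact ContextFreeRule.rewrites_of_exists_parts r p q
    · rw [hc a, hpq]
      simp only [tms_append, tms_nt, List.count_append, Multiset.map_cons, Multiset.sum_cons,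
        List.count_nil]
      omega

end ParSAux

theorem par_suf (g : ContextFreeGrammar ℕ) (x : Multiset (ContextFreeRule ℕ g.NT))
    (hx : ∀ r ∈ x, r ∈ g.rules)
    (h : Run ContextFreeRule.input (fun r => ntM r.output) {g.initial} x) :
    ∃ w ∈ g.language, ∀ a, w.count a = (x.map fun r => (tms r.output).count a).sum := by
  obtain ⟨w, hw, hc⟩ := ParSAux.main g _ x h hx [Symbol.nonterminal g.initial]
    (ParSAux.ntM_nt g.initial)
  refine ⟨w, ?_, fun a => ?_⟩
  · rw [ContextFreeGrammar.mem_language_iff]
    exact hw
  · rw [hc a, ParSAux.tms_nt]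
    simp

end Pool.Agent.Lib.BCC
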