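import Pool.Agent.Lib.BCC.PDefs

/-!
# Module BCC.ParX: the set of the rule multisets is semilinear (MP_f1c4ef_lc)

PROOF. For a finite set `Q` of rules the multisets `x` whose set of elements is `Q` are the `Q.val + X y`, `y : {r // r ∈ Q} → ℕ`, `X y = ∑ r, y r • {r.1}`. `Rch` depends only on the set
of the elements of `x`. The flow equation for `Q.val + X y` is of the form `a + F y = b + G y`: `isSemilinearSet_setOfPred_eq`. Take the image under an additive map, add a vector, and take the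
union over the subsets `Q` of `s` for which `Rch` holds.
-/

set_option autoImplicit false

namespace Pool.Agent.Lib.BCC

open scoped Pointwise

namespace ParXAux

/-- the multiset with given multiplicities -/
def mulX {R : Type} (Q : Finset R) : ({r // r ∈ Q} → ℕ) →+ Multiset R where
  toFun y := ∑ r : {r // r ∈ Q}, y r • ({r.1} : Multiset R)
  map_zero' := by simp
  map_add' y z := by simp [add_smul, Finset.sum_add_distrib]

theorem mulX_apply {R : Type} (Q : Finset R) (y : {r // r ∈ Q} → ℕ) :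
    mulX Q y = ∑ r : {r // r ∈ Q}, y r • ({r.1} : Multiset R) := rfl

theorem mem_of_mem_mulX {R : Type} (Q : Finset R) (y : {r // r ∈ Q} → ℕ) {a : R}
    (h : a ∈ mulX Q y) : a ∈ Q := by
  rw [mulX_apply, Multiset.mem_sum] at h
  obtain ⟨r, -, hr⟩ := h
  have h1 := Multiset.mem_of_mem_nsmul hr
  rw [Multiset.mem_singleton] at h1
  rw [h1]
  exact r.2

theorem mulX_single {R : Type} (Q : Finset R) [DecidableEq {r // r ∈ Q}] (r : {r // r ∈ Q}) :
    mulX Q (Pi.single r 1) = {r.1} := by
  rw [mulX_apply, Finset.sum_eq_single r]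
  · rw [Pi.single_eq_same, one_smul]
  · intro b _ hb
    rw [Pi.single_eq_of_ne hb, zero_smul]
  · intro h
    exact absurd (Finset.mem_univ r) h

theorem exists_mulX {R : Type} (Q : Finset R) (x : Multiset R) (hx : ∀ r ∈ x, r ∈ Q) :
    ∃ y, mulX Q y = x := by
  classical
  induction x using Multiset.induction_on with
  | empty => exact ⟨0, map_zero _⟩
  | cons a x ih =>
    obtain ⟨y, hy⟩ := ih fun r hr => hx r (Multiset.mem_cons_of_mem hr)
    refine ⟨Pi.single ⟨a, hx a (Multiset.mem_cons_self a x)⟩ 1 + y, ?_⟩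
    rw [map_add, mulX_single, hy, Multiset.singleton_add]

/-- the multisets whose set of elements is `Q` -/
theorem mem_iff {R : Type} (Q : Finset R) (x : Multiset R) :
    (∀ r, r ∈ x ↔ r ∈ Q) ↔ ∃ y, x = Q.val + mulX Q y := by
  constructor
  · intro h
    have h1 : Q.val ≤ x := (Multiset.le_iff_subset Q.nodup).2 fun r hr => (h r).2 hr
    obtain ⟨x', rfl⟩ := Multiset.le_iff_exists_add.1 h1
    obtain ⟨y, rfl⟩ := exists_mulX Q x' fun r hr => (h r).1 (Multiset.mem_add.2 (Or.inr hr))
    exact ⟨y, rfl⟩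
  · rintro ⟨y, rfl⟩ r
    rw [Multiset.mem_add]
    constructor
    · rintro (h | h)
      · exact h
      · exact mem_of_mem_mulX Q y h
    · intro h
      exact Or.inl h

theorem rch_congr {R N : Type} (lhs : R → N) (rhs : R → Multiset N) (M : Multiset N)
    {x x' : Multiset R} (h : ∀ r, r ∈ x ↔ r ∈ x') (hx : Rch lhs rhs M x) : Rch lhs rhs M x' := by
  intro r hr
  obtain ⟨B, hB, h1⟩ := hx r ((h r).2 hr)
  have h0 : ∀ a b, Stp lhs rhs x a b → Stp lhs rhs x' a b := by
    rintro a b ⟨r', hr', h2, h3⟩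
    exact ⟨r', (h r').1 hr', h2, h3⟩
  exact ⟨B, hB, Relation.ReflTransGen.mono h0 _ _ h1⟩

/-- the sum over the elements -/
def sumH {R M : Type} [AddCommMonoid M] (f : R → M) : Multiset R →+ M :=
  Multiset.sumAddMonoidHom.comp (Multiset.mapAddMonoidHom f)

theorem sumH_apply {R M : Type} [AddCommMonoid M] (f : R → M) (x : Multiset R) :
    sumH f x = (x.map f).sum := rfl

/-- the vector of a multiset -/
def vecH {R : Type} {k : ℕ} (t : R → Fin k → ℕ) : Multiset R →+ (Fin k → ℕ) :=
  AddMonoidHom.pi fun i => sumH fun r => t r i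

theorem vecH_apply {R : Type} {k : ℕ} (t : R → Fin k → ℕ) (x : Multiset R) (i : Fin k) :
    vecH t x i = (x.map fun r => t r i).sum := rfl

theorem part_semi {R N : Type} (Q : Finset R) (lhs : R → N) (rhs : R → Multiset N) (A : N) {k : ℕ}
    (t : R → Fin k → ℕ) :
    IsSemilinearSet ({n | ∃ x : Multiset R, (∀ r, r ∈ x ↔ r ∈ Q) ∧
      ({A} : Multiset N) + (x.map rhs).sum = x.map lhs ∧ Rch lhs rhs {A} x ∧
      ∀ i, n i = (x.map fun r => t r i).sum} : Set (Fin k → ℕ)) := by
  by_cases hR : Rch lhs rhs {A} Q.val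
  · have h1 : IsSemilinearSet {y : {r // r ∈ Q} → ℕ |
        ({A} + sumH rhs Q.val) + ((sumH rhs).comp (mulX Q)) y =
          Multiset.mapAddMonoidHom lhs Q.val +
            ((Multiset.mapAddMonoidHom lhs).comp (mulX Q)) y} :=
      isSemilinearSet_setOfPred_eq _ _ ((sumH rhs).comp (mulX Q))
        ((Multiset.mapAddMonoidHom lhs).comp (mulX Q))
    have h2 := (h1.image ((vecH t).comp (mulX Q))).vadd (vecH t Q.val)
    convert h2 using 1
    ext n
    rw [Set.mem_vadd_set]
    constructor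
    · rintro ⟨x, hx, hflow, -, hn⟩
      obtain ⟨y, rfl⟩ := (mem_iff Q x).1 hx
      refine ⟨vecH t (mulX Q y), ⟨y, ?_, rfl⟩, ?_⟩
      · show ({A} + sumH rhs Q.val) + sumH rhs (mulX Q y) =
          Multiset.mapAddMonoidHom lhs Q.val + Multiset.mapAddMonoidHom lhs (mulX Q y)
        rw [add_assoc, ← map_add, ← map_add]
        exact hflow
      · rw [vadd_eq_add, ← map_add]
        funext i
        rw [vecH_apply, hn i]
    · rintro ⟨w, ⟨y, hy, rfl⟩, rfl⟩
      refine ⟨Q.val + mulX Q y, (mem_iff Q _).2 ⟨y, rfl⟩, ?_, ?_, ?_⟩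
      · have h3 : ({A} + sumH rhs Q.val) + sumH rhs (mulX Q y) =
          Multiset.mapAddMonoidHom lhs Q.val + Multiset.mapAddMonoidHom lhs (mulX Q y) := hy
        rw [add_assoc, ← map_add, ← map_add] at h3
        exact h3
      · exact rch_congr lhs rhs {A} (fun r => ((mem_iff Q _).2 ⟨y, rfl⟩ r).symm) hR
      · intro i
        rw [← vecH_apply, map_add]
        rfl
  · convert IsSemilinearSet.empty using 1
    ext n
    simp only [Set.mem_ofPred_eq, Set.mem_empty_iff_false, iff_false]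
    rintro ⟨x, hx, -, hr, -⟩
    exact hR (rch_congr lhs rhs {A} hx hr)

end ParXAux

open ParXAux

theorem par_semi {R N : Type} (s : Finset R) (lhs : R → N) (rhs : R → Multiset N) (A : N) {k : ℕ}
    (t : R → Fin k → ℕ) :
    IsSemilinearSet ({n | ∃ x : Multiset R, (∀ r ∈ x, r ∈ s) ∧
      ({A} : Multiset N) + (x.map rhs).sum = x.map lhs ∧ Rch lhs rhs {A} x ∧
      ∀ i, n i = (x.map fun r => t r i).sum} : Set (Fin k → ℕ)) := by
  classical
  have h1 : IsSemilinearSet (⋃ Q ∈ s.powerset, ({n | ∃ x : Multiset R, (∀ r, r ∈ x ↔ r ∈ Q) ∧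
      ({A} : Multiset N) + (x.map rhs).sum = x.map lhs ∧ Rch lhs rhs {A} x ∧
      ∀ i, n i = (x.map fun r => t r i).sum} : Set (Fin k → ℕ))) :=
    IsSemilinearSet.biUnion_finset fun Q _ => part_semi Q lhs rhs A t
  convert h1 using 1
  ext n
  simp only [Set.mem_iUnion, Finset.mem_powerset, exists_prop, Set.mem_ofPred_eq]
  constructor
  · rintro ⟨x, hx, h⟩
    exact ⟨x.toFinset, fun r hr => hx r (Multiset.mem_toFinset.1 hr), x,
      fun r => Multiset.mem_toFinset.symm, h⟩
  · rintro ⟨Q, hQ, x, hx, h⟩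
    exact ⟨x, fun r hr => hQ ((hx r).1 hr), h⟩

end Pool.Agent.Lib.BCC
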