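import Pool.Agent.Lib.BCC.Code
import Pool.Agent.Lib.BCC.Fire
import Pool.Agent.Lib.BCC.ParN
import Pool.Agent.Lib.BCC.ParS
import Pool.Agent.Lib.BCC.ParX

/-!
# Module BCC.Parikh: Parikh's theorem for the languages `LS S` (MP_f1c4ef_lc)

PROOF. Let `g` be a context-free grammar with `g.language = LS S`. `S` is the set of `par_semi` for `s = g.rules`, `lhs = ContextFreeRule.input`, `rhs = fun r => ntM r.output`, `A = g.initial`, `t r i = (tms r.output).count i`. If `n ∈ S`, then `code n ∈ g.language`; `par_nec` gives `x`, and
`(code n).count i = n i` (`count_code`). Conversely let `x` be as in `par_semi` for `n`; `fire` gives a run, `par_suf` a word `w ∈ g.language = LS S` with `w.count i = n i`; `w = code n'` with `n' ∈ S`, and `n' i = w.count i = n i`, so `n ∈ S`.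
-/

set_option autoImplicit false

namespace Pool.Agent.Lib.BCC

theorem parikh {k : ℕ} {S : Set (Fin k → ℕ)} (h : (LS S).IsContextFree) : IsSemilinearSet S := by
  obtain ⟨g, hg⟩ := h
  have hs := par_semi g.rules ContextFreeRule.input (fun r => ntM r.output) g.initial
    (fun (r : ContextFreeRule ℕ g.NT) (i : Fin k) => (tms r.output).count (i : ℕ))
  have he : S = ({n | ∃ x : Multiset (ContextFreeRule ℕ g.NT), (∀ r ∈ x, r ∈ g.rules) ∧
      ({g.initial} : Multiset g.NT) + (x.map fun r => ntM r.output).sum =
        x.map ContextFreeRule.input ∧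
      Rch ContextFreeRule.input (fun r => ntM r.output) {g.initial} x ∧
      ∀ i, n i = (x.map fun r => (tms r.output).count (i : ℕ)).sum} : Set (Fin k → ℕ)) := by
    ext n
    constructor
    · intro hn
      have h1 : code n ∈ g.language := by
        rw [hg]
        exact mem_LS.2 hn
      obtain ⟨x, hx, hflow, hr, hc⟩ := par_nec g (code n) h1
      refine ⟨x, hx, hflow, hr, fun i => ?_⟩
      rw [← hc, count_code]
    · rintro ⟨x, hx, hflow, hr, hc⟩
      obtain ⟨w, hw, hcw⟩ := par_suf g x hx (fire _ _ _ _ hflow hr)
      rw [hg] at hw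
      obtain ⟨n', hn', rfl⟩ := hw
      have h2 : n' = n := by
        funext i
        rw [hc i, ← hcw, count_code]
      rw [← h2]
      exact hn'
  rw [he]
  exact hs

end Pool.Agent.Lib.BCC
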