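import Pool.Agent.Lib.BCC.Defs

/-!
# Module BCC.RecA: recognizable sets, boolean operations (MP_f1c4ef_lc)

PROOF hints: with a threshold `N` and a period `p` also every `N' ≥ N` and every positive multiple `p'` of `p` work (`rec_mono`, by induction on the quotient; `Function.update (Function.update n i a) i b = Function.update n i b`). For two sets take the maximum of the thresholds and the product of the periods. `rec_iUnion`: finite induction
(or common threshold `sup` and product over `Finset.univ`, `Fintype.ofFinite`). `rec_lt`: threshold `T`, period `1`; distinguish `i = j` and `i ≠ j`.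
-/

set_option autoImplicit false

namespace Pool.Agent.Lib.BCC

variable {k : ℕ}

theorem rec_mono {S : Set (Fin k → ℕ)} {N p N' p' : ℕ} (hN : N ≤ N') (hp : p ∣ p')
    (h : ∀ (n : Fin k → ℕ) (i : Fin k), N ≤ n i → (n ∈ S ↔ Function.update n i (n i + p) ∈ S)) :
    ∀ (n : Fin k → ℕ) (i : Fin k), N' ≤ n i → (n ∈ S ↔ Function.update n i (n i + p') ∈ S) := by
  intro n i hn
  obtain ⟨q, rfl⟩ := hp
  induction q with
  | zero =>
    rw [Nat.mul_zero, Nat.add_zero, Function.update_eq_self]
  | succ q ih =>
    rw [ih]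
    have h1 := h (Function.update n i (n i + p * q)) i (by
      rw [Function.update_self]
      omega)
    rw [h1, Function.update_self, Function.update_idem]
    have h2 : n i + p * q + p = n i + p * (q + 1) := by ring
    rw [h2]

theorem rec_univ : Rec (Set.univ : Set (Fin k → ℕ)) :=
  ⟨0, 1, Nat.one_pos, fun _ _ _ => ⟨fun _ => Set.mem_univ _, fun _ => Set.mem_univ _⟩⟩

theorem rec_empty : Rec (∅ : Set (Fin k → ℕ)) :=
  ⟨0, 1, Nat.one_pos, fun _ _ _ =>
    ⟨fun h => absurd h (Set.notMem_empty _), fun h => absurd h (Set.notMem_empty _)⟩⟩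

theorem rec_inter {S T : Set (Fin k → ℕ)} (hS : Rec S) (hT : Rec T) : Rec (S ∩ T) := by
  obtain ⟨N, p, hp, h⟩ := hS
  obtain ⟨M, q, hq, h'⟩ := hT
  refine ⟨max N M, p * q, Nat.mul_pos hp hq, fun n i hn => ?_⟩
  have h1 := rec_mono (le_max_left N M) (Dvd.intro q rfl) h n i hn
  have h2 := rec_mono (le_max_right N M) (Dvd.intro_left p rfl) h' n i hn
  exact and_congr h1 h2

theorem rec_compl {S : Set (Fin k → ℕ)} (hS : Rec S) : Rec Sᶜ := by
  obtain ⟨N, p, hp, h⟩ := hS
  exact ⟨N, p, hp, fun n i hn => not_congr (h n i hn)⟩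

theorem rec_union {S T : Set (Fin k → ℕ)} (hS : Rec S) (hT : Rec T) : Rec (S ∪ T) := by
  obtain ⟨N, p, hp, h⟩ := hS
  obtain ⟨M, q, hq, h'⟩ := hT
  refine ⟨max N M, p * q, Nat.mul_pos hp hq, fun n i hn => ?_⟩
  have h1 := rec_mono (le_max_left N M) (Dvd.intro q rfl) h n i hn
  have h2 := rec_mono (le_max_right N M) (Dvd.intro_left p rfl) h' n i hn
  exact or_congr h1 h2

theorem rec_iUnion {ι : Type} [Finite ι] {S : ι → Set (Fin k → ℕ)} (h : ∀ a, Rec (S a)) :
    Rec (⋃ a, S a) := by
  classical
  have : Fintype ι := Fintype.ofFinite ι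
  have h1 : ∀ s : Finset ι, Rec (⋃ a ∈ s, S a) := by
    intro s
    induction s using Finset.induction_on with
    | empty =>
      simp only [Finset.notMem_empty, Set.iUnion_of_empty, Set.iUnion_empty]
      exact rec_empty
    | insert a s _ ih =>
      rw [Finset.set_biUnion_insert]
      exact rec_union (h a) ih
  have h2 := h1 Finset.univ
  have h3 : (⋃ a ∈ (Finset.univ : Finset ι), S a) = ⋃ a, S a := by
    simp
  rwa [h3] at h2

theorem rec_lt (i : Fin k) (T : ℕ) : Rec {n : Fin k → ℕ | n i < T} := by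
  refine ⟨T, 1, Nat.one_pos, fun n j hn => ?_⟩
  show n i < T ↔ Function.update n j (n j + 1) i < T
  by_cases hij : i = j
  · subst hij
    rw [Function.update_self]
    omega
  · rw [Function.update_of_ne hij]

end Pool.Agent.Lib.BCC
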