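import Pool.Agent.Lib.BCC.RecA

/-!
# Module BCC.RecB: recognizable sets, sections (MP_f1c4ef_lc)

PROOF hints: `rec_cyl`: same `N`, `p` for coordinates `≠ i`; at `i` membership does not depend on `n i`. `rec_sec`: intersection with `{n | n i = 0}` = `rec_lt i 1`. `rec_below`: `S ∩ {n | n i < T}` is the finite union over `j < T` of `{n | n i = j} ∩ {n | Function.update n i j ∈ S}`; take a common threshold
`≥ T` and a common period for the `T` sections (`rec_mono`, e.g. through `rec_iUnion` over `Fin T`; `{n | Function.update n i j ∈ S} = {n | Function.update n i 0 ∈ section_j}`, `rec_cyl`). `rec_above`: threshold `N + T`, same period (`n i = n' + T`).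
-/

set_option autoImplicit false

namespace Pool.Agent.Lib.BCC

variable {k : ℕ}

theorem rec_cyl {S : Set (Fin k → ℕ)} (hS : Rec S) (i : Fin k) (a : ℕ) :
    Rec {n | Function.update n i a ∈ S} := by
  obtain ⟨N, p, hp, h⟩ := hS
  refine ⟨N, p, hp, fun n l hl => ?_⟩
  simp only [Set.mem_setOf_eq]
  by_cases hli : l = i
  · subst hli
    rw [Function.update_idem]
  · have h1 := h (Function.update n i a) l (by rwa [Function.update_of_ne hli])
    rw [h1, Function.update_of_ne hli, Function.update_comm (Ne.symm hli)]

theorem rec_sec {S : Set (Fin k → ℕ)} (hS : Rec S) (i : Fin k) (a : ℕ) :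
    Rec {n | n i = 0 ∧ Function.update n i a ∈ S} := by
  have h := rec_inter (rec_lt i 1) (rec_cyl hS i a)
  have e : {n : Fin k → ℕ | n i = 0 ∧ Function.update n i a ∈ S} =
      {n : Fin k → ℕ | n i < 1} ∩ {n | Function.update n i a ∈ S} := by
    ext n
    simp only [Set.mem_setOf_eq, Set.mem_inter_iff, Nat.lt_one_iff]
  rw [e]
  exact h

theorem rec_below {S : Set (Fin k → ℕ)} (i : Fin k) (T : ℕ)
    (h : ∀ j < T, Rec {n | n i = 0 ∧ Function.update n i j ∈ S}) : Rec (S ∩ {n | n i < T}) := by
  have h1 : ∀ j : Fin T, Rec (({n : Fin k → ℕ | n i < (j : ℕ) + 1} ∩ {n | n i < (j : ℕ)}ᶜ) ∩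
      {n | Function.update n i 0 ∈ {n | n i = 0 ∧ Function.update n i (j : ℕ) ∈ S}}) := fun j =>
    rec_inter (rec_inter (rec_lt i _) (rec_compl (rec_lt i _))) (rec_cyl (h j j.2) i 0)
  have h2 := rec_iUnion h1
  have e : (S ∩ {n | n i < T}) = ⋃ j : Fin T,
      (({n : Fin k → ℕ | n i < (j : ℕ) + 1} ∩ {n | n i < (j : ℕ)}ᶜ) ∩
      {n | Function.update n i 0 ∈ {n | n i = 0 ∧ Function.update n i (j : ℕ) ∈ S}}) := by
    ext n
    simp only [Set.mem_inter_iff, Set.mem_setOf_eq, Set.mem_iUnion, Set.mem_compl_iff,
      Function.update_self, Function.update_idem, true_and]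
    constructor
    · rintro ⟨hn, hT⟩
      refine ⟨⟨n i, hT⟩, ⟨by simp, by simp⟩, ?_⟩
      simpa using hn
    · rintro ⟨j, ⟨h3, h4⟩, h5⟩
      have h6 : n i = (j : ℕ) := by omega
      rw [← h6, Function.update_eq_self] at h5
      exact ⟨h5, by rw [h6]; exact j.2⟩
  rw [e]
  exact h2

theorem rec_above {S : Set (Fin k → ℕ)} (i : Fin k) (T : ℕ)
    (h : Rec {n | Function.update n i (n i + T) ∈ S}) : Rec (S ∩ {n | T ≤ n i}) := by
  obtain ⟨N, p, hp, h⟩ := h
  refine ⟨N + T, p, hp, fun n l hl => ?_⟩
  simp only [Set.mem_inter_iff, Set.mem_setOf_eq] at h ⊢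
  by_cases hli : l = i
  · subst hli
    have hT : T ≤ n l := by omega
    have h1 := h (Function.update n l (n l - T)) l (by rw [Function.update_self]; omega)
    rw [Function.update_self, Function.update_idem, Function.update_idem, Function.update_self,
      Function.update_idem, Nat.sub_add_cancel hT, Function.update_eq_self] at h1
    have e : n l - T + p + T = n l + p := by omega
    rw [e] at h1
    rw [Function.update_self]
    constructor
    · rintro ⟨h2, _⟩
      exact ⟨h1.1 h2, by omega⟩
    · rintro ⟨h2, _⟩
      exact ⟨h1.2 h2, hT⟩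
  · have hil : i ≠ l := Ne.symm hli
    rw [Function.update_of_ne hil]
    constructor
    · rintro ⟨h2, hT⟩
      refine ⟨?_, hT⟩
      have h1 := h (Function.update n i (n i - T)) l
        (by rw [Function.update_of_ne hli]; omega)
      rw [Function.update_self, Function.update_idem, Nat.sub_add_cancel hT,
        Function.update_eq_self, Function.update_of_ne hil, Function.update_self,
        Function.update_of_ne hli, Nat.sub_add_cancel hT, Function.update_comm hil,
        Function.update_idem] at h1
      have h3 := h1.1 h2
      have e : Function.update (Function.update n l (n l + p)) i (n i) =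
          Function.update n l (n l + p) := by
        have : n i = Function.update n l (n l + p) i := by rw [Function.update_of_ne hil]
        rw [this, Function.update_eq_self]
      rwa [e] at h3
    · rintro ⟨h2, hT⟩
      refine ⟨?_, hT⟩
      have h1 := h (Function.update n i (n i - T)) l
        (by rw [Function.update_of_ne hli]; omega)
      rw [Function.update_self, Function.update_idem, Nat.sub_add_cancel hT,
        Function.update_eq_self, Function.update_of_ne hil, Function.update_self,
        Function.update_of_ne hli, Nat.sub_add_cancel hT, Function.update_comm hil,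
        Function.update_idem] at h1
      apply h1.2
      have e : Function.update (Function.update n l (n l + p)) i (n i) =
          Function.update n l (n l + p) := by
        have : n i = Function.update n l (n l + p) i := by rw [Function.update_of_ne hil]
        rw [this, Function.update_eq_self]
      rwa [e]

end Pool.Agent.Lib.BCC
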