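import Pool.Agent.Lib.BCC.RecB

/-!
# Module BCC.RecC: recognizable sets, residues and sums (MP_f1c4ef_lc)

PROOF hints: `rec_res`: take a common threshold `N` and a common period `q` for the sets of the residues `r < p` (`rec_mono`; product and maximum over `Finset.range p`). Then `S` has the threshold `p * (N + 1)` and the period `p * q`: at the coordinate `i` write `n i = r + p * m`, `m ≥ N`, and apply the hypothesis to `Function.update n i m`;
at a coordinate `l ≠ i` write `n i = r + p * m` as well and apply the hypothesis for `r` to `Function.update n i m` (`n l ≥ N`, `p * q` is a multiple of `q`). `rec_add`: `n = u + v` with `u ∈ U` low and `v ∈ V` high iff `n i = 0` and the two parts of `n` (`fun l => if l < i then n l else 0`, `fun l => if i < l then n l else 0`) are in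
`U`, `V`; the preimages of `U`, `V` under these projections are recognizable with the same constants. `rec_rect`: cylinder (`rec_cyl` with `a = 0`) over `rec_add`.
-/

set_option autoImplicit false

namespace Pool.Agent.Lib.BCC

variable {k : ℕ}

namespace RecCAux

open Classical in
/-- the part of `n` on the coordinates with `P` -/
noncomputable def pr (P : Fin k → Prop) (n : Fin k → ℕ) : Fin k → ℕ :=
  fun l => if P l then n l else 0

theorem rec_proj {U : Set (Fin k → ℕ)} (P : Fin k → Prop) (hU : Rec U) : Rec {n | pr P n ∈ U} := by
  obtain ⟨N, p, hp, h⟩ := hU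
  refine ⟨N, p, hp, fun n l hl => ?_⟩
  simp only [Set.mem_setOf_eq]
  by_cases hP : P l
  · have e1 : pr P n l = n l := by
      unfold pr
      rw [if_pos hP]
    have e2 : pr P (Function.update n l (n l + p)) = Function.update (pr P n) l (pr P n l + p) := by
      funext j
      by_cases hj : j = l
      · subst hj
        rw [Function.update_self, e1]
        unfold pr
        rw [if_pos hP, Function.update_self]
      · rw [Function.update_of_ne hj]
        unfold pr
        rw [Function.update_of_ne hj]
    rw [e2]
    exact h (pr P n) l (by rw [e1]; exact hl)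
  · have e2 : pr P (Function.update n l (n l + p)) = pr P n := by
      funext j
      by_cases hj : j = l
      · subst hj
        unfold pr
        rw [if_neg hP, if_neg hP]
      · unfold pr
        rw [Function.update_of_ne hj]
    rw [e2]

end RecCAux

theorem rec_res {S : Set (Fin k → ℕ)} (i : Fin k) (p : ℕ) (hp : 0 < p)
    (h : ∀ r < p, Rec {n | Function.update n i (r + p * n i) ∈ S}) : Rec S := by
  choose N q hq hc using fun r : Fin p => h r r.2
  obtain ⟨M, hM⟩ : ∃ M, M = ∑ r, N r := ⟨_, rfl⟩
  obtain ⟨Q, hQ⟩ : ∃ Q, Q = ∏ r, q r := ⟨_, rfl⟩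
  have hQ0 : 0 < Q := by
    rw [hQ]
    exact Finset.prod_pos fun r _ => hq r
  have h1 : ∀ (r : Fin p) (N' p' : ℕ), M ≤ N' → Q ∣ p' → ∀ (n : Fin k → ℕ) (l : Fin k), N' ≤ n l →
      (n ∈ {n | Function.update n i ((r : ℕ) + p * n i) ∈ S} ↔
        Function.update n l (n l + p') ∈ {n | Function.update n i ((r : ℕ) + p * n i) ∈ S}) := by
    intro r N' p' hN' hp'
    refine rec_mono ?_ ?_ (hc r)
    · refine le_trans ?_ hN'
      rw [hM]
      exact Finset.single_le_sum (f := N) (fun _ _ => Nat.zero_le _) (Finset.mem_univ r)
    · refine dvd_trans ?_ hp'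
      rw [hQ]
      exact Finset.dvd_prod_of_mem q (Finset.mem_univ r)
  have hpM : M ≤ p * (M + 1) := by nlinarith
  refine ⟨p * (M + 1), p * Q, Nat.mul_pos hp hQ0, fun n l hl => ?_⟩
  have hr : n i % p < p := Nat.mod_lt _ hp
  have hdm : n i % p + p * (n i / p) = n i := Nat.mod_add_div (n i) p
  by_cases hli : l = i
  · subst hli
    have hm : M ≤ n l / p := by
      have : M + 1 ≤ n l / p := (Nat.le_div_iff_mul_le hp).2 (by rw [mul_comm]; exact hl)
      omega
    have h2 := h1 ⟨n l % p, hr⟩ M Q le_rfl (dvd_refl Q) (Function.update n l (n l / p)) l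
      (by rw [Function.update_self]; exact hm)
    simp only [Set.mem_setOf_eq, Function.update_self, Function.update_idem] at h2
    rw [hdm, Function.update_eq_self] at h2
    rw [h2]
    have e : n l % p + p * (n l / p + Q) = n l + p * Q := by
      rw [mul_add, ← add_assoc, hdm]
    rw [e]
  · have hil : i ≠ l := Ne.symm hli
    have h2 := h1 ⟨n i % p, hr⟩ (p * (M + 1)) (p * Q) hpM (Dvd.intro_left p rfl)
      (Function.update n i (n i / p)) l (by rw [Function.update_of_ne hli]; exact hl)
    simp only [Set.mem_setOf_eq, Function.update_self, Function.update_idem,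
      Function.update_of_ne hil, Function.update_of_ne hli] at h2
    rw [Function.update_comm hil, Function.update_idem, hdm, Function.update_eq_self] at h2
    rw [h2]
    have e : Function.update (Function.update n l (n l + p * Q)) i (n i) =
        Function.update n l (n l + p * Q) := by
      have : n i = Function.update n l (n l + p * Q) i := by rw [Function.update_of_ne hil]
      rw [this, Function.update_eq_self]
    rw [e]

theorem rec_add {U V : Set (Fin k → ℕ)} (i : Fin k) (hU : Rec U) (hV : Rec V) (hl : Low i U)
    (hh : High i V) : Rec {n : Fin k → ℕ | ∃ u ∈ U, ∃ v ∈ V, n = u + v} := by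
  have h1 := rec_inter (rec_lt i 1) (rec_inter (RecCAux.rec_proj (fun l => l < i) hU)
    (RecCAux.rec_proj (fun l => i < l) hV))
  have e : {n : Fin k → ℕ | ∃ u ∈ U, ∃ v ∈ V, n = u + v} = {n : Fin k → ℕ | n i < 1} ∩
      ({n | RecCAux.pr (fun l => l < i) n ∈ U} ∩ {n | RecCAux.pr (fun l => i < l) n ∈ V}) := by
    ext n
    simp only [Set.mem_setOf_eq, Set.mem_inter_iff]
    constructor
    · rintro ⟨u, hu, v, hv, rfl⟩
      refine ⟨?_, ?_, ?_⟩
      · rw [Pi.add_apply, hl u hu i le_rfl, hh v hv i le_rfl]
        omega
      · have e1 : RecCAux.pr (fun l => l < i) (u + v) = u := by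
          funext l
          unfold RecCAux.pr
          split_ifs with h2
          · rw [Pi.add_apply, hh v hv l h2.le, add_zero]
          · rw [hl u hu l (not_lt.1 h2)]
        rw [e1]
        exact hu
      · have e1 : RecCAux.pr (fun l => i < l) (u + v) = v := by
          funext l
          unfold RecCAux.pr
          split_ifs with h2
          · rw [Pi.add_apply, hl u hu l h2.le, zero_add]
          · rw [hh v hv l (not_lt.1 h2)]
        rw [e1]
        exact hv
    · rintro ⟨h2, h3, h4⟩
      refine ⟨_, h3, _, h4, ?_⟩
      funext l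
      rw [Pi.add_apply]
      unfold RecCAux.pr
      rcases lt_trichotomy l i with h5 | h5 | h5
      · rw [if_pos h5, if_neg (not_lt.2 h5.le), add_zero]
      · subst h5
        rw [if_neg (lt_irrefl _)]
        omega
      · rw [if_neg (not_lt.2 h5.le), if_pos h5, zero_add]
  rw [e]
  exact h1

theorem rec_rect {U V : Set (Fin k → ℕ)} (i : Fin k) (hU : Rec U) (hV : Rec V) (hl : Low i U)
    (hh : High i V) : Rec {n : Fin k → ℕ | ∃ u ∈ U, ∃ v ∈ V, Function.update n i 0 = u + v} := by
  exact rec_cyl (rec_add i hU hV hl hh) i 0

end Pool.Agent.Lib.BCC
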