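import Pool.Agent.Lib.BCC.Defs

/-!
# Module BCC.RecSemi: recognizable sets are semilinear (MP_f1c4ef_lc)

PROOF. Let `N`, `p` be as in `Rec S`. For `c : Fin k → ℕ` with all `c i < N + p` let `B c` be the set of all `n` with `n i = c i` if `c i < N` and `n i ∈ c i + p ℕ` if `c i ≥ N`; it is `c +ᵥ closure {p e_i | c i ≥ N}`, a linear set. Every `n` lies in exactly one `B c`, and `n ∈ S ↔ c ∈ S`. So `S` is the finite union of the
`B c`, `c ∈ S`.
-/

set_option autoImplicit false

open scoped Pointwise

namespace Pool.Agent.Lib.BCC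

namespace RecSemiAux

/-- The generators of the box of `c`. -/
def gen {k : ℕ} (N p : ℕ) (c : Fin k → ℕ) : Set (Fin k → ℕ) :=
  {x | ∃ i, N ≤ c i ∧ x = Pi.single i p}

theorem gen_finite {k : ℕ} (N p : ℕ) (c : Fin k → ℕ) : (gen N p c).Finite := by
  refine (Set.finite_range (fun i : Fin k => (Pi.single i p : Fin k → ℕ))).subset ?_
  rintro x ⟨i, -, rfl⟩
  exact ⟨i, rfl⟩

theorem box_iff {k : ℕ} {S : Set (Fin k → ℕ)} {N p : ℕ}
    (h : ∀ (n : Fin k → ℕ) (i : Fin k), N ≤ n i → (n ∈ S ↔ Function.update n i (n i + p) ∈ S))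
    (c : Fin k → ℕ) {x : Fin k → ℕ} (hx : x ∈ AddSubmonoid.closure (gen N p c)) :
    ∀ m : Fin k → ℕ, (∀ i, N ≤ c i → N ≤ m i) → (m + x ∈ S ↔ m ∈ S) := by
  induction hx using AddSubmonoid.closure_induction with
  | mem x hx =>
    obtain ⟨i, hi, rfl⟩ := hx
    intro m hm
    have e : m + Pi.single i p = Function.update m i (m i + p) := by
      funext j
      by_cases hj : j = i
      · subst hj; simp
      · simp [hj]
    rw [e]
    exact (h m i (hm i hi)).symm
  | zero => intro m _; rw [add_zero]
  | add x y _ _ ihx ihy =>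
    intro m hm
    rw [← add_assoc, ihy (m + x) (fun i hi => le_trans (hm i hi) (by simp [Pi.add_apply])),
      ihx m hm]

/-- The corner of the box of `n`. -/
def corner {k : ℕ} (N p : ℕ) (n : Fin k → ℕ) : Fin k → ℕ :=
  fun i => if n i < N then n i else N + (n i - N) % p

theorem corner_lt {k : ℕ} {N p : ℕ} (hp : 0 < p) (n : Fin k → ℕ) (i : Fin k) :
    corner N p n i < N + p := by
  unfold corner
  split_ifs with h
  · omega
  · have := Nat.mod_lt (n i - N) hp
    omega

theorem mem_box {k : ℕ} {N p : ℕ} (n : Fin k → ℕ) :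
    ∃ x ∈ AddSubmonoid.closure (gen N p (corner N p n)), corner N p n + x = n := by
  classical
  refine ⟨∑ i, (if n i < N then 0 else (n i - N) / p) • (Pi.single i p : Fin k → ℕ), ?_, ?_⟩
  · refine AddSubmonoid.sum_mem _ (fun i _ => ?_)
    by_cases hi : n i < N
    · simp only [hi, if_true, zero_smul]
      exact AddSubmonoid.zero_mem _
    · have hg : (Pi.single i p : Fin k → ℕ) ∈ gen N p (corner N p n) := by
        refine ⟨i, ?_, rfl⟩
        unfold corner
        rw [if_neg hi]
        omega
      exact AddSubmonoid.nsmul_mem _ (AddSubmonoid.subset_closure hg) _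
  · funext j
    rw [Pi.add_apply, Finset.sum_apply, Finset.sum_eq_single j]
    · unfold corner
      by_cases hj : n j < N
      · simp [hj]
      · simp only [hj, if_false, Pi.smul_apply, Pi.single_eq_same, smul_eq_mul]
        have h1 := Nat.mod_add_div (n j - N) p
        have h2 : p * ((n j - N) / p) = (n j - N) / p * p := Nat.mul_comm _ _
        omega
    · intro i _ hij
      simp [Pi.smul_apply, Pi.single_eq_of_ne (Ne.symm hij)]
    · intro hj
      exact absurd (Finset.mem_univ j) hj

end RecSemiAux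

open RecSemiAux

theorem rec_semi {k : ℕ} {S : Set (Fin k → ℕ)} (h : Rec S) : IsSemilinearSet S := by
  obtain ⟨N, p, hp, h⟩ := h
  have e : S = ⋃ c ∈ {c : Fin k → Fin (N + p) | (fun i => (c i : ℕ)) ∈ S},
      ((fun i => (c i : ℕ)) +ᵥ
        (AddSubmonoid.closure (gen N p (fun i => (c i : ℕ))) : Set (Fin k → ℕ)) :
          Set (Fin k → ℕ)) := by
    ext n
    simp only [Set.mem_ofPred_eq, Set.mem_iUnion, exists_prop]
    constructor
    · intro hn
      obtain ⟨x, hx, e⟩ := mem_box (N := N) (p := p) n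
      have hc : corner N p n ∈ S := by
        have := (box_iff h (corner N p n) hx (corner N p n) (fun i hi => hi))
        rw [e] at this
        exact this.1 hn
      refine ⟨fun i => ⟨corner N p n i, corner_lt hp n i⟩, hc, ?_⟩
      exact ⟨x, hx, e⟩
    · rintro ⟨c, hc, hn⟩
      obtain ⟨x, hx, rfl⟩ := hn
      exact (box_iff h (fun i => (c i : ℕ)) hx (fun i => (c i : ℕ)) (fun i hi => hi)).2 hc
  rw [e]
  refine IsSemilinearSet.biUnion (Set.toFinite _) (fun c _ => ?_)
  exact (IsSemilinearSet.closure_of_finite (gen_finite _ _ _)).vadd _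

end Pool.Agent.Lib.BCC
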