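import Pool.Agent.Lib.BCC.Defs
import Pool.Agent.Lib.F1c4.Rep

/-!
# Module BCC.Rep2: words with many copies of a factor that contains `b` (MP_f1c4ef_lc)

PROOF (as F1c4.Rep, `RepAux.split_first`, `RepAux.split_last`): `v` is over `Γ ∪ {b}` if the word `z1 v^k z2` is in `WF2` with `k ≥ 1` (the letter `b` occurs only behind the letter `c`, and `c ∉ v`, so all the copies of
`v` lie in the part `s` of `x c s`: `s = s1 ++ v^k ++ z2`, `z1 = x ++ [c] ++ s1`). Write `v = α b ρ = μ b γ` with `b ∉ α`, `b ∉ γ`. The block `u0 = γ ++ α` between two copies of `v` is over `Γ`.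
`H.fin u0` gives `M` with `u0 ∉ R x j` for all `x ∈ X`, `j ≥ M`. Between the copies number `M` and `M + 1` the block `u0` has at least `M` letters `b` before it (in `s`), so it is a violation. `K0 = M + 3` is enough. If no word
`z1 v^k z2`, `k ≥ 1`, is in `WF2` there is nothing to show.
-/

set_option autoImplicit false

namespace Pool.Agent.Lib.BCC

open Pool.Agent.Lib.F1c4

namespace Rep2Aux

/-- the position of the letter `c` in a word `z1 V z2 = x c s` -/
theorem split {x s z1 z2 V : List ℕ} {b c : ℕ} (hbx : b ∉ x) (hbV : b ∈ V) (hcV : c ∉ V)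
    (h : z1 ++ (V ++ z2) = x ++ c :: s) : ∃ s1, z1 = x ++ c :: s1 ∧ s = s1 ++ (V ++ z2) := by
  rcases List.append_eq_append_iff.1 h with ⟨a, h1, h2⟩ | ⟨a, h1, h2⟩
  · exfalso
    rcases List.append_eq_append_iff.1 h2 with ⟨d, h3, h4⟩ | ⟨d, h3, h4⟩
    · exact hbx (by rw [h1, h3]; simp [hbV])
    · cases d with
      | nil =>
        rw [List.append_nil] at h3
        exact hbx (by rw [h1, ← h3]; simp [hbV])
      | cons e d =>
        rw [List.cons_append] at h4
        injection h4 with h5 h6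
        exact hcV (by rw [h3, ← h5]; simp)
  · cases a with
    | nil =>
      exfalso
      rw [List.nil_append] at h2
      cases V with
      | nil => simp at hbV
      | cons e V =>
        rw [List.cons_append] at h2
        injection h2 with h5 h6
        exact hcV (by rw [← h5]; simp)
    | cons e a =>
      rw [List.cons_append] at h2
      injection h2 with h5 h6
      exact ⟨a, by rw [h1, ← h5], h6⟩

end Rep2Aux

theorem rep_mem2 {Δ Γ : Finset ℕ} {b c : ℕ} {X : Language ℕ} {R : List ℕ → ℕ → Language ℕ}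
    (H : Hyp2 Δ Γ b c X R) (v : List ℕ) (hc : c ∉ v) (hb : b ∈ v) :
    ∃ K0 : ℕ, ∀ k, K0 ≤ k → ∀ z1 z2 : List ℕ,
      z1 ++ (List.replicate k v).flatten ++ z2 ∈ WF2 Γ b c X →
      z1 ++ (List.replicate k v).flatten ++ z2 ∈ BR2 Γ b c X R := by
  have key : ∀ k, 1 ≤ k → ∀ z1 z2 : List ℕ,
      z1 ++ (List.replicate k v).flatten ++ z2 ∈ WF2 Γ b c X →
      ∃ x ∈ X, ∃ s1, Ov (insert b Γ) (s1 ++ ((List.replicate k v).flatten ++ z2)) ∧
        z1 = x ++ c :: s1 := by
    rintro k hk z1 z2 ⟨x, hx, s, hs, hw⟩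
    have hbx : b ∉ x := fun h => H.bD (H.ovX x hx b h)
    have hbV : b ∈ (List.replicate k v).flatten :=
      List.mem_flatten.2 ⟨v, List.mem_replicate.2 ⟨by omega, rfl⟩, hb⟩
    have hcV : c ∉ (List.replicate k v).flatten := by
      intro h
      obtain ⟨l, hl, hal⟩ := List.mem_flatten.1 h
      rw [(List.mem_replicate.1 hl).2] at hal
      exact hc hal
    have hw' : z1 ++ ((List.replicate k v).flatten ++ z2) = x ++ c :: s := by
      rw [← List.append_assoc, hw]
      simp
    obtain ⟨s1, h1, h2⟩ := Rep2Aux.split hbx hbV hcV hw'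
    exact ⟨x, hx, s1, h2 ▸ hs, h1⟩
  by_cases hv : Ov (insert b Γ) v
  · obtain ⟨α, ρ, h1, hα⟩ := RepAux.split_first hv hb
    obtain ⟨μ, γ, h2, hγ⟩ := RepAux.split_last hv hb
    obtain ⟨M, hM⟩ := H.fin (γ ++ α)
    refine ⟨M + 3, fun k hk z1 z2 hw => ?_⟩
    obtain ⟨m, rfl⟩ : ∃ m, k = m + 2 := ⟨k - 2, by omega⟩
    obtain ⟨x, hx, s1, hs, hz1⟩ := key (m + 2) (by omega) z1 z2 hw
    have hμ : Ov (insert b Γ) μ := fun a ha => hv a (by rw [h2]; simp [ha])
    have hρ : Ov (insert b Γ) ρ := fun a ha => hv a (by rw [h1]; simp [ha])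
    have hs1 : Ov (insert b Γ) s1 := fun a ha => hs a (by simp [ha])
    have hz2 : Ov (insert b Γ) z2 := fun a ha => hs a (by simp [ha])
    refine ⟨x, hx, s1 ++ (List.replicate m v).flatten ++ μ ++ [b], γ ++ α, ρ ++ z2,
      Or.inr ⟨_, rfl⟩, ?_, RepAux.ov_append hγ hα, RepAux.ov_append hρ hz2, ?_, ?_⟩
    · exact RepAux.ov_append (RepAux.ov_append (RepAux.ov_append hs1 (RepAux.ov_pow hv m)) hμ)
        (RepAux.ov_singleton Γ b)
    · refine hM x hx _ ?_
      have h5 := RepAux.count_pow hb m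
      rw [List.count_append, List.count_append, List.count_append]
      omega
    · have h3 : (List.replicate (m + 2) v).flatten = (List.replicate m v).flatten ++ (v ++ v) := by
        rw [List.replicate_add, List.flatten_append]
        congr 1
        simp [List.replicate_succ]
      rw [h3, hz1]
      conv_lhs => rw [show v ++ v = (μ ++ [b] ++ γ) ++ (α ++ [b] ++ ρ) from by rw [← h1, ← h2]]
      simp only [List.append_assoc, List.cons_append, List.nil_append]
  · refine ⟨1, fun k hk z1 z2 hw => ?_⟩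
    exfalso
    obtain ⟨x, hx, s1, hs, hz1⟩ := key k hk z1 z2 hw
    refine hv fun a ha => hs a ?_
    have : a ∈ (List.replicate k v).flatten :=
      List.mem_flatten.2 ⟨v, List.mem_replicate.2 ⟨by omega, rfl⟩, ha⟩
    simp [this]

end Pool.Agent.Lib.BCC
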