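import Pool.Agent.Lib.BCC.Defs

/-!
# Module BCC.SecAll: fixing all coordinates above `i` (MP_f1c4ef_lc)

`sec_all` and `down_le`, by induction on a finite set of coordinates.
-/

set_option autoImplicit false

namespace Pool.Agent.Lib.BCC

variable {k : ℕ}

namespace SecAllAux

/-- the vector `v` restricted to `T` -/
def res (T : Finset (Fin k)) (v : Fin k → ℕ) : Fin k → ℕ := fun l => if l ∈ T then v l else 0

theorem sec_fin {G : Set (Set (Fin k → ℕ))} (hG : Fam G) {S : Set (Fin k → ℕ)} (hS : S ∈ G)
    (v : Fin k → ℕ) (T : Finset (Fin k)) :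
    {n : Fin k → ℕ | (∀ l ∈ T, n l = 0) ∧ n + res T v ∈ S} ∈ G := by
  classical
  induction T using Finset.induction_on with
  | empty =>
    have h : {n : Fin k → ℕ | (∀ l ∈ (∅ : Finset (Fin k)), n l = 0) ∧ n + res ∅ v ∈ S} = S := by
      ext n
      have e : n + res ∅ v = n := by
        funext l
        show n l + (if l ∈ (∅ : Finset (Fin k)) then v l else 0) = n l
        rw [if_neg (Finset.notMem_empty l), Nat.add_zero]
      show ((∀ l ∈ (∅ : Finset (Fin k)), n l = 0) ∧ n + res ∅ v ∈ S) ↔ n ∈ S
      rw [e]
      exact ⟨fun h => h.2, fun h => ⟨fun l hl => absurd hl (Finset.notMem_empty l), h⟩⟩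
    rw [h]
    exact hS
  | insert a T ha ih =>
    have h1 := hG.sec _ ih a (v a)
    have h : {n : Fin k → ℕ | (∀ l ∈ insert a T, n l = 0) ∧ n + res (insert a T) v ∈ S} =
        {n | n a = 0 ∧ Function.update n a (v a) ∈
          {n : Fin k → ℕ | (∀ l ∈ T, n l = 0) ∧ n + res T v ∈ S}} := by
      ext n
      show ((∀ l ∈ insert a T, n l = 0) ∧ n + res (insert a T) v ∈ S) ↔
        (n a = 0 ∧ (∀ l ∈ T, Function.update n a (v a) l = 0) ∧
          Function.update n a (v a) + res T v ∈ S)
      have e1 : (∀ l ∈ T, Function.update n a (v a) l = 0) ↔ ∀ l ∈ T, n l = 0 := by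
        refine forall_congr' fun l => forall_congr' fun hl => ?_
        have hla : l ≠ a := fun h => ha (h ▸ hl)
        rw [Function.update_of_ne hla]
      have e2 : n a = 0 → Function.update n a (v a) + res T v = n + res (insert a T) v := by
        intro h0
        funext l
        show Function.update n a (v a) l + (if l ∈ T then v l else 0) =
          n l + (if l ∈ insert a T then v l else 0)
        by_cases hla : l = a
        · subst hla
          rw [Function.update_self, if_neg ha, if_pos (Finset.mem_insert_self l T), h0]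
          omega
        · rw [Function.update_of_ne hla]
          have : (l ∈ insert a T) ↔ l ∈ T := by
            rw [Finset.mem_insert]
            exact ⟨fun h => h.resolve_left hla, Or.inr⟩
          by_cases hl : l ∈ T
          · rw [if_pos hl, if_pos (this.2 hl)]
          · rw [if_neg hl, if_neg fun h => hl (this.1 h)]
      constructor
      · rintro ⟨h2, h3⟩
        have h0 := h2 a (Finset.mem_insert_self a T)
        exact ⟨h0, e1.2 fun l hl => h2 l (Finset.mem_insert_of_mem hl), by rw [e2 h0]; exact h3⟩
      · rintro ⟨h0, h2, h3⟩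
        rw [e2 h0] at h3
        refine ⟨fun l hl => ?_, h3⟩
        rcases Finset.mem_insert.1 hl with h | h
        · rw [h]
          exact h0
        · exact e1.1 h2 l h
    rw [h]
    exact h1

theorem down_fin {S : Set (Fin k → ℕ)} {i : Fin k} (hd : ∀ l < i, DownAt l S)
    {n n' : Fin k → ℕ} (hn : n ∈ S) (hle : ∀ l < i, n' l ≤ n l) (T : Finset (Fin k))
    (hT : ∀ l ∈ T, l < i) : (fun l => if l ∈ T then n' l else n l) ∈ S := by
  classical
  induction T using Finset.induction_on with
  | empty =>
    have e : (fun l => if l ∈ (∅ : Finset (Fin k)) then n' l else n l) = n := by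
      funext l
      exact if_neg (Finset.notMem_empty l)
    rw [e]
    exact hn
  | insert a T ha ih =>
    have h1 := ih fun l hl => hT l (Finset.mem_insert_of_mem hl)
    have hai := hT a (Finset.mem_insert_self a T)
    have h2 := hd a hai _ h1 (n' a) (by
      show n' a ≤ if a ∈ T then n' a else n a
      rw [if_neg ha]
      exact hle a hai)
    have e : Function.update (fun l => if l ∈ T then n' l else n l) a (n' a) =
        fun l => if l ∈ insert a T then n' l else n l := by
      funext l
      by_cases hla : l = a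
      · subst hla
        rw [Function.update_self, if_pos (Finset.mem_insert_self l T)]
      · rw [Function.update_of_ne hla]
        by_cases hl : l ∈ T
        · rw [if_pos hl, if_pos (Finset.mem_insert_of_mem hl)]
        · rw [if_neg hl, if_neg]
          intro h
          rcases Finset.mem_insert.1 h with h | h
          · exact hla h
          · exact hl h
    rw [← e]
    exact h2

end SecAllAux

theorem sec_all {G : Set (Set (Fin k → ℕ))} (hG : Fam G) {S : Set (Fin k → ℕ)} (hS : S ∈ G)
    (i : Fin k) {v : Fin k → ℕ} (hv : ∀ l, l ≤ i → v l = 0) :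
    {n : Fin k → ℕ | (∀ l, i < l → n l = 0) ∧ n + v ∈ S} ∈ G := by
  classical
  have h1 := SecAllAux.sec_fin hG hS v (Finset.univ.filter fun l => i < l)
  have e : SecAllAux.res (Finset.univ.filter fun l => i < l) v = v := by
    funext l
    show (if l ∈ Finset.univ.filter (fun l => i < l) then v l else 0) = v l
    by_cases h : i < l
    · rw [if_pos (Finset.mem_filter.2 ⟨Finset.mem_univ l, h⟩)]
    · rw [if_neg fun h2 => h (Finset.mem_filter.1 h2).2, hv l (not_lt.1 h)]
  rw [e] at h1
  have e2 : {n : Fin k → ℕ | (∀ l, i < l → n l = 0) ∧ n + v ∈ S} =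
      {n : Fin k → ℕ | (∀ l ∈ Finset.univ.filter (fun l => i < l), n l = 0) ∧ n + v ∈ S} := by
    ext n
    show ((∀ l, i < l → n l = 0) ∧ n + v ∈ S) ↔
      ((∀ l ∈ Finset.univ.filter (fun l => i < l), n l = 0) ∧ n + v ∈ S)
    constructor
    · exact fun h => ⟨fun l hl => h.1 l (Finset.mem_filter.1 hl).2, h.2⟩
    · exact fun h => ⟨fun l hl => h.1 l (Finset.mem_filter.2 ⟨Finset.mem_univ l, hl⟩), h.2⟩
  rw [e2]
  exact h1

theorem down_le {S : Set (Fin k → ℕ)} {i : Fin k} (hd : ∀ l < i, DownAt l S)
    {n n' : Fin k → ℕ} (hn : n ∈ S) (hle : ∀ l < i, n' l ≤ n l) (heq : ∀ l, i ≤ l → n' l = n l) :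
    n' ∈ S := by
  classical
  have h1 := SecAllAux.down_fin hd hn hle (Finset.univ.filter fun l => l < i)
    fun l hl => (Finset.mem_filter.1 hl).2
  have e : (fun l => if l ∈ Finset.univ.filter (fun l => l < i) then n' l else n l) = n' := by
    funext l
    by_cases h : l < i
    · exact if_pos (Finset.mem_filter.2 ⟨Finset.mem_univ l, h⟩)
    · have h3 : l ∉ Finset.univ.filter (fun l => l < i) := fun h2 => h (Finset.mem_filter.1 h2).2
      exact (if_neg h3).trans (heq l (not_lt.1 h)).symm
  rw [e] at h1
  exact h1

end Pool.Agent.Lib.BCC
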