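import Pool.Agent.Lib.BCC.Defs

/-!
# Module BCC.SemiOps: operations on semilinear sets (MP_f1c4ef_lc)
-/

set_option autoImplicit false

namespace Pool.Agent.Lib.BCC

namespace SemiOpsAux

/-- affine preimages of semilinear sets are semilinear -/
theorem semi_affine {M N : Type*} [AddCommMonoid M] [AddCommMonoid N] [AddMonoid.FG M]
    [AddMonoid.FG N] {S : Set N} (hS : IsSemilinearSet S) (a : N) (A : M →+ N) :
    IsSemilinearSet {x : M | a + A x ∈ S} := by
  have h1 : IsSemilinearSet {x : M × N | a + (A.comp (AddMonoidHom.fst M N)) x =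
      0 + (AddMonoidHom.snd M N) x} := isSemilinearSet_setOfPred_eq a 0 _ _
  have h2 : IsSemilinearSet ((AddMonoidHom.snd M N) ⁻¹' S) := hS.preimage (AddMonoidHom.snd M N)
  have h3 := (h1.inter h2).image (AddMonoidHom.fst M N)
  have h4 : {x : M | a + A x ∈ S} = (AddMonoidHom.fst M N) ''
      ({x : M × N | a + (A.comp (AddMonoidHom.fst M N)) x = 0 + (AddMonoidHom.snd M N) x} ∩
        ((AddMonoidHom.snd M N) ⁻¹' S)) := by
    ext x
    constructor
    · intro hx
      exact ⟨(x, a + A x), ⟨by simp, hx⟩, rfl⟩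
    · rintro ⟨⟨y, s⟩, ⟨h, hs⟩, rfl⟩
      have h' : a + A y = 0 + s := h
      have hs' : s ∈ S := hs
      show a + A y ∈ S
      rw [h', zero_add]
      exact hs'
  rw [h4]
  exact h3

/-- multiply the coordinate `i` by `q` -/
def scl {k : ℕ} (i : Fin k) (q : ℕ) : (Fin k → ℕ) →+ (Fin k → ℕ) where
  toFun n := fun l => (if l = i then q else 1) * n l
  map_zero' := by
    funext l
    simp
  map_add' x y := by
    funext l
    simp [mul_add]

theorem scl_apply {k : ℕ} (i : Fin k) (q : ℕ) (n : Fin k → ℕ) (l : Fin k) :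
    scl i q n l = (if l = i then q else 1) * n l := rfl

theorem single_add_scl {k : ℕ} (i : Fin k) (a q : ℕ) (n : Fin k → ℕ) :
    Pi.single i a + scl i q n = Function.update n i (a + q * n i) := by
  funext l
  rw [Pi.add_apply, scl_apply]
  by_cases h : l = i
  · subst h
    simp
  · rw [if_neg h, Function.update_of_ne h, Pi.single_eq_of_ne h]
    omega

end SemiOpsAux

open SemiOpsAux

variable {k : ℕ}

theorem semi_down {S : Set (Fin k → ℕ)} (hS : IsSemilinearSet S) (i : Fin k) :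
    IsSemilinearSet {n : Fin k → ℕ | ∃ m, n i ≤ m ∧ Function.update n i m ∈ S} := by
  let f : ((Fin k → ℕ) × ℕ) →+ (Fin k → ℕ) :=
    AddMonoidHom.fst (Fin k → ℕ) ℕ +
      (AddMonoidHom.single (fun _ : Fin k => ℕ) i).comp (AddMonoidHom.snd (Fin k → ℕ) ℕ)
  have hf : ∀ (x : Fin k → ℕ) (y : ℕ), f (x, y) = x + Pi.single i y := fun x y => rfl
  have h1 := (hS.preimage f).image (AddMonoidHom.fst (Fin k → ℕ) ℕ)
  have hup : ∀ (x : Fin k → ℕ) (y : ℕ), x + Pi.single i y = Function.update x i (x i + y) := by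
    intro x y
    funext l
    rw [Pi.add_apply]
    by_cases h : l = i
    · subst h
      simp
    · rw [Function.update_of_ne h, Pi.single_eq_of_ne h, add_zero]
  have h2 : {n : Fin k → ℕ | ∃ m, n i ≤ m ∧ Function.update n i m ∈ S} =
      (AddMonoidHom.fst (Fin k → ℕ) ℕ) '' (f ⁻¹' S) := by
    ext n
    constructor
    · rintro ⟨m, hm, hS'⟩
      refine ⟨(n, m - n i), ?_, rfl⟩
      show f (n, m - n i) ∈ S
      rw [hf, hup]
      have : n i + (m - n i) = m := by omega
      rw [this]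
      exact hS'
    · rintro ⟨⟨x, y⟩, hxy, rfl⟩
      have hxy' : f (x, y) ∈ S := hxy
      rw [hf, hup] at hxy'
      exact ⟨x i + y, Nat.le_add_right _ _, hxy'⟩
  rw [h2]
  exact h1

theorem semi_aff {S : Set (Fin k → ℕ)} (hS : IsSemilinearSet S) (i : Fin k) (a q : ℕ) :
    IsSemilinearSet {n : Fin k → ℕ | Function.update n i (a + q * n i) ∈ S} := by
  have h := semi_affine hS (Pi.single i a) (scl i q)
  simp only [single_add_scl] at h
  exact h

theorem semi_sec {S : Set (Fin k → ℕ)} (hS : IsSemilinearSet S) (i : Fin k) (a : ℕ) :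
    IsSemilinearSet {n : Fin k → ℕ | n i = 0 ∧ Function.update n i a ∈ S} := by
  have h1 : IsSemilinearSet {n : Fin k → ℕ | Function.update n i (a + 0 * n i) ∈ S} :=
    semi_aff hS i a 0
  have h2 : IsSemilinearSet ((Pi.evalAddMonoidHom (fun _ : Fin k => ℕ) i) ⁻¹' ({0} : Set ℕ)) :=
    (IsSemilinearSet.singleton (0 : ℕ)).preimage _
  have h3 := h2.inter h1
  have h4 : {n : Fin k → ℕ | n i = 0 ∧ Function.update n i a ∈ S} =
      ((Pi.evalAddMonoidHom (fun _ : Fin k => ℕ) i) ⁻¹' ({0} : Set ℕ)) ∩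
        {n : Fin k → ℕ | Function.update n i (a + 0 * n i) ∈ S} := by
    ext n
    constructor
    · rintro ⟨h, h'⟩
      refine ⟨h, ?_⟩
      show Function.update n i (a + 0 * n i) ∈ S
      rw [zero_mul, add_zero]
      exact h'
    · rintro ⟨h, h'⟩
      refine ⟨h, ?_⟩
      have h'' : Function.update n i (a + 0 * n i) ∈ S := h'
      rw [zero_mul, add_zero] at h''
      exact h''
  rw [h4]
  exact h3

theorem semi_add {S : Set (Fin k → ℕ)} (hS : IsSemilinearSet S) (v : Fin k → ℕ) :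
    IsSemilinearSet {n : Fin k → ℕ | n + v ∈ S} := by
  have h := semi_affine hS v (AddMonoidHom.id (Fin k → ℕ))
  have h2 : {n : Fin k → ℕ | n + v ∈ S} = {x | v + (AddMonoidHom.id (Fin k → ℕ)) x ∈ S} := by
    ext n
    show n + v ∈ S ↔ v + n ∈ S
    rw [add_comm]
  rw [h2]
  exact h

theorem semi_proj {S : Set (Fin k → ℕ)} (hS : IsSemilinearSet S) (i : Fin k) :
    ∃ N p : ℕ, 0 < p ∧ ∀ j, N ≤ j → ((∃ n ∈ S, n i = j) ↔ ∃ n ∈ S, n i = j + p) := by
  have h1 := hS.image (Pi.evalAddMonoidHom (fun _ : Fin k => ℕ) i)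
  obtain ⟨N, p, hp, h⟩ := Nat.isSemilinearSet_iff_ultimately_periodic.1 h1
  refine ⟨N, p, hp, fun j hj => ?_⟩
  have h2 := h j hj
  exact h2

end Pool.Agent.Lib.BCC
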