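import Pool.Agent.Lib.BCC.StepD

/-!
# Module BCC.StepC: the case of finite or cofinite sections (MP_f1c4ef_lc)

PROOF. `D = {n | ∃ m, n i ≤ m ∧ update n i m ∈ S}` is in `G` (`Fam.down`), semilinear (`semi_down`), has support in `Z`, is downward closed in all coordinates `≤ i`; so `Rec` by `hQ`: threshold `T`, period `p`. Let `G0 = {g | g i = 0 ∧ update g i T ∈ D}`: `Rec` (`rec_sec`), support in `Z`, downward closed in the coordinates
`< i`. (1) For `g ∈ G0` the set of the `m` with `update g i m ∈ S` is infinite: `update g i (T + t * p) ∈ D` for all `t`, so there is `m ≥ T + t * p` with `update g i m ∈ S`; by `hfc` it contains all large `m`. (2) For `n ∈ S` with `T ≤ n i`: `update n i T ∈ D`, so `update n i 0 ∈ G0`.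
Let `S' = {n | update n i (T + 1 * n i) ∈ S}` (`Fam.aff`, `semi_aff`): `step_d` (with (1), (2)) gives `Rec S'`, so `S ∩ {n | T ≤ n i}` is `Rec` (`rec_above`; rewrite `T + 1 * n i = n i + T`); `S ∩ {n | n i < T}` is `Rec` by `rec_below` (sections: `Fam.sec`, `semi_sec`, support in `Z.erase i`, `hZ`). Union.
-/

set_option autoImplicit false

namespace Pool.Agent.Lib.BCC

variable {k : ℕ}

namespace StepCAux

/-- two updates at the same coordinate -/
private theorem upd_same (n : Fin k → ℕ) (i : Fin k) (a b : ℕ) :
    Function.update (Function.update n i a) i b = Function.update n i b := by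
  simp

private theorem upd_comm {i l : Fin k} (h : l ≠ i) (n : Fin k → ℕ) (a b : ℕ) :
    Function.update (Function.update n l a) i b = Function.update (Function.update n i b) l a :=
  Function.update_comm h a b n

end StepCAux

open StepCAux in
theorem step_c {G : Set (Set (Fin k → ℕ))} (hG : Fam G) {Z : Finset (Fin k)}
    (hZ : ∀ Z' : Finset (Fin k), Z' ⊂ Z → ∀ S ∈ G, IsSemilinearSet S → SuppIn Z' S → Rec S)
    {i : Fin k} (hi : i ∈ Z)
    (hQ : ∀ S ∈ G, IsSemilinearSet S → SuppIn Z S → (∀ l, l ≤ i → DownAt l S) → Rec S)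
    {S : Set (Fin k → ℕ)} (hS : S ∈ G) (hs : IsSemilinearSet S)
    (hsup : SuppIn Z S) (hd : ∀ l < i, DownAt l S)
    (hfc : ∀ n : Fin k → ℕ, ∃ N : ℕ, ∀ j, N ≤ j →
      (Function.update n i j ∈ S ↔ Function.update n i (j + 1) ∈ S)) : Rec S := by
  -- the downward closure in the coordinate `i`
  set D : Set (Fin k → ℕ) := {n | ∃ m, n i ≤ m ∧ Function.update n i m ∈ S} with hDdef
  have hDG : D ∈ G := hG.down S hS i
  have hDs : IsSemilinearSet D := semi_down hs i
  have hDsup : SuppIn Z D := by
    rintro n ⟨m, -, hm⟩ l hl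
    have hli : l ≠ i := fun h => hl (h ▸ hi)
    have := hsup _ hm l hl
    rwa [Function.update_of_ne hli] at this
  have hDd : ∀ l, l ≤ i → DownAt l D := by
    intro l hl n hn m' hm'
    obtain ⟨m, hnm, hm⟩ := hn
    rcases eq_or_lt_of_le hl with rfl | hlt
    · refine ⟨m, ?_, ?_⟩
      · rw [Function.update_self]
        exact hm'.trans hnm
      · rw [upd_same]
        exact hm
    · have hli : l ≠ i := ne_of_lt hlt
      refine ⟨m, ?_, ?_⟩
      · rw [Function.update_of_ne hli.symm]
        exact hnm
      · rw [upd_comm hli]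
        apply hd l hlt _ hm
        rw [Function.update_of_ne hli]
        exact hm'
  obtain ⟨T, p, hp, hTp⟩ := hQ D hDG hDs hDsup hDd
  have hRecD : Rec D := ⟨T, p, hp, hTp⟩
  -- the set `G0`
  set G0 : Set (Fin k → ℕ) := {g | g i = 0 ∧ Function.update g i T ∈ D} with hG0def
  have h0 : Rec G0 := rec_sec hRecD i T
  have h0i : ∀ n ∈ G0, n i = 0 := fun n hn => hn.1
  have h0d : ∀ l < i, DownAt l G0 := by
    intro l hl n hn m hm
    have hli : l ≠ i := ne_of_lt hl
    refine ⟨?_, ?_⟩
    · rw [Function.update_of_ne hli.symm]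
      exact hn.1
    · rw [upd_comm hli]
      apply hDd l hl.le _ hn.2
      rw [Function.update_of_ne hli]
      exact hm
  have h0Z : SuppIn Z G0 := by
    intro n hn l hl
    have hli : l ≠ i := fun h => hl (h ▸ hi)
    have := hDsup _ hn.2 l hl
    rwa [Function.update_of_ne hli] at this
  -- the part of `S` above `T`
  set S' : Set (Fin k → ℕ) := {n | Function.update n i (T + 1 * n i) ∈ S} with hS'def
  have hS'G : S' ∈ G := hG.aff S hS i T 1 one_pos
  have hS's : IsSemilinearSet S' := semi_aff hs i T 1
  have hS'sup : SuppIn Z S' := by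
    intro n hn l hl
    have hli : l ≠ i := fun h => hl (h ▸ hi)
    have := hsup _ hn l hl
    rwa [Function.update_of_ne hli] at this
  have hS'd : ∀ l < i, DownAt l S' := by
    intro l hl n hn m hm
    have hli : l ≠ i := ne_of_lt hl
    change Function.update (Function.update n l m) i (T + 1 * (Function.update n l m) i) ∈ S
    rw [Function.update_of_ne hli.symm, upd_comm hli]
    apply hd l hl _ hn
    rw [Function.update_of_ne hli]
    exact hm
  have hcov : ∀ n ∈ S', Function.update n i 0 ∈ G0 := by
    intro n hn
    refine ⟨Function.update_self .., ?_⟩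
    rw [upd_same]
    refine ⟨T + 1 * n i, ?_, ?_⟩
    · rw [Function.update_self]
      exact Nat.le_add_right _ _
    · rw [upd_same]
      exact hn
  have hcof : ∀ g ∈ G0, ∃ M, ∀ m, M ≤ m → Function.update g i m ∈ S' := by
    intro g hg
    obtain ⟨N, hN⟩ := hfc g
    have hper : ∀ t : ℕ, Function.update g i (T + t * p) ∈ D := by
      intro t
      induction t with
      | zero => simpa using hg.2
      | succ t ih =>
        have h1 := (hTp (Function.update g i (T + t * p)) i
          (by rw [Function.update_self]; exact Nat.le_add_right _ _)).1 ih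
        rw [Function.update_self, upd_same] at h1
        have h2 : T + (t + 1) * p = T + t * p + p := by ring
        rw [h2]
        exact h1
    obtain ⟨M, hM1, hM2⟩ := hper N
    rw [Function.update_self] at hM1
    rw [upd_same] at hM2
    have hNM : N ≤ M := by
      have : N ≤ N * p := Nat.le_mul_of_pos_right N hp
      omega
    have hall : ∀ j, M ≤ j → Function.update g i j ∈ S := by
      intro j hj
      induction j, hj using Nat.le_induction with
      | base => exact hM2
      | succ j hj ih => exact (hN j (hNM.trans hj)).1 ih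
    refine ⟨M, fun m hm => ?_⟩
    change Function.update (Function.update g i m) i (T + 1 * (Function.update g i m) i) ∈ S
    rw [Function.update_self, upd_same]
    exact hall _ (by omega)
  have hRecS' : Rec S' := step_d hG hZ hi hS'G hS's hS'sup hS'd h0 h0i h0d h0Z hcov hcof
  have hS'eq : {n : Fin k → ℕ | Function.update n i (n i + T) ∈ S} = S' := by
    ext n
    simp only [hS'def, Set.mem_setOf_eq]
    rw [one_mul, Nat.add_comm]
  have hab : Rec (S ∩ {n | T ≤ n i}) := rec_above i T (by rw [hS'eq]; exact hRecS')
  have hbe : Rec (S ∩ {n | n i < T}) := by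
    refine rec_below i T fun j _ => ?_
    refine hZ (Z.erase i) (Finset.erase_ssubset hi) _ (hG.sec S hS i j) (semi_sec hs i j) ?_
    intro n hn l hl
    by_cases hli : l = i
    · rw [hli]
      exact hn.1
    · have hlZ : l ∉ Z := fun h => hl (Finset.mem_erase.2 ⟨hli, h⟩)
      have := hsup _ hn.2 l hlZ
      rwa [Function.update_of_ne hli] at this
  have huni : S = (S ∩ {n | n i < T}) ∪ (S ∩ {n | T ≤ n i}) := by
    ext n
    simp only [Set.mem_union, Set.mem_inter_iff, Set.mem_setOf_eq]
    constructor
    · intro h
      rcases lt_or_ge (n i) T with h1 | h1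
      · exact Or.inl ⟨h, h1⟩
      · exact Or.inr ⟨h, h1⟩
    · rintro (h | h)
      · exact h.1
      · exact h.1
  rw [huni]
  exact rec_union hbe hab

end Pool.Agent.Lib.BCC
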