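import Pool.Agent.Lib.BCC.StepE
import Pool.Agent.Lib.BCC.Boxes

/-!
# Module BCC.StepD: decomposition into boxes (MP_f1c4ef_lc)

PROOF. `boxes` applied to `G0` gives `ι`, `U`, `V`. For `a : ι` let `S_a = S ∩ {n | ∃ u ∈ U a, ∃ v ∈ V a, update n i 0 = u + v}`. It is in `G` (`Fam.inter`, `rec_rect`), semilinear (`rec_semi`, `.inter`), has support in `Z`, is downward closed in the coordinates `l < i`: for `n ∈ S_a`, `update (update n l m) i 0 =
update u l m + v` with `update u l m ≤ u` in `U a` (`Ideal`). If `U a` or `V a` is empty, `S_a` is empty (`rec_empty`). Otherwise the supports of `U a`, `V a` are in `Z` (`u + v ∈ G0` for all `u ∈ U a`, `v ∈ V a`), and `step_e` gives `Rec S_a`; the hypothesis `hcof` of `step_e`: for large `m`, `update (u + v) i m ∈ S`,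
and `update (update (u + v) i m) i 0 = u + v` as `(u + v) i = 0`. `S` is the union of the `S_a` (`rec_iUnion`).
-/

set_option autoImplicit false

namespace Pool.Agent.Lib.BCC

variable {k : ℕ}

theorem step_d {G : Set (Set (Fin k → ℕ))} (hG : Fam G) {Z : Finset (Fin k)}
    (hZ : ∀ Z' : Finset (Fin k), Z' ⊂ Z → ∀ S ∈ G, IsSemilinearSet S → SuppIn Z' S → Rec S)
    {i : Fin k} (hi : i ∈ Z) {S : Set (Fin k → ℕ)} (hS : S ∈ G) (hs : IsSemilinearSet S)
    (hsup : SuppIn Z S) (hd : ∀ l < i, DownAt l S) {G0 : Set (Fin k → ℕ)} (h0 : Rec G0)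
    (h0i : ∀ n ∈ G0, n i = 0) (h0d : ∀ l < i, DownAt l G0) (h0Z : SuppIn Z G0)
    (hcov : ∀ n ∈ S, Function.update n i 0 ∈ G0)
    (hcof : ∀ g ∈ G0, ∃ M, ∀ m, M ≤ m → Function.update g i m ∈ S) : Rec S := by
  obtain ⟨ι, hfin, U, V, hU, hV, hl, hh, hI, hsum, hdec⟩ := boxes i h0 h0i h0d
  have := hfin
  have hunion : S = ⋃ a, (S ∩ {n | ∃ u ∈ U a, ∃ v ∈ V a, Function.update n i 0 = u + v}) := by
    ext n
    simp only [Set.mem_iUnion, Set.mem_inter_iff, Set.mem_ofPred_eq]
    constructor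
    · intro hn
      obtain ⟨a, u, hu, v, hv, h⟩ := hdec _ (hcov n hn)
      exact ⟨a, hn, u, hu, v, hv, h⟩
    · rintro ⟨a, hn, -⟩
      exact hn
  rw [hunion]
  apply rec_iUnion
  intro a
  by_cases hUe : (U a).Nonempty
  swap
  · have : S ∩ {n | ∃ u ∈ U a, ∃ v ∈ V a, Function.update n i 0 = u + v} = ∅ := by
      ext n
      simp only [Set.mem_inter_iff, Set.mem_ofPred_eq, Set.mem_empty_iff_false, iff_false]
      rintro ⟨-, u, hu, -⟩
      exact hUe ⟨u, hu⟩
    rw [this]
    exact rec_empty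
  by_cases hVe : (V a).Nonempty
  swap
  · have : S ∩ {n | ∃ u ∈ U a, ∃ v ∈ V a, Function.update n i 0 = u + v} = ∅ := by
      ext n
      simp only [Set.mem_inter_iff, Set.mem_ofPred_eq, Set.mem_empty_iff_false, iff_false]
      rintro ⟨-, u, hu, v, hv, -⟩
      exact hVe ⟨v, hv⟩
    rw [this]
    exact rec_empty
  obtain ⟨u0, hu0⟩ := hUe
  obtain ⟨v0, hv0⟩ := hVe
  have hrect := rec_rect i (hU a) (hV a) (hl a) (hh a)
  refine step_e (U := U a) (V := V a) hG hZ hi (hG.inter S hS _ hrect)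
    (hs.inter (rec_semi hrect)) ?_ ?_ (hU a) (hV a) (hl a) (hh a) (hI a) ?_ ?_ ?_ ?_
  · intro n hn
    exact hsup n hn.1
  · intro l hli n hn m hm
    obtain ⟨hnS, u, hu, v, hv, huv⟩ := hn
    have hvl : v l = 0 := hh a v hv l hli.le
    have hnl : n l = u l := by
      have h1 := congrFun huv l
      rw [Function.update_of_ne hli.ne, Pi.add_apply, hvl, add_zero] at h1
      exact h1
    refine ⟨hd l hli n hnS m hm, Function.update u l m, ?_, v, hv, ?_⟩
    · apply (hI a).1 u hu
      intro j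
      by_cases hj : j = l
      · subst hj
        rw [Function.update_self]
        exact hm.trans hnl.le
      · rw [Function.update_of_ne hj]
    · rw [Function.update_comm hli.ne, huv]
      funext j
      by_cases hj : j = l
      · subst hj
        rw [Function.update_self, Pi.add_apply, Function.update_self, hvl, add_zero]
      · rw [Function.update_of_ne hj, Pi.add_apply, Pi.add_apply, Function.update_of_ne hj]
  · intro u hu j hj
    have h1 := h0Z _ (hsum a u hu v0 hv0) j hj
    rw [Pi.add_apply] at h1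
    omega
  · intro v hv j hj
    have h1 := h0Z _ (hsum a u0 hu0 v hv) j hj
    rw [Pi.add_apply] at h1
    omega
  · rintro n ⟨-, h⟩
    exact h
  · intro u hu v hv
    have h1 := hsum a u hu v hv
    obtain ⟨M, hM⟩ := hcof _ h1
    refine ⟨M, fun m hm => ⟨hM m hm, u, hu, v, hv, ?_⟩⟩
    rw [Function.update_idem]
    have h2 : (u + v) i = 0 := h0i _ h1
    nth_rewrite 2 [← Function.update_eq_self i (u + v)]
    rw [h2]

end Pool.Agent.Lib.BCC
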