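import Pool.Agent.Lib.BCC.StepF

/-!
# Module BCC.StepE: one box (MP_f1c4ef_lc)

PROOF. `B = {n | ∃ u ∈ U, ∃ v ∈ V, update n i 0 = u + v} \ S` is semilinear (`rec_rect`, `rec_semi`, `IsSemilinearSet.compl`, `.inter`). Let `J` be the set of its `i`-th coordinates; `j ∈ J` iff some `u ∈ U`, `v ∈ V` have `update (u + v) i j ∉ S` (`n = update (u + v) i (n i)`). By `semi_proj` there are `N`, `p > 0` with
`j ∈ J ↔ j + p ∈ J` for `j ≥ N`.
Case 1: no `a ≥ N` is in `J`. Then `{n | update n i (n i + N) ∈ S} = {n | ∃ u ∈ U, ∃ v ∈ V, update n i 0 = u + v}` (`hcov` for one inclusion), which is `Rec` (`rec_rect`), so `S ∩ {n | N ≤ n i}` is `Rec` (`rec_above`); `S ∩ {n | n i < N}` is `Rec` by `rec_below`: the sections `{n | n i = 0 ∧ update n i j ∈ S}` are in `G`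
(`Fam.sec`), semilinear (`semi_sec`), with support in `Z.erase i`, so `Rec` by `hZ`. Union.
Case 2: `a ∈ J`, `a ≥ N`. Then `a + p m ∈ J` for all `m`. `S4 = {n | update n i (a + p * n i) ∈ S}` is in `G` (`Fam.aff`), semilinear (`semi_aff`), has support in `Z`, is downward closed in the coordinates `< i`, and for `u ∈ U`, `v ∈ V` we have `update (u + v) i m ∈ S4` for all large `m`. `step_f` gives `m` with
`update (u + v) i (a + p m) ∈ S` for all `u ∈ U`, `v ∈ V`: contradiction to `a + p m ∈ J`.
-/

set_option autoImplicit false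

namespace Pool.Agent.Lib.BCC

variable {k : ℕ}

theorem step_e {G : Set (Set (Fin k → ℕ))} (hG : Fam G) {Z : Finset (Fin k)}
    (hZ : ∀ Z' : Finset (Fin k), Z' ⊂ Z → ∀ S ∈ G, IsSemilinearSet S → SuppIn Z' S → Rec S)
    {i : Fin k} (hi : i ∈ Z) {S : Set (Fin k → ℕ)} (hS : S ∈ G) (hs : IsSemilinearSet S)
    (hsup : SuppIn Z S) (hd : ∀ l < i, DownAt l S) {U V : Set (Fin k → ℕ)} (hU : Rec U)
    (hV : Rec V) (hl : Low i U) (hh : High i V) (hI : Ideal U) (hUZ : SuppIn Z U)
    (hVZ : SuppIn Z V)
    (hcov : ∀ n ∈ S, ∃ u ∈ U, ∃ v ∈ V, Function.update n i 0 = u + v)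
    (hcof : ∀ u ∈ U, ∀ v ∈ V, ∃ M, ∀ m, M ≤ m → Function.update (u + v) i m ∈ S) :
    Rec S := by
  classical
  have hR : Rec {n : Fin k → ℕ | ∃ u ∈ U, ∃ v ∈ V, Function.update n i 0 = u + v} :=
    rec_rect i hU hV hl hh
  have hB : IsSemilinearSet
      ({n : Fin k → ℕ | ∃ u ∈ U, ∃ v ∈ V, Function.update n i 0 = u + v} ∩ Sᶜ) :=
    (rec_semi hR).inter hs.compl
  obtain ⟨N, p, hp, hJ⟩ := semi_proj hB i
  by_cases hcase : ∃ a, N ≤ a ∧ ∃ n ∈ ({n : Fin k → ℕ | ∃ u ∈ U, ∃ v ∈ V,
      Function.update n i 0 = u + v} ∩ Sᶜ), n i = a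
  · exfalso
    obtain ⟨a, haN, ha⟩ := hcase
    have hall : ∀ m : ℕ, ∃ n ∈ ({n : Fin k → ℕ | ∃ u ∈ U, ∃ v ∈ V,
        Function.update n i 0 = u + v} ∩ Sᶜ), n i = a + p * m := by
      intro m
      induction m with
      | zero => simpa using ha
      | succ m ih =>
        have h1 := (hJ (a + p * m) (by omega)).1 ih
        have e1 : a + p * (m + 1) = a + p * m + p := by ring
        rw [e1]
        exact h1
    have hsup4 : SuppIn Z {n : Fin k → ℕ | Function.update n i (a + p * n i) ∈ S} := by
      intro n hn l hlZ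
      have hli : l ≠ i := fun h => hlZ (h ▸ hi)
      have h1 := hsup _ hn l hlZ
      rwa [Function.update_of_ne hli] at h1
    have hd4 : ∀ l < i, DownAt l {n : Fin k → ℕ | Function.update n i (a + p * n i) ∈ S} := by
      intro l hli n hn m hm
      have hne : l ≠ i := ne_of_lt hli
      show Function.update (Function.update n l m) i
        (a + p * (Function.update n l m) i) ∈ S
      rw [Function.update_of_ne hne.symm, Function.update_comm hne]
      have h1 := hd l hli _ hn m (by rw [Function.update_of_ne hne]; exact hm)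
      exact h1
    obtain ⟨m, hm⟩ := step_f hG hZ hi (hG.aff S hS i a p hp) (semi_aff hs i a p) hsup4 hd4
      hU hV hl hh hI hUZ hVZ (by
        intro u hu v hv
        obtain ⟨M, hM⟩ := hcof u hu v hv
        refine ⟨M, fun m hm => ?_⟩
        show Function.update (Function.update (u + v) i m) i
          (a + p * (Function.update (u + v) i m) i) ∈ S
        rw [Function.update_self, Function.update_idem]
        refine hM _ ?_
        have h1 : m ≤ p * m := Nat.le_mul_of_pos_left m hp
        omega)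
    obtain ⟨n, ⟨⟨u, hu, v, hv, huv⟩, hnS⟩, hni⟩ := hall m
    have h1 := hm u hu v hv
    have h2 : Function.update (Function.update (u + v) i m) i
        (a + p * (Function.update (u + v) i m) i) ∈ S := h1
    rw [Function.update_self, Function.update_idem, ← huv, Function.update_idem, ← hni,
      Function.update_eq_self] at h2
    exact hnS h2
  · have hno : ∀ n : Fin k → ℕ, (∃ u ∈ U, ∃ v ∈ V, Function.update n i 0 = u + v) →
        N ≤ n i → n ∈ S := by
      intro n hn hN
      by_contra h
      exact hcase ⟨n i, hN, n, ⟨hn, h⟩, rfl⟩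
    have e1 : {n : Fin k → ℕ | Function.update n i (n i + N) ∈ S}
        = {n : Fin k → ℕ | ∃ u ∈ U, ∃ v ∈ V, Function.update n i 0 = u + v} := by
      ext n
      constructor
      · intro h
        obtain ⟨u, hu, v, hv, huv⟩ := hcov _ h
        rw [Function.update_idem] at huv
        exact ⟨u, hu, v, hv, huv⟩
      · rintro ⟨u, hu, v, hv, huv⟩
        refine hno _ ⟨u, hu, v, hv, ?_⟩ ?_
        · rw [Function.update_idem]
          exact huv
        · rw [Function.update_self]
          exact Nat.le_add_left _ _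
    have h1 : Rec (S ∩ {n | N ≤ n i}) := rec_above i N (by rw [e1]; exact hR)
    have h2 : Rec (S ∩ {n | n i < N}) :=
      rec_below i N (fun j _ => StepFAux.sec_rec hG hZ hi hS hs hsup j)
    have e2 : S = (S ∩ {n | N ≤ n i}) ∪ (S ∩ {n | n i < N}) := by
      ext n
      constructor
      · intro h
        rcases le_or_gt N (n i) with h3 | h3
        · exact Or.inl ⟨h, h3⟩
        · exact Or.inr ⟨h, h3⟩
      · rintro (h | h)
        · exact h.1
        · exact h.1
    rw [e2]
    exact rec_union h1 h2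

end Pool.Agent.Lib.BCC
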