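import Pool.Agent.Lib.BCC.Defs
import Pool.Agent.Lib.BCC.SecAll
import Pool.Agent.Lib.BCC.RecOps
import Pool.Agent.Lib.BCC.RecSemi
import Pool.Agent.Lib.BCC.SemiOps

/-!
# Module BCC.StepF: application of the two uniformity principles (MP_f1c4ef_lc)

PROOF. Sections: for every `m` the set `{n | n i = 0 ∧ update n i m ∈ S}` is in `G` (`Fam.sec`), semilinear (`semi_sec`) and has its support in `Z.erase i`, so it is `Rec` by `hZ`.
Case 1: some `l ∈ Z` has `i < l`. Apply `hG.two`. Monotonicity: `down_le`. `Rec {n | ∃ u ∈ U, ∃ v ∈ V, n = u + v ∧ update n i m ∈ S}`: intersection of `rec_add` and of the section (`n i = 0` for `n = u + v`). Last hypothesis: let `v ∈ V`; `W = {n | (∀ l, i < l → n l = 0) ∧ n + v ∈ S}` is in `G` (`sec_all`),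
semilinear (intersection of `semi_add` and of the `Rec` set of all `n` with `n l = 0` for `l > i`), with support in the set of the elements `≤ i` of `Z`, a proper subset of `Z`, so `Rec` by `hZ`: threshold `N`, period `p`. For `u ∈ U`, `m ≥ N`: `update (u + v) i m = update u i m + v`, `update u i m ∈ W ↔ update u i (m + t p) ∈ W`
(induction on `t`) and the latter holds for large `t` by `hcof`. So `M = N`.
Case 2: no `l ∈ Z` has `i < l`. Then every `v ∈ V` is `0` (`High`, `SuppIn`). If `V` is empty, nothing is to be shown. Otherwise `V = {0}` and `hG.last` applies.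
-/

set_option autoImplicit false

namespace Pool.Agent.Lib.BCC

variable {k : ℕ}

namespace StepFAux

theorem rec_high (i : Fin k) : Rec {n : Fin k → ℕ | ∀ l, i < l → n l = 0} := by
  refine ⟨1, 1, Nat.one_pos, fun n j hn => ?_⟩
  show (∀ l, i < l → n l = 0) ↔ ∀ l, i < l → Function.update n j (n j + 1) l = 0
  by_cases hij : i < j
  · constructor
    · intro h
      have := h j hij
      omega
    · intro h
      have := h j hij
      rw [Function.update_self] at this
      omega
  · refine forall_congr' fun l => forall_congr' fun hl => ?_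
    have hlj : l ≠ j := fun h => hij (h ▸ hl)
    rw [Function.update_of_ne hlj]

theorem sec_rec {G : Set (Set (Fin k → ℕ))} (hG : Fam G) {Z : Finset (Fin k)}
    (hZ : ∀ Z' : Finset (Fin k), Z' ⊂ Z → ∀ S ∈ G, IsSemilinearSet S → SuppIn Z' S → Rec S)
    {i : Fin k} (hi : i ∈ Z) {S : Set (Fin k → ℕ)} (hS : S ∈ G) (hs : IsSemilinearSet S)
    (hsup : SuppIn Z S) (m : ℕ) : Rec {n : Fin k → ℕ | n i = 0 ∧ Function.update n i m ∈ S} := by
  classical
  refine hZ (Z.erase i) (Finset.erase_ssubset hi) _ (hG.sec S hS i m) (semi_sec hs i m) ?_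
  rintro n ⟨h0, hn⟩ l hl
  by_cases hli : l = i
  · rw [hli]
    exact h0
  · have h1 := hsup _ hn l fun h => hl (Finset.mem_erase.2 ⟨hli, h⟩)
    rw [Function.update_of_ne hli] at h1
    exact h1

theorem rec_iter {W : Set (Fin k → ℕ)} {N p : ℕ}
    (h : ∀ (n : Fin k → ℕ) (i : Fin k), N ≤ n i → (n ∈ W ↔ Function.update n i (n i + p) ∈ W))
    (u : Fin k → ℕ) (i : Fin k) {m : ℕ} (hm : N ≤ m) (t : ℕ) :
    Function.update u i m ∈ W ↔ Function.update u i (m + t * p) ∈ W := by
  induction t with
  | zero => rw [Nat.zero_mul, Nat.add_zero]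
  | succ t ih =>
    have h1 := h (Function.update u i (m + t * p)) i (by
      rw [Function.update_self]
      omega)
    rw [Function.update_self, Function.update_idem] at h1
    have e : m + t * p + p = m + (t + 1) * p := by ring
    rw [e] at h1
    exact ih.trans h1

end StepFAux

open StepFAux in
theorem step_f {G : Set (Set (Fin k → ℕ))} (hG : Fam G) {Z : Finset (Fin k)}
    (hZ : ∀ Z' : Finset (Fin k), Z' ⊂ Z → ∀ S ∈ G, IsSemilinearSet S → SuppIn Z' S → Rec S)
    {i : Fin k} (hi : i ∈ Z) {S : Set (Fin k → ℕ)} (hS : S ∈ G) (hs : IsSemilinearSet S)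
    (hsup : SuppIn Z S) (hd : ∀ l < i, DownAt l S) {U V : Set (Fin k → ℕ)} (hU : Rec U)
    (hV : Rec V) (hl : Low i U) (hh : High i V) (hI : Ideal U) (hUZ : SuppIn Z U)
    (hVZ : SuppIn Z V)
    (hcof : ∀ u ∈ U, ∀ v ∈ V, ∃ M, ∀ m, M ≤ m → Function.update (u + v) i m ∈ S) :
    ∃ m, ∀ u ∈ U, ∀ v ∈ V, Function.update (u + v) i m ∈ S := by
  classical
  by_cases hex : ∃ l ∈ Z, i < l
  · refine hG.two S hS i U V hU hV hl hh hI ?_ ?_ ?_
    · intro u hu u' hle v hv m hn
      refine down_le hd hn ?_ ?_
      · intro l hli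
        have hne : l ≠ i := ne_of_lt hli
        rw [Function.update_of_ne hne, Function.update_of_ne hne]
        exact Nat.add_le_add_right (hle l) _
      · intro l hli
        rcases eq_or_lt_of_le hli with h | h
        · subst h
          rw [Function.update_self, Function.update_self]
        · have hne : l ≠ i := (ne_of_lt h).symm
          have h0 : u l = 0 := hl u hu l hli
          have h1 : u' l = 0 := Nat.le_zero.1 (h0 ▸ hle l)
          rw [Function.update_of_ne hne, Function.update_of_ne hne]
          show u' l + v l = u l + v l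
          rw [h0, h1]
    · intro m
      have h1 := rec_inter (rec_add i hU hV hl hh) (sec_rec hG hZ hi hS hs hsup m)
      have e : {n : Fin k → ℕ | ∃ u ∈ U, ∃ v ∈ V, n = u + v ∧ Function.update n i m ∈ S} =
          {n : Fin k → ℕ | ∃ u ∈ U, ∃ v ∈ V, n = u + v} ∩
            {n : Fin k → ℕ | n i = 0 ∧ Function.update n i m ∈ S} := by
        ext n
        constructor
        · rintro ⟨u, hu, v, hv, e, hn⟩
          refine ⟨⟨u, hu, v, hv, e⟩, ?_, hn⟩
          rw [e]
          show u i + v i = 0
          rw [hl u hu i le_rfl, hh v hv i le_rfl]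
        · rintro ⟨⟨u, hu, v, hv, e⟩, _, hn⟩
          exact ⟨u, hu, v, hv, e, hn⟩
      rw [e]
      exact h1
    · intro v hv
      have hv0 : ∀ l, l ≤ i → v l = 0 := fun l hli => hh v hv l hli
      have hWG := sec_all hG hS i hv0
      have hWs : IsSemilinearSet {n : Fin k → ℕ | (∀ l, i < l → n l = 0) ∧ n + v ∈ S} :=
        (rec_semi (rec_high i)).inter (semi_add hs v)
      obtain ⟨l0, hl0, hil0⟩ := hex
      have hWr := hZ (Z.filter fun l => l ≤ i) (by
        refine (Finset.ssubset_iff_of_subset (Finset.filter_subset _ _)).2 ⟨l0, hl0, fun h => ?_⟩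
        exact not_lt.2 (Finset.mem_filter.1 h).2 hil0) _ hWG hWs (by
        rintro n ⟨h1, h2⟩ l hl'
        by_cases hil : i < l
        · exact h1 l hil
        · have h3 : l ∉ Z := fun h => hl' (Finset.mem_filter.2 ⟨h, not_lt.1 hil⟩)
          have h4 : n l + v l = 0 := hsup _ h2 l h3
          omega)
      obtain ⟨N, p, hp, hW⟩ := hWr
      have key : ∀ u ∈ U, ∀ m, Function.update u i m ∈
          {n : Fin k → ℕ | (∀ l, i < l → n l = 0) ∧ n + v ∈ S} ↔
            Function.update (u + v) i m ∈ S := by
        intro u hu m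
        have e : Function.update u i m + v = Function.update (u + v) i m := by
          funext l
          by_cases hli : l = i
          · subst hli
            show Function.update u l m l + v l = _
            rw [Function.update_self, Function.update_self, hv0 l le_rfl, Nat.add_zero]
          · show Function.update u i m l + v l = _
            rw [Function.update_of_ne hli, Function.update_of_ne hli]
            rfl
        show ((∀ l, i < l → Function.update u i m l = 0) ∧ Function.update u i m + v ∈ S) ↔ _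
        rw [e]
        refine ⟨fun h => h.2, fun h => ⟨fun l hil => ?_, h⟩⟩
        rw [Function.update_of_ne (ne_of_gt hil)]
        exact hl u hu l hil.le
      refine ⟨N, fun u hu m hm => ?_⟩
      obtain ⟨M, hM⟩ := hcof u hu v hv
      have h1 := rec_iter hW u i hm M
      rw [key u hu m, key u hu (m + M * p)] at h1
      exact h1.2 (hM _ (le_trans (Nat.le_mul_of_pos_right M hp) (Nat.le_add_left _ _)))
  · have hV0 : ∀ v ∈ V, v = 0 := by
      intro v hv
      funext l
      by_cases hil : i < l
      · exact hVZ v hv l fun h => hex ⟨l, h, hil⟩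
      · exact hh v hv l (not_lt.1 hil)
    rcases V.eq_empty_or_nonempty with hVe | ⟨v0, hv0⟩
    · refine ⟨0, fun u _ v hv => ?_⟩
      rw [hVe] at hv
      exact absurd hv (Set.notMem_empty _)
    · have h0V : (0 : Fin k → ℕ) ∈ V := by
        rw [← hV0 v0 hv0]
        exact hv0
      obtain ⟨m, hm⟩ := hG.last S hS i U hU hl (fun m => by
        have h1 := rec_inter hU (sec_rec hG hZ hi hS hs hsup m)
        have e : {n : Fin k → ℕ | n ∈ U ∧ Function.update n i m ∈ S} =
            U ∩ {n : Fin k → ℕ | n i = 0 ∧ Function.update n i m ∈ S} := by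
          ext n
          exact ⟨fun h => ⟨h.1, hl n h.1 i le_rfl, h.2⟩, fun h => ⟨h.1, h.2.2⟩⟩
        rw [e]
        exact h1) (fun u hu => by
        obtain ⟨M, hM⟩ := hcof u hu 0 h0V
        refine ⟨M, fun m hm => ?_⟩
        have := hM m hm
        rwa [add_zero] at this)
      refine ⟨m, fun u hu v hv => ?_⟩
      rw [hV0 v hv, add_zero]
      exact hm u hu

end Pool.Agent.Lib.BCC
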